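import Pool.Agent.Lib.MP_34a732_nt.Vel
import Pool.Agent.Lib.MP_0a3b9a_nt.Defs

/-!
Module C1: the two models of the curve.
PROOF.  a = (4+r)/8/27 = (4+r)/216.  (x', y') = (12 - 144 u v, 864 (2 u^2 v - u v + a)) maps the solutions (u,v) of u + v + a/(uv) = 1, u, v ≠ 0 (equivalently u^2 v + u v^2 + a = u v)
bijectively to the affine points of y'^2 = x'^3 + A x' + B (A = 48(r-5), B = 112(11-4r)) with x' ≠ 12.
Inverse: P = (12-x')/144, Y = y'/864, u = (Y + P - a)/(2P), v = (P - a - Y)/(2P); then u+v = 1 - a/P, uv = ((P-a)^2 - Y^2)/(4P^2) = P, because 864^2((P-a)^2 - 4P^3) = x'^3 + A x' + B.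
The points with x' = 12: y'^2 = (16+4r)^2, two points, 16+4r ≠ 0 (consts).  So NA = NN + 2 (Finset.card_bij / card_nbij', split the filter by x' = 12).
The numbers 2, 3 are invertible (consts).
-/

namespace CM11
open SCong

variable {p : ℕ} [Fact p.Prime]

/-- the curve equation in the variables `P = (12 - x) / 144`, `Y = y / 864` -/
theorem C1_curve {r a P : ZMod p} (hr : r ^ 2 = -11) (ha : 216 * a = 4 + r) :
    864 ^ 2 * ((P - a) ^ 2 - 4 * P ^ 3) =
      (12 - 144 * P) ^ 3 + A11 r * (12 - 144 * P) + B11 r := by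
  unfold A11 B11
  linear_combination (-6912 * P + 16 * (216 * a + 4 + r)) * ha + 16 * hr

theorem C1_main (h2 : (2 : ZMod p) ≠ 0) (h3 : (3 : ZMod p) ≠ 0) {r a : ZMod p}
    (hr : r ^ 2 = -11) (ha : 216 * a = 4 + r) :
    ((Finset.univ : Finset (ZMod p × ZMod p)).filter
      (fun w => w.1 ≠ 12 ∧ w.2 ^ 2 = w.1 ^ 3 + A11 r * w.1 + B11 r)).card = NN p a := by
  have h144 : (144 : ZMod p) ≠ 0 := by
    have : (144 : ZMod p) = 2 ^ 4 * 3 ^ 2 := by norm_num
    rw [this]
    exact mul_ne_zero (pow_ne_zero _ h2) (pow_ne_zero _ h3)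
  have h864 : (864 : ZMod p) ≠ 0 := by
    have : (864 : ZMod p) = 2 ^ 5 * 3 ^ 3 := by norm_num
    rw [this]
    exact mul_ne_zero (pow_ne_zero _ h2) (pow_ne_zero _ h3)
  unfold NN
  refine Finset.card_nbij'
    (fun w => ((w.2 / 864 + (12 - w.1) / 144 - a) / (2 * ((12 - w.1) / 144)),
      ((12 - w.1) / 144 - a - w.2 / 864) / (2 * ((12 - w.1) / 144))))
    (fun w => (12 - 144 * (w.1 * w.2), 864 * (2 * w.1 * (w.1 * w.2) - w.1 * w.2 + a)))
    ?_ ?_ ?_ ?_
  · rintro ⟨x, y⟩ hw
    simp only [Finset.coe_filter, Finset.mem_univ, true_and, Set.mem_ofPred_eq] at hw ⊢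
    obtain ⟨hx, hy⟩ := hw
    obtain ⟨P, hP⟩ : ∃ P, P = (12 - x) / 144 := ⟨_, rfl⟩
    obtain ⟨Y, hY⟩ : ∃ Y, Y = y / 864 := ⟨_, rfl⟩
    rw [← hP, ← hY]
    have ex : x = 12 - 144 * P := by rw [hP]; field_simp; ring
    have ey : y = 864 * Y := by rw [hY]; field_simp
    have hP0 : P ≠ 0 := by
      rintro h0
      apply hx
      rw [ex, h0]; ring
    have hYP : Y ^ 2 = (P - a) ^ 2 - 4 * P ^ 3 := by
      have h5 := C1_curve (P := P) hr ha
      rw [← ex, ← hy, ey] at h5
      have h6 : (864 : ZMod p) ^ 2 ≠ 0 := pow_ne_zero _ h864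
      apply mul_left_cancel₀ h6
      linear_combination -h5
    have huv : (Y + P - a) / (2 * P) * ((P - a - Y) / (2 * P)) = P := by
      rw [div_mul_div_comm, div_eq_iff (by
        exact mul_ne_zero (mul_ne_zero h2 hP0) (mul_ne_zero h2 hP0))]
      linear_combination -hYP
    have hne : (Y + P - a) / (2 * P) * ((P - a - Y) / (2 * P)) ≠ 0 := by rw [huv]; exact hP0
    refine ⟨left_ne_zero_of_mul hne, right_ne_zero_of_mul hne, ?_⟩
    rw [huv]
    field_simp
    ring
  · rintro ⟨u, v⟩ hw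
    simp only [Finset.coe_filter, Finset.mem_univ, true_and, Set.mem_ofPred_eq] at hw ⊢
    obtain ⟨hu, hv, he⟩ := hw
    have he' : u * v * (u + v) + a = u * v := by
      have h5 : (u + v + a / (u * v)) * (u * v) = 1 * (u * v) := by rw [he]
      rw [add_mul, div_mul_cancel₀ _ (mul_ne_zero hu hv)] at h5
      linear_combination h5
    constructor
    · intro h
      have : 144 * (u * v) = 0 := by linear_combination -h
      exact mul_ne_zero h144 (mul_ne_zero hu hv) this
    · rw [← C1_curve hr ha]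
      have h6 : 2 * u * (u * v) - u * v + a = u * v * (u - v) := by
        linear_combination he'
      rw [h6]
      have h7 : u * v - a = u * v * (u + v) := by linear_combination -he'
      rw [h7]
      ring
  · rintro ⟨x, y⟩ hw
    simp only [Finset.coe_filter, Finset.mem_univ, true_and, Set.mem_ofPred_eq] at hw
    obtain ⟨hx, hy⟩ := hw
    obtain ⟨P, hP⟩ : ∃ P, P = (12 - x) / 144 := ⟨_, rfl⟩
    obtain ⟨Y, hY⟩ : ∃ Y, Y = y / 864 := ⟨_, rfl⟩
    simp only
    rw [← hP, ← hY]
    have ex : x = 12 - 144 * P := by rw [hP]; field_simp; ring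
    have ey : y = 864 * Y := by rw [hY]; field_simp
    have hP0 : P ≠ 0 := by
      rintro h0
      apply hx
      rw [ex, h0]; ring
    have hYP : Y ^ 2 = (P - a) ^ 2 - 4 * P ^ 3 := by
      have h5 := C1_curve (P := P) hr ha
      rw [← ex, ← hy, ey] at h5
      have h6 : (864 : ZMod p) ^ 2 ≠ 0 := pow_ne_zero _ h864
      apply mul_left_cancel₀ h6
      linear_combination -h5
    have huv : (Y + P - a) / (2 * P) * ((P - a - Y) / (2 * P)) = P := by
      rw [div_mul_div_comm, div_eq_iff (by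
        exact mul_ne_zero (mul_ne_zero h2 hP0) (mul_ne_zero h2 hP0))]
      linear_combination -hYP
    rw [huv]
    refine Prod.ext ex.symm ?_
    simp only
    rw [ey]
    field_simp
    ring
  · rintro ⟨u, v⟩ hw
    simp only [Finset.coe_filter, Finset.mem_univ, true_and, Set.mem_ofPred_eq] at hw
    obtain ⟨hu, hv, he⟩ := hw
    have he' : u * v * (u + v) + a = u * v := by
      have h5 : (u + v + a / (u * v)) * (u * v) = 1 * (u * v) := by rw [he]
      rw [add_mul, div_mul_cancel₀ _ (mul_ne_zero hu hv)] at h5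
      linear_combination h5
    have e1 : (12 - (12 - 144 * (u * v))) / 144 = u * v := by
      rw [div_eq_iff h144]; ring
    have e2 : 864 * (2 * u * (u * v) - u * v + a) / 864 = 2 * u * (u * v) - u * v + a := by
      rw [mul_div_assoc, mul_div_cancel₀]
      exact h864
    simp only
    rw [e1, e2]
    have huv : 2 * (u * v) ≠ 0 := mul_ne_zero h2 (mul_ne_zero hu hv)
    refine Prod.ext ?_ ?_
    · simp only
      rw [div_eq_iff huv]
      ring
    · simp only
      rw [div_eq_iff huv]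
      linear_combination -2 * he'

theorem na_eq (hp : 11 < p) {r : ZMod p} (hr : r ^ 2 = -11) :
    NA p (A11 r) (B11 r) = NN p ((4 + r) / 8 / 27) + 2 := by
  obtain ⟨h2, h3, -, -, -, -, -, -, -, -, hc⟩ := consts hp hr
  have h8 : (8 : ZMod p) ≠ 0 := by
    have : (8 : ZMod p) = 2 ^ 3 := by norm_num
    rw [this]; exact pow_ne_zero _ h2
  have h27 : (27 : ZMod p) ≠ 0 := by
    have : (27 : ZMod p) = 3 ^ 3 := by norm_num
    rw [this]; exact pow_ne_zero _ h3
  have ha : 216 * ((4 + r) / 8 / 27) = 4 + r := by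
    have : (216 : ZMod p) = 8 * 27 := by norm_num
    rw [this]
    field_simp
  rw [← C1_main h2 h3 hr ha]
  unfold NA
  have hsplit := Finset.card_filter_add_card_filter_not
    (s := (Finset.univ : Finset (ZMod p × ZMod p)).filter
      (fun w => w.2 ^ 2 = w.1 ^ 3 + A11 r * w.1 + B11 r)) (fun w => w.1 = 12)
  rw [← hsplit, Finset.filter_filter, Finset.filter_filter, add_comm]
  congr 1
  · congr 1
    ext w
    simp only [Finset.mem_filter, Finset.mem_univ, true_and]
    tauto
  · have h12 : (12 : ZMod p) ^ 3 + A11 r * 12 + B11 r = (16 + 4 * r) ^ 2 := by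
      unfold A11 B11
      linear_combination -16 * hr
    have hne : (16 + 4 * r) ≠ -(16 + 4 * r) := by
      intro h
      have : 2 * (16 + 4 * r) = 0 := by linear_combination h
      exact mul_ne_zero h2 hc this
    refine Eq.trans ?_ (Finset.card_pair (a := ((12 : ZMod p), 16 + 4 * r))
      (b := (12, -(16 + 4 * r))) (by intro h; exact hne (Prod.ext_iff.1 h).2))
    congr 1
    ext ⟨x, y⟩
    simp only [Finset.mem_filter, Finset.mem_univ, true_and, Finset.mem_insert,
      Finset.mem_singleton, Prod.mk.injEq]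
    constructor
    · rintro ⟨h, rfl⟩
      rw [h12] at h
      rcases sq_eq_sq_iff_eq_or_eq_neg.1 h with h | h
      · exact Or.inl ⟨rfl, h⟩
      · exact Or.inr ⟨rfl, h⟩
    · rintro (⟨rfl, rfl⟩ | ⟨rfl, rfl⟩)
      · exact ⟨h12.symm, rfl⟩
      · exact ⟨by rw [neg_sq]; exact h12.symm, rfl⟩

end CM11
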