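import Mathlib

/-!
Definitions for the complete (corrected) solution of MP_34a732_nt.
An elliptic curve with complex multiplication by `Z[(1+√-11)/2]` over `F_p`, its points over the
function field, heights, Frobenius.
-/

namespace CM11
open Polynomial WeierstrassCurve

section generic
variable {F : Type} [Field F]

/-- short Weierstrass curve over a field of characteristic not 2, nonsingular -/
structure Sh (V : Affine F) : Prop where
  a1 : V.a₁ = 0
  a2 : V.a₂ = 0
  a3 : V.a₃ = 0
  two : (2 : F) ≠ 0
  disc : 4 * V.a₄ ^ 3 + 27 * V.a₆ ^ 2 ≠ 0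

/-- `P` is the affine point with coordinates `x`, `y` -/
def At {V : Affine F} (P : V.Point) (x y : F) : Prop := ∃ h : V.Nonsingular x y, P = .some x y h

/-- symmetric functions of two `x`-coordinates, projectively -/
noncomputable def sx {V : Affine F} (P Q : V.Point) : F := P.xRep 0 * Q.xRep 0
noncomputable def tx {V : Affine F} (P Q : V.Point) : F :=
  P.xRep 0 * Q.xRep 1 + P.xRep 1 * Q.xRep 0
noncomputable def ux {V : Affine F} (P Q : V.Point) : F := P.xRep 1 * Q.xRep 1

/-- the invariant differential `dx / y` evaluated with a derivation. -/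
noncomputable def mu {V : Affine F} (D : F → F) : V.Point → F
  | .zero => 0
  | .some x y _ => D x / y

end generic

section forms
variable {R : Type} [CommRing R]

/-- the forms of the addition-and-subtraction map of `y^2 = x^3 + a x + b` -/
def F0 (a b s t u : R) : R := s ^ 2 - 2 * a * s * u - 4 * b * t * u + a ^ 2 * u ^ 2
def F1 (a b s t u : R) : R := 2 * s * t + 2 * a * t * u + 4 * b * u ^ 2
def F2 (_a _b s t u : R) : R := t ^ 2 - 4 * s * u

end forms

section poly
variable {k : Type} [Field k]

/-- maximal degree of a vector of polynomials -/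
noncomputable def md (u v w : k[X]) : ℕ := max u.natDegree (max v.natDegree w.natDegree)
/-- primitive vector -/
def Prim (u v w : k[X]) : Prop := ∃ a b c : k[X], a * u + b * v + c * w = 1

end poly

section ff
variable (p : ℕ) [Fact p.Prime]

/-- the field of functions of `s^2 = f(t)` over `F_p`, with everything that is needed about it:
`ι` is the inclusion of `F_p[t]`, `σ` is `s -> -s`, `D = d/dt`. -/
structure FF (f : (ZMod p)[X]) (L : Type) [Field L] [Algebra (ZMod p) L] where
  ι : (ZMod p)[X] →ₐ[ZMod p] L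
  inj : Function.Injective ι
  s : L
  ssq : s ^ 2 = ι f
  σ : L →ₐ[ZMod p] L
  σι : ∀ a, σ (ι a) = ι a
  σs : σ s = -s
  fix : ∀ x, σ x = x → ∃ a b : (ZMod p)[X], b ≠ 0 ∧ x * ι b = ι a
  D : Derivation (ZMod p) L L
  Dι : ∀ a, D (ι a) = ι (derivative a)
  lift : ∀ x y : L, (∀ a : (ZMod p)[X], aeval x a = 0 → a = 0) → y ^ 2 = aeval x f →
    ∃ τ : L →ₐ[ZMod p] L, (∀ a, τ (ι a) = aeval x a) ∧ τ s = y

/-- `y^2 = x^3 + A x + B` over `F_p` -/
def WW (A B : ZMod p) : Affine (ZMod p) := ⟨0, 0, 0, A, B⟩

/-- `x^3 + A x + B` -/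
noncomputable def ff (A B : ZMod p) : (ZMod p)[X] := X ^ 3 + C A * X + C B

variable {p} {f : (ZMod p)[X]} {L : Type} [Field L] [Algebra (ZMod p) L] (S : FF p f L)

/-- `(a : b)` is the `x`-coordinate of `P`, in lowest terms. -/
def Rep {V : Affine L} (P : V.Point) (a b : (ZMod p)[X]) : Prop :=
  IsCoprime a b ∧ P.xRep 0 * S.ι b = P.xRep 1 * S.ι a

/-- height of `P` -/
def Ht {V : Affine L} (P : V.Point) (n : ℕ) : Prop :=
  ∃ a b, Rep S P a b ∧ max a.natDegree b.natDegree = n

/-- the `x`-coordinate of `P` has a pole at infinity (or `P = 0`) -/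
def Pole {V : Affine L} (P : V.Point) : Prop := ∃ a b, Rep S P a b ∧ b.degree < a.degree

/-- the curve `y^2 = x^3 + A x + B` over `L` -/
abbrev EL (L : Type) [Field L] [Algebra (ZMod p) L] (A B : ZMod p) : Affine L :=
  Affine.baseChange (WW p A B) L

/-- `P` changes sign under `σ` -/
def Od [DecidableEq L] {A B : ZMod p} (P : (EL L A B).Point) : Prop :=
  Affine.Point.map (W' := WW p A B) S.σ P = -P

variable (p)

/-- number of affine points of `y^2 = x^3 + A x + B` -/
noncomputable def NA (A B : ZMod p) : ℕ :=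
  ((Finset.univ : Finset (ZMod p × ZMod p)).filter
    (fun w => w.2 ^ 2 = w.1 ^ 3 + A * w.1 + B)).card

variable {p}

/-- the coefficients of the curve with complex multiplication -/
def A11 (r : ZMod p) : ZMod p := 48 * (r - 5)
def B11 (r : ZMod p) : ZMod p := 112 * (11 - 4 * r)

end ff

end CM11
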