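import Pool.Agent.Lib.MP_0a3b9a_nt.F1

/-!
Module FA: HH(z0) ≡ a - p/a mod p², z0 = (4+r)/8, r² = -11, a = p - 2 - NN.
COPY of Pool/Agent/Lib/MP_0a3b9a_nt/F1.lean with new constants (root_res = F2_r, z0_res = F2_z, M_z0' = F1_M, HH_z0' = the first half of HH_z0; F1_pow, F1_taylor, F1_count, F1_alg, M_zero, wronskian, HH_red ... are cited).
y0 = -(1+r)/4, y0³ = z0, z0 (1+2y0)³ = -27/8 = 9 y0 (1+y0+y0²) (all by r² = -11).  Residues (ρ² = -11, p > 11): b = -(1+ρ)/4 ≠ 0 since (1+ρ)(1-ρ) = 12; 1+2b = (1-ρ)/2; 1+b+b² = (1-ρ)/8;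
3(1+b+b²)(1+2b) - (1-b)² = -(11+4ρ)/4, (11+4ρ)(11-4ρ) = 297 = 27·11; ζ = (4+ρ)/8 ≠ 0, 1-ζ = (4-ρ)/8 ≠ 0: (4+ρ)(4-ρ) = 27.
HH_z0': as in F1.HH_z0: count gives a ≡ HH + p (w TH + HH + TG), wronskian at ζ ≠ 1 and M = 0 give HH (w TH + HH + TG) ≡ 1 mod p, so HH·a ≡ HH² + p mod p² and F1_alg with A = a.
-/

namespace CM11
open SCong Finset Polynomial

variable {p : ℕ} [Fact p.Prime]

theorem fa_units (hp : 11 < p) : (2 : ZMod p) ≠ 0 ∧ (3 : ZMod p) ≠ 0 ∧ (8 : ZMod p) ≠ 0 ∧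
    (27 : ZMod p) ≠ 0 ∧ (11 : ZMod p) ≠ 0 := by
  obtain ⟨e2, e3⟩ := ne_of_five (p := p) (by omega)
  have e8 : (8 : ZMod p) ≠ 0 := by
    have : (8 : ZMod p) = 2 * 2 * 2 := by norm_num
    rw [this]; exact mul_ne_zero (mul_ne_zero e2 e2) e2
  have e27 : (27 : ZMod p) ≠ 0 := by
    have : (27 : ZMod p) = 3 * 3 * 3 := by norm_num
    rw [this]; exact mul_ne_zero (mul_ne_zero e3 e3) e3
  have e11 : (11 : ZMod p) ≠ 0 := by
    have := nat_ne_zero (p := p) (n := 11) (fun h => absurd (Nat.le_of_dvd (by norm_num) h) (by omega))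
    exact_mod_cast this
  exact ⟨e2, e3, e8, e27, e11⟩

theorem root_res (hp : 11 < p) {r : ℚ_[p]} (hr : r ^ 2 = -11) :
    ∃ ρ : ZMod p, Rd p r ρ ∧ ρ ^ 2 = -11 := by
  have h1 : In p r := by
    rw [in_iff]
    by_contra hlt
    push Not at hlt
    have h2 : ‖r ^ 2‖ ≤ 1 := by
      rw [hr]; exact in_iff.1 (by exact_mod_cast In.int (-11))
    rw [norm_pow] at h2
    nlinarith
  obtain ⟨ρ, hρ⟩ := h1.rd
  refine ⟨ρ, hρ, ?_⟩
  have h2 := hρ.pow 2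
  rw [hr] at h2
  have h3 : Rd p (-11 : ℚ_[p]) (-11) := by exact_mod_cast Rd.int (p := p) (-11)
  exact h2.unique h3

theorem z0_res (hp : 11 < p) {r : ℚ_[p]} {ρ : ZMod p} (hρ : Rd p r ρ) (h2 : ρ ^ 2 = -11) :
    Rd p ((4 + r) / 8) ((4 + ρ) / 8) ∧ (4 + ρ) / 8 ≠ 0 ∧
      Rd p ((4 + r) / 8 / 27) ((4 + ρ) / 8 / 27) ∧ (4 + ρ) / 8 / 27 ≠ 0 ∧ 1 - (4 + ρ) / 8 ≠ 0 := by
  obtain ⟨e2, e3, e8, e27, e11⟩ := fa_units hp
  have r1 : Rd p ((4 + r) / 8) ((4 + ρ) / 8) := by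
    have := ((Rd.nat (p := p) 4).add hρ).div (Rd.nat (p := p) 8) (by exact_mod_cast e8)
    exact_mod_cast this
  have n1 : (4 + ρ) / 8 ≠ 0 := by
    rw [div_ne_zero_iff]
    refine ⟨fun h => ?_, e8⟩
    apply e27
    linear_combination (4 - ρ) * h + h2
  refine ⟨r1, n1, ?_, div_ne_zero n1 e27, ?_⟩
  · have := r1.div (Rd.nat (p := p) 27) (by exact_mod_cast e27)
    exact_mod_cast this
  · intro h
    rw [sub_eq_zero, eq_comm, div_eq_iff e8] at h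
    apply e27
    linear_combination (-(4 + ρ)) * h + h2

theorem fa_M (hp : 11 < p) {r : ℚ_[p]} (hr : r ^ 2 = -11) {ρ : ZMod p} (hρ : Rd p r ρ) (h2 : ρ ^ 2 = -11)
    {w : ℚ_[p]} {ω : ZMod p} (hw : Rd p w ω) (hq : ((4 + r) / 8 / 27) ^ (p - 1) = 1 + p * w) :
    (Gp p).eval ((4 + ρ) / 8) + ω * (Hp p).eval ((4 + ρ) / 8) = 0 := by
  obtain ⟨e2, e3, e8, e27, e11⟩ := fa_units hp
  have e4 : (4 : ZMod p) ≠ 0 := by
    have : (4 : ZMod p) = 2 * 2 := by norm_num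
    rw [this]; exact mul_ne_zero e2 e2
  have hy : Rd p (-(1 + r) / 4) (-(1 + ρ) / 4) := by
    have := (((Rd.nat (p := p) 1).add hρ).neg).div (Rd.nat (p := p) 4) (by exact_mod_cast e4)
    exact_mod_cast this
  have hz : (4 + r) / 8 = (-(1 + r) / 4) ^ 3 := by
    linear_combination ((3 + r) / 64 : ℚ_[p]) * hr
  have hb2 : 4 * (-(1 + ρ) / 4) = -(1 + ρ) := by field_simp
  obtain ⟨b, hbd⟩ : ∃ b : ZMod p, b = -(1 + ρ) / 4 := ⟨_, rfl⟩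
  rw [← hbd] at hb2 hy
  have hρb : ρ = -4 * b - 1 := by linear_combination hb2
  have hbq : 4 * b ^ 2 + 2 * b + 3 = 0 := by
    have h3 : 4 * (4 * b ^ 2 + 2 * b + 3) = 0 := by
      rw [hρb] at h2
      linear_combination h2
    exact (mul_eq_zero.1 h3).resolve_left e4
  have hb3 : (4 + ρ) / 8 = b ^ 3 := by
    rw [div_eq_iff e8, hρb]
    linear_combination (1 - 2 * b) * hbq
  have hrel : (4 + r) / 8 * (1 + 2 * (-(1 + r) / 4)) ^ 3 =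
      9 * (-(1 + r) / 4) * (1 + -(1 + r) / 4 + (-(1 + r) / 4) ^ 2) := by
    linear_combination ((-r ^ 2 + 8 * r + 11) / 64 : ℚ_[p]) * hr
  have h0 : b ≠ 0 := by
    intro h0
    rw [h0] at hbq
    apply e3
    linear_combination hbq
  have hL : 1 + 2 * b ≠ 0 := by
    intro h0
    apply e3
    linear_combination hbq - 2 * b * h0
  have hQ : 1 + b + b ^ 2 ≠ 0 := by
    intro h0
    apply e3
    linear_combination (1 + 2 * b) * hbq - 8 * b * h0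
  have hD : 3 * (1 + b + b ^ 2) * (1 + 2 * b) - (1 - b) ^ 2 ≠ 0 := by
    intro h0
    apply mul_ne_zero e27 e11
    linear_combination (64 + (16 * b + 15) * (6 * b + 5)) * hbq - 4 * (16 * b + 15) * h0
  rw [hb3]
  exact M_zero (by omega) hy hz hrel h0 hL hQ hD hw hq

/-- `M(z0) = 0` modulo `p` -/
theorem M_z0' (hp : 11 < p) {r : ℚ_[p]} (hr : r ^ 2 = -11) {w : ℚ_[p]}
    (hw : In p w) (hq : ((4 + r) / 8 / 27) ^ (p - 1) = 1 + p * w) :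
    Cg p 1 (GG p ((4 + r) / 8) + w * HH p ((4 + r) / 8)) 0 := by
  have hp5 : 5 ≤ p := by omega
  obtain ⟨ρ, hρ, hρ2⟩ := root_res hp hr
  obtain ⟨r1, n1, r2, n2, n3⟩ := z0_res hp hρ hρ2
  obtain ⟨ω, hω⟩ := hw.rd
  rw [← rd_zero_iff, ← fa_M hp hr hρ hρ2 hω hq]
  exact (GG_red hp5 r1).add (hω.mul (HH_red hp5 r1))

theorem HH_z0' (hp : 11 < p) {r : ℚ_[p]} (hr : r ^ 2 = -11) {ρ : ZMod p} (hρ : Rd p r ρ) {a : ℤ}
    (ha : (p : ℤ) - 2 - NN p ((4 + ρ) / 8 / 27) = a) (ha0 : (a : ZMod p) ≠ 0) :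
    Cg p 2 (HH p ((4 + r) / 8)) (a - p / a) := by
  have hp5 : 5 ≤ p := by omega
  obtain ⟨ρ', hρ', hρ2⟩ := root_res hp hr
  obtain rfl := hρ.unique hρ'
  obtain ⟨r1, n1, r2, n2, hζ1⟩ := z0_res hp hρ hρ2
  obtain ⟨w, hw⟩ := r2.fermat n2
  rw [pow_one] at hw
  have hw' : ((4 + r) / 8 / 27) ^ (p - 1) = 1 + p * (w : ℚ_[p]) := by linear_combination hw
  obtain ⟨ω, hω⟩ := (In.coe w).rd
  have hM := fa_M hp hr hρ hρ2 hω hw'
  have hcount := F1_count hp5 r1 n1 r2 (In.coe w) hw'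
  have hW := congrArg (Polynomial.eval ((4 + ρ) / 8)) (wronskian (p := p) hp5)
  have rH := HH_red hp5 r1
  have rG := GG_red hp5 r1
  have rTH := TH_red hp5 r1
  have rTG := TG_red hp5 r1
  have hNN' : (p : ℚ_[p]) - 2 - NN p ((4 + ρ) / 8 / 27) = ((a : ℤ) : ℚ_[p]) := by
    rw [← ha]; push_cast; ring
  rw [hNN'] at hcount
  simp only [eval_mul, eval_sub, eval_add, eval_pow, eval_X, eval_one, ZMod.pow_card] at hW rTH rTG
  have hW' := mul_left_cancel₀ hζ1 (hW.trans (mul_one _).symm)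
  have hG : (Gp p).eval ((4 + ρ) / 8) = -(ω * (Hp p).eval ((4 + ρ) / 8)) := by
    linear_combination hM
  have hU : (Hp p).eval ((4 + ρ) / 8) * (ω * ((4 + ρ) / 8 * (derivative (Hp p)).eval ((4 + ρ) / 8)) +
      (Hp p).eval ((4 + ρ) / 8) + (4 + ρ) / 8 * (derivative (Gp p)).eval ((4 + ρ) / 8)) = 1 := by
    rw [hG] at hW'
    linear_combination hW'
  have hH0 : (Hp p).eval ((4 + ρ) / 8) ≠ 0 := by
    intro h0
    rw [h0, zero_mul] at hU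
    exact zero_ne_one hU
  have hUU : Cg p 1 (HH p ((4 + r) / 8) * ((w : ℚ_[p]) * TH p ((4 + r) / 8) + HH p ((4 + r) / 8) +
      TG p ((4 + r) / 8))) 1 := by
    have h5 := rH.mul (((hω.mul rTH).add rH).add rTG)
    rw [hU] at h5
    exact h5.cg Rd.one
  have h6 := hUU.pmul
  have h7 : Cg p 2 (HH p ((4 + r) / 8) * ((a : ℤ) : ℚ_[p])) (HH p ((4 + r) / 8) ^ 2 + p) := by
    have h8 := hcount.mul_left rH.in
    refine h8.trans ?_
    have h9 := (Cg.refl (p := p) 2 (HH p ((4 + r) / 8) ^ 2)).add h6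
    refine (Cg.of_eq (by ring)).trans (h9.trans (Cg.of_eq (by ring)))
  exact F1_alg (Rd.int a) ha0 rH.in h7 ⟨_, rH, hH0⟩

end CM11
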