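import Pool.Agent.Lib.MP_34a732_nt.FA
import Pool.Agent.Lib.MP_0a3b9a_nt.F2

/-!
Module FB: the values at 27/16 = 4 z0 (1 - z0), 1 - 2 z0 = -r/4.
COPY of Pool/Agent/Lib/MP_0a3b9a_nt/F2.lean (F2_K, SS_one, SS_two) with the new constants: K at z0 ≡ (1-2z0) HH(z0) mod p² (M_z0').
p % 3 = 1: SS1 ≡ HH (A1_one), (1-2z0) SS2 ≡ (1-2z0) HH (J_one), cancel (1 - 2 z0 = -r/4 is a unit).
p % 3 = 2: HH ≡ (1-2z0) SS2 (A1_two), SS1 ≡ (1-2z0) HH (J_two); (1-2z0)² = -11/16.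
-/

namespace CM11
open SCong Finset Polynomial

variable {p : ℕ} [Fact p.Prime]

/-- the value of the polynomial `K` at `z0`. -/
theorem fb_K (hp : 11 < p) {r : ℚ_[p]} (hr : r ^ 2 = -11) :
    Cg p 2 ((1 - 2 * ((4 + r) / 8) ^ p) * HH p ((4 + r) / 8) -
      2 * p * ((4 + r) / 8) ^ p * (GG p ((4 + r) / 8) - fq p 27 * HH p ((4 + r) / 8)))
      (-r / 4 * HH p ((4 + r) / 8)) := by
  have hp5 : 5 ≤ p := by omega
  obtain ⟨ρ, hρ, hρ2⟩ := root_res hp hr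
  obtain ⟨r1, n1, r2, n2, n3⟩ := z0_res hp hρ hρ2
  obtain ⟨w, hw⟩ := r2.fermat n2
  rw [pow_one] at hw
  have hw' : ((4 + r) / 8 / 27) ^ (p - 1) = 1 + p * (w : ℚ_[p]) := by linear_combination hw
  obtain ⟨v, hv⟩ := M_z0' hp hr (In.coe w) hw'
  rw [pow_one, sub_zero] at hv
  have hF := fq_spec hp5 (a := 27) (fun hd => by
    have h3 : p ∣ 3 ^ 3 := by simpa using hd
    have := (Nat.prime_dvd_prime_iff_eq Fact.out Nat.prime_three).1 ((Fact.out : p.Prime).dvd_of_dvd_pow h3)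
    omega)
  have hF' : (27 : ℚ_[p]) ^ (p - 1) = 1 + p * (fq p 27 : ℚ_[p]) := by exact_mod_cast hF
  set z : ℚ_[p] := (4 + r) / 8 with hz
  have hzp : z ^ p = z * ((1 + p * (fq p 27 : ℚ_[p])) * (1 + p * (w : ℚ_[p]))) := by
    have e1 : z ^ p = z * z ^ (p - 1) := by
      rw [← pow_succ', Nat.sub_add_cancel (by omega)]
    have e2 : z ^ (p - 1) = (1 + p * (fq p 27 : ℚ_[p])) * (1 + p * (w : ℚ_[p])) := by
      rw [← hF', ← hw', ← mul_pow]; congr 1; field_simp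
    rw [e1, e2]
  have iz : In p z := r1.in
  have iH : In p (HH p z) := (HH_red hp5 r1).in
  have iG : In p (GG p z) := (GG_red hp5 r1).in
  set H := HH p z
  set G := GG p z
  set F : ℚ_[p] := (fq p 27 : ℚ_[p]) with hFd
  have iF : In p F := In.nat _
  have iw : In p (w : ℚ_[p]) := In.coe w
  have iv : In p (v : ℚ_[p]) := In.coe v
  have hin : In p (-2 * z * ((v : ℚ_[p]) + F * w * H + (F + w + p * F * w) * (G - F * H))) := by
    have i2 : In p (-2 : ℚ_[p]) := by exact_mod_cast In.int (-2)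
    exact (i2.mul iz).mul ((iv.add ((iF.mul iw).mul iH)).add
      (((iF.add iw).add (((In.nat p).mul iF).mul iw)).mul (iG.sub (iF.mul iH))))
  obtain ⟨u, hu⟩ := hin
  refine ⟨u, ?_⟩
  rw [hu, hzp]
  have hr2 : -r / 4 = 1 - 2 * z := by rw [hz]; ring
  rw [hr2]
  linear_combination (-2 * z * (p : ℚ_[p])) * hv

theorem fb_x {r : ℚ_[p]} (hr : r ^ 2 = -11) : 4 * ((4 + r) / 8) * (1 - (4 + r) / 8) = 27 / 16 := by
  linear_combination (-1 / 16 : ℚ_[p]) * hr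

theorem fb_w {r : ℚ_[p]} : 1 - 2 * ((4 + r) / 8) = -r / 4 := by ring

theorem SS_one' (hp : 11 < p) (h3 : p % 3 = 1) {r : ℚ_[p]} (hr : r ^ 2 = -11) :
    Cg p 2 (SS1 p (27 / 16)) (HH p ((4 + r) / 8)) ∧
      Cg p 2 (SS2 p (27 / 16)) (HH p ((4 + r) / 8)) := by
  have hp5 : 5 ≤ p := by omega
  obtain ⟨ρ, hρ, hρ2⟩ := root_res hp hr
  obtain ⟨r1, n1, r2, n2, n3⟩ := z0_res hp hρ hρ2
  have hA := A1_one hp5 h3 r1.in
  have hJ := J_one hp5 h3 r1.in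
  rw [fb_x hr] at hA hJ
  refine ⟨hA.symm, ?_⟩
  have hJ2 := hJ.trans (fb_K hp hr)
  rw [fb_w] at hJ2
  obtain ⟨e2, e3, e8, e27, e11⟩ := fa_units hp
  have e4 : (4 : ZMod p) ≠ 0 := by
    have : (4 : ZMod p) = 2 * 2 := by norm_num
    rw [this]; exact mul_ne_zero e2 e2
  have hρ0 : ρ ≠ 0 := by
    rintro rfl
    apply e11
    linear_combination hρ2
  have r5 : Rd p (-r / 4) (-ρ / 4) := by
    have := hρ.neg.div (Rd.nat (p := p) 4) (by exact_mod_cast e4)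
    exact_mod_cast this
  exact hJ2.cancel r5 (div_ne_zero (neg_ne_zero.2 hρ0) e4)

theorem SS_two' (hp : 11 < p) (h3 : p % 3 = 2) {r : ℚ_[p]} (hr : r ^ 2 = -11) :
    Cg p 2 (SS1 p (27 / 16)) (-r / 4 * HH p ((4 + r) / 8)) ∧
      Cg p 2 (SS1 p (27 / 16)) (-11 / 16 * SS2 p (27 / 16)) := by
  have hp5 : 5 ≤ p := by omega
  obtain ⟨ρ, hρ, hρ2⟩ := root_res hp hr
  obtain ⟨r1, n1, r2, n2, n3⟩ := z0_res hp hρ hρ2
  have hA := A1_two hp5 h3 r1.in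
  have hJ := J_two hp5 h3 r1.in
  rw [fb_x hr] at hA hJ
  rw [fb_w] at hA
  obtain ⟨e2, e3, e8, e27, e11⟩ := fa_units hp
  have e4 : (4 : ZMod p) ≠ 0 := by
    have : (4 : ZMod p) = 2 * 2 := by norm_num
    rw [this]; exact mul_ne_zero e2 e2
  have h1 : Cg p 2 (SS1 p (27 / 16)) (-r / 4 * HH p ((4 + r) / 8)) := hJ.trans (fb_K hp hr)
  refine ⟨h1, ?_⟩
  have i1 : In p (-r / 4) := by
    have := hρ.neg.div (Rd.nat (p := p) 4) (by exact_mod_cast e4)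
    exact_mod_cast this.in
  have h4 := hA.mul_left i1
  have e : -r / 4 * (-r / 4 * SS2 p (27 / 16)) = -11 / 16 * SS2 p (27 / 16) := by
    linear_combination (1 / 16 * SS2 p (27 / 16)) * hr
  rw [e] at h4
  exact h1.trans h4

end CM11
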