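import Pool.Agent.Lib.MP_34a732_nt.FDefs

/-!
Module FC: transfer lemmas.  COPIES of F3_S1, F3_S2, F3_root, F3_units, F3_alg, F3_leg, F3_Rc_unit (Pool/Agent/Lib/MP_0a3b9a_nt/F3.lean) with the new constants.
alg_two: r y + x = p u with u integral at p (Rd), so r = (p u - x)/y; r² = -11 gives 2 x u = 4 + p u² - ... : (pu - x)² = -11 y² = x² - 4p, so p u² - 2 x u = -4, 2 x u = 4 + p u².
-r/4 (x - p/x) + (1/4)(11 y - p/y) = [-(pu - x)(x - p/x) + 11 y² - p] / (4y) = [-p u x + p² u/x + x² - p + 11 y² - p]/(4y) = [2p - p u x + p² u / x]/(4y) (x² + 11y² = 4p) = p [2 - u x + p u/x]/(4y) = p² [u/x - u²/2]/(4y).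
leg_*: as F3_leg: the residue of -11 + x/y (Rat.cast in ZMod p); the factor jacobiSym x 11 is an integer.
R_unit: residues of R: p%3=1: x·(±1)(±1), p%3=2: 11y/4·(±1), nonzero; the symbol is not 0: (x/y)² = -11 in ZMod p, so -11 + s x/y = 0 with s = ±1 would give 121 = -11, 132 = 0, impossible for p > 11 (s² = 1 needs 11 ∤ x: 4p = x²+11y², p ≠ 11).
-/

namespace CM11
open SCong Finset Polynomial

variable {p : ℕ} [Fact p.Prime]

theorem fc_units (hp : 11 < p) : (2 : ZMod p) ≠ 0 ∧ (3 : ZMod p) ≠ 0 ∧ (4 : ZMod p) ≠ 0 ∧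
    (8 : ZMod p) ≠ 0 ∧ (11 : ZMod p) ≠ 0 := by
  obtain ⟨e2, e3⟩ := ne_of_five (p := p) (by omega)
  have e4 : (4 : ZMod p) ≠ 0 := by
    have : (4 : ZMod p) = 2 * 2 := by norm_num
    rw [this]; exact mul_ne_zero e2 e2
  have e8 : (8 : ZMod p) ≠ 0 := by
    have : (8 : ZMod p) = 2 * 2 * 2 := by norm_num
    rw [this]; exact mul_ne_zero (mul_ne_zero e2 e2) e2
  have e11 : (11 : ZMod p) ≠ 0 := by
    have := nat_ne_zero (p := p) (n := 11) (fun h => absurd (Nat.le_of_dvd (by norm_num) h) (by omega))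
    exact_mod_cast this
  exact ⟨e2, e3, e4, e8, e11⟩

theorem S1_cast : ((S1 p : ℚ) : ℚ_[p]) = SS1 p (27 / 16) := by
  unfold S1 SS1
  push_cast
  refine sum_congr rfl fun k _ => ?_
  rw [← Rat.cast_mul, F3_qb1]
  unfold s1
  push_cast
  rfl

theorem S2_cast : ((S2 p : ℚ) : ℚ_[p]) = SS2 p (27 / 16) := by
  unfold S2 SS2
  push_cast
  refine sum_congr rfl fun k _ => ?_
  rw [← Rat.cast_mul, F3_qb2]
  unfold s2
  push_cast
  rfl

theorem root_exists (hp : 11 < p) {ρ : ZMod p} (hρ : ρ ^ 2 = -11) :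
    ∃ r : ℚ_[p], r ^ 2 = -11 ∧ Rd p r ρ := by
  obtain ⟨hp2, e3, e4, e8, e11⟩ := fc_units hp
  have hρ0 : ρ ≠ 0 := by
    rintro rfl
    apply e11
    linear_combination hρ
  obtain ⟨a, ha⟩ := ZMod.ringHom_surjective (PadicInt.toZMod (p := p)) ρ
  have hF : ‖(X ^ 2 + 11 : ℤ_[p][X]).eval a‖ < 1 := by
    have h0 : PadicInt.toZMod ((X ^ 2 + 11 : ℤ_[p][X]).eval a) = 0 := by
      have : PadicInt.toZMod (11 : ℤ_[p]) = 11 := map_ofNat _ 11
      simp [ha, hρ, this]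
    have h1 := (toZMod_eq_zero _).1 h0
    obtain ⟨v, hv⟩ := h1
    rw [hv]
    exact (PadicInt.norm_lt_one_iff_dvd _).2 (Dvd.intro _ rfl)
  have hF' : ‖(X ^ 2 + 11 : ℤ_[p][X]).derivative.eval a‖ = 1 := by
    have h0 : PadicInt.toZMod ((X ^ 2 + 11 : ℤ_[p][X]).derivative.eval a) ≠ 0 := by
      have e1 : (X ^ 2 + 11 : ℤ_[p][X]).derivative.eval a = 2 * a := by
        have : (X ^ 2 + 11 : ℤ_[p][X]) = X ^ 2 + C 11 := by rw [map_ofNat]
        rw [this, derivative_add, derivative_C, derivative_X_sq]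
        simp
      rw [e1, map_mul, ha, map_ofNat]
      exact mul_ne_zero hp2 hρ0
    exact (Rd.coe (p := p) ((X ^ 2 + 11 : ℤ_[p][X]).derivative.eval a)).norm h0
  have hn : ‖(X ^ 2 + 11 : ℤ_[p][X]).aeval a‖ < ‖(X ^ 2 + 11 : ℤ_[p][X]).derivative.aeval a‖ ^ 2 := by
    rw [Polynomial.coe_aeval_eq_eval, hF', one_pow]; exact hF
  obtain ⟨z, hz1, hz2, -⟩ := hensels_lemma hn
  rw [Polynomial.coe_aeval_eq_eval, hF'] at hz2
  have hz3 : z ^ 2 = -11 := by
    rw [Polynomial.coe_aeval_eq_eval] at hz1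
    have : z ^ 2 + 11 = 0 := by simpa using hz1
    linear_combination this
  refine ⟨(z : ℚ_[p]), ?_, ?_⟩
  · have := congrArg (fun t : ℤ_[p] => (t : ℚ_[p])) hz3
    push_cast at this
    exact this
  · have h5 : PadicInt.toZMod z = ρ := by
      have h6 : PadicInt.toZMod (z - a) = 0 := by
        rw [toZMod_eq_zero]
        obtain ⟨v, hv⟩ := (PadicInt.norm_lt_one_iff_dvd _).1 hz2
        exact ⟨v, hv⟩
      rw [map_sub, ha] at h6
      exact sub_eq_zero.1 h6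
    rw [← h5]; exact Rd.coe z

theorem xy_units (hp : 11 < p) {x y : ℤ} (hxy : x ^ 2 + 11 * y ^ 2 = 4 * (p : ℤ)) :
    (x : ZMod p) ≠ 0 ∧ (y : ZMod p) ≠ 0 := by
  have hpr : Nat.Prime p := Fact.out
  have hpp : Prime (p : ℤ) := Nat.prime_iff_prime_int.1 hpr
  have hp0 : (0 : ℤ) < p := by exact_mod_cast hpr.pos
  have hp11 : (11 : ℤ) < p := by exact_mod_cast hp
  have key : ¬ ((p : ℤ) ∣ x ∧ (p : ℤ) ∣ y) := by
    rintro ⟨⟨a, ha⟩, ⟨b, hb⟩⟩
    rw [ha, hb] at hxy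
    have h1 : (p : ℤ) * (p * (a ^ 2 + 11 * b ^ 2)) = p * 4 := by linear_combination hxy
    have h3 := mul_left_cancel₀ hp0.ne' h1
    have h4 : (p : ℤ) ∣ 4 := ⟨_, h3.symm⟩
    have := Int.le_of_dvd (by norm_num) h4
    omega
  constructor
  · intro h
    have h1 : (p : ℤ) ∣ x := (ZMod.intCast_zmod_eq_zero_iff_dvd x p).1 h
    have h3 : (p : ℤ) ∣ 11 * y ^ 2 := by
      have : (11 * y ^ 2 : ℤ) = p * 4 - x ^ 2 := by linear_combination hxy
      rw [this]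
      exact dvd_sub (Dvd.intro _ rfl) (dvd_pow h1 two_ne_zero)
    rcases hpp.dvd_or_dvd h3 with h4 | h4
    · have : (p : ℤ) ≤ 11 := Int.le_of_dvd (by norm_num) h4
      omega
    · exact key ⟨h1, hpp.dvd_of_dvd_pow h4⟩
  · intro h
    have h1 : (p : ℤ) ∣ y := (ZMod.intCast_zmod_eq_zero_iff_dvd y p).1 h
    have h3 : (p : ℤ) ∣ x ^ 2 := by
      have : (x ^ 2 : ℤ) = p * 4 - 11 * y ^ 2 := by linear_combination hxy
      rw [this]
      exact dvd_sub (Dvd.intro _ rfl) ((dvd_pow h1 two_ne_zero).mul_left _)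
    exact key ⟨hpp.dvd_of_dvd_pow h3, h1⟩

theorem jac_sq (hp : 11 < p) {x y : ℤ} (hxy : x ^ 2 + 11 * y ^ 2 = 4 * (p : ℤ)) :
    (jacobiSym x 11) ^ 2 = 1 := by
  have hpr : Nat.Prime p := Fact.out
  apply jacobiSym.sq_one
  have h11 : Nat.Prime 11 := by norm_num
  rw [← Int.isCoprime_iff_gcd_eq_one]
  have hP : Prime (11 : ℤ) := by exact_mod_cast Nat.prime_iff_prime_int.1 h11
  refine ((Prime.coprime_iff_not_dvd hP).2 ?_).symm
  intro h
  have h1 : (11 : ℤ) ∣ 4 * p := by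
    rw [← hxy]
    exact dvd_add (dvd_pow h two_ne_zero) (Dvd.intro _ rfl)
  have h2 : 11 ∣ 4 * p := by exact_mod_cast h1
  rcases h11.dvd_mul.1 h2 with h3 | h3
  · omega
  · have := (Nat.prime_dvd_prime_iff_eq h11 hpr).1 h3
    omega

theorem alg_two (hp : 11 < p) {x y : ℤ} (hxy : x ^ 2 + 11 * y ^ 2 = 4 * (p : ℤ)) {r : ℚ_[p]}
    (hr : r ^ 2 = -11) (hρ : Rd p r (-(x : ZMod p) / y)) :
    Cg p 2 (-r / 4 * (x - p / x)) (-(1 / 4) * (11 * y - p / y)) := by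
  obtain ⟨hx0, hy0⟩ := xy_units hp hxy
  obtain ⟨e2, e3, e4, e8, e11⟩ := fc_units hp
  have hX : Rd p (x : ℚ_[p]) x := Rd.int x
  have hY : Rd p (y : ℚ_[p]) y := Rd.int y
  have hX0 := hX.ne_zero hx0
  have hY0 := hY.ne_zero hy0
  have h1 : Rd p (r * y + x) 0 := by
    have := (hρ.mul hY).add hX
    have e : -(x : ZMod p) / y * y + x = 0 := by field_simp; ring
    rwa [e] at this
  obtain ⟨u, hu⟩ := rd_zero_iff.1 h1
  rw [pow_one, sub_zero] at hu
  have hpc : (x : ℚ_[p]) ^ 2 + 11 * (y : ℚ_[p]) ^ 2 = 4 * p := by exact_mod_cast hxy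
  have e5 : 2 * (x : ℚ_[p]) * u = 4 + p * (u : ℚ_[p]) ^ 2 := by
    have e6 : (r * y) ^ 2 = (p * (u : ℚ_[p]) - x) ^ 2 := by rw [← hu]; ring
    have e7 : (p : ℚ_[p]) * (2 * x * u) = p * (4 + p * (u : ℚ_[p]) ^ 2) := by
      have : (r * y) ^ 2 = -11 * (y : ℚ_[p]) ^ 2 := by rw [mul_pow, hr]
      linear_combination e6 - this + hpc
    exact mul_left_cancel₀ pne e7
  have hin : In p (1 / (8 * (y : ℚ_[p])) * (2 * (u : ℚ_[p]) / x - (u : ℚ_[p]) ^ 2)) := by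
    have i1 : In p (1 / (8 * (y : ℚ_[p]))) := by
      have := (Rd.nat (p := p) 1).div ((Rd.nat (p := p) 8).mul hY) (mul_ne_zero (by exact_mod_cast e8) hy0)
      exact_mod_cast this.in
    have i2 : In p (2 * (u : ℚ_[p]) / x) := by
      have := ((Rd.nat (p := p) 2).mul (Rd.coe u)).div hX hx0
      exact_mod_cast this.in
    exact i1.mul (i2.sub ((In.coe u).pow 2))
  obtain ⟨v, hv⟩ := hin
  refine ⟨v, ?_⟩
  rw [hv]
  have hr' : r = (p * (u : ℚ_[p]) - x) / y := by rw [← hu]; field_simp; ring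
  rw [hr']
  field_simp
  linear_combination (-4 * (x : ℚ_[p]) * (p : ℚ_[p])) * e5 + 8 * (x : ℚ_[p]) * hpc

theorem leg_six (hp : 11 < p) : leg p 6 = quadraticChar (ZMod p) 6 := by
  unfold leg
  congr 1
  norm_num

theorem leg_one {x y : ℤ} (hy : (y : ZMod p) ≠ 0) :
    leg p (-11 + (x : ℚ) / y) = quadraticChar (ZMod p) (-11 + (x : ZMod p) / (y : ZMod p)) := by
  have hy' : y ≠ 0 := by rintro rfl; simp at hy
  have hden : ((((x : ℚ) / y)).den : ZMod p) ≠ 0 := by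
    intro h
    have h1 : p ∣ ((x : ℚ) / y).den := (ZMod.natCast_eq_zero_iff _ _).1 h
    have h2 : (((x : ℚ) / y).den : ℤ) ∣ y := by
      have := Rat.den_dvd x y
      rwa [Rat.divInt_eq_div] at this
    apply hy
    rw [ZMod.intCast_zmod_eq_zero_iff_dvd]
    exact (Int.natCast_dvd_natCast.2 h1).trans h2
  have hcast : ((((x : ℚ) / y : ℚ)) : ZMod p) = (x : ZMod p) / y := by
    rw [Rat.cast_div_of_ne_zero]
    · simp
    · simp
    · simpa using hy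
  have hm : (((-11 : ℚ)).den : ZMod p) ≠ 0 := by simp
  have c11 : ((11 : ℚ) : ZMod p) = 11 := by norm_num
  have cm : ((-11 : ℚ) : ZMod p) = -11 := by
    rw [Rat.cast_neg]; rw [c11]
  unfold leg
  rw [Rat.cast_add_of_ne_zero hm hden, hcast, cm]

theorem leg_two {x y s : ℤ} (hy : (y : ZMod p) ≠ 0) :
    leg p (-11 + (s : ℚ) * (x : ℚ) / y) =
      quadraticChar (ZMod p) (-11 + (s : ZMod p) * (x : ZMod p) / (y : ZMod p)) := by
  have := leg_one (p := p) (x := s * x) hy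
  push_cast at this
  exact this

theorem eps_one (h3 : p % 3 = 1) : eps p = 1 := by
  have h : jacobiSym (p : ℤ) 3 = 1 := by
    rw [jacobiSym.mod_left]
    have : ((p : ℤ) % ((3 : ℕ) : ℤ)) = 1 := by omega
    rw [this]
    exact jacobiSym.one_left 3
  unfold eps
  rw [h]
  norm_num

theorem eps_two (h3 : p % 3 = 2) : eps p = -11 / 16 := by
  have h : jacobiSym (p : ℤ) 3 = -1 := by
    rw [jacobiSym.mod_left]
    have : ((p : ℤ) % ((3 : ℕ) : ℤ)) = 2 := by omega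
    rw [this, jacobiSym.at_two (by decide : Odd 3)]
    decide
  have e : ((1 - (-1 : ℤ)) / 2) = 1 := by decide
  unfold eps
  rw [h, e, zpow_one]

theorem fc_ne (hp : 11 < p) {x y s : ℤ} (hxy : x ^ 2 + 11 * y ^ 2 = 4 * (p : ℤ)) (hs : s ^ 2 = 1) :
    (-11 + (s : ZMod p) * (x : ZMod p) / (y : ZMod p)) ≠ 0 := by
  obtain ⟨hx0, hy0⟩ := xy_units hp hxy
  obtain ⟨e2, e3, e4, e8, e11⟩ := fc_units hp
  intro h
  have hs' : (s : ZMod p) ^ 2 = 1 := by exact_mod_cast congrArg (fun t : ℤ => (t : ZMod p)) hs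
  have h0 : (x : ZMod p) ^ 2 + 11 * (y : ZMod p) ^ 2 = 0 := by
    have := congrArg (fun t : ℤ => (t : ZMod p)) hxy
    push_cast at this
    rw [this]; simp
  have h1 : (s : ZMod p) * x = 11 * y := by
    field_simp at h
    linear_combination h
  have h2 : (y : ZMod p) ^ 2 * (11 * (3 * 4)) = 0 := by
    linear_combination h0 + (x : ZMod p) ^ 2 * hs' - (s * x + 11 * y : ZMod p) * h1
  rcases mul_eq_zero.1 h2 with h3 | h3
  · exact pow_ne_zero 2 hy0 h3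
  · exact mul_ne_zero e11 (mul_ne_zero e3 e4) h3

theorem R_unit (hp : 11 < p) (h3 : p % 3 = 1 ∨ p % 3 = 2) {x y : ℤ}
    (hxy : x ^ 2 + 11 * y ^ 2 = 4 * (p : ℤ)) :
    ∃ a : ZMod p, a ≠ 0 ∧ Rd p ((R p x y : ℚ) : ℚ_[p]) a := by
  obtain ⟨hx0, hy0⟩ := xy_units hp hxy
  obtain ⟨e2, e3, e4, e8, e11⟩ := fc_units hp
  have hX : Rd p (x : ℚ_[p]) x := Rd.int x
  have hY : Rd p (y : ℚ_[p]) y := Rd.int y
  have hP : Rd p (p : ℚ_[p]) 0 := by
    have := Rd.nat (p := p) p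
    rwa [ZMod.natCast_self] at this
  have hj := jac_sq hp hxy
  have hj' : ((jacobiSym x 11 : ℤ) : ZMod p) ≠ 0 := by
    intro h0
    have := congrArg (fun t : ℤ => (t : ZMod p)) hj
    simp [h0] at this
  rcases h3 with h3 | h3
  · have r1 : Rd p ((x : ℚ_[p]) - p / x) (x - 0 / x) := hX.sub (hP.div hX hx0)
    rw [zero_div, sub_zero] at r1
    have r3 : Rd p ((leg p (-11 + (x : ℚ) / y) : ℤ) : ℚ_[p]) ((leg p (-11 + (x : ℚ) / y) : ℤ) : ZMod p) :=
      Rd.int _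
    have r4 : Rd p ((jacobiSym x 11 : ℤ) : ℚ_[p]) ((jacobiSym x 11 : ℤ) : ZMod p) := Rd.int _
    refine ⟨-((leg p (-11 + (x : ℚ) / y) : ℤ) : ZMod p) * ((jacobiSym x 11 : ℤ) : ZMod p) * x, ?_, ?_⟩
    rotate_left
    · unfold R
      rw [if_pos h3]
      push_cast
      exact (r3.neg.mul r4).mul r1
    · refine mul_ne_zero (mul_ne_zero (neg_ne_zero.2 ?_) hj') hx0
      rw [leg_one hy0]
      have hn := fc_ne (s := 1) hp hxy (by norm_num)
      rw [Int.cast_one, one_mul] at hn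
      rcases quadraticChar_dichotomy hn with h | h <;> rw [h] <;> simp
  · have r1 : Rd p (11 * (y : ℚ_[p]) - p / y) (11 * y - 0 / y) := by
      have e1 : Rd p (11 * (y : ℚ_[p])) (11 * y) := by exact_mod_cast (Rd.nat (p := p) 11).mul hY
      exact e1.sub (hP.div hY hy0)
    rw [zero_div, sub_zero] at r1
    have r0 : Rd p (1 / 4 : ℚ_[p]) (1 / 4) := by
      have := (Rd.nat (p := p) 1).div (Rd.nat (p := p) 4) (by exact_mod_cast e4)
      exact_mod_cast this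
    have r3 : Rd p ((leg p (-11 + (jacobiSym x 11 : ℚ) * (x : ℚ) / y) : ℤ) : ℚ_[p])
      ((leg p (-11 + (jacobiSym x 11 : ℚ) * (x : ℚ) / y) : ℤ) : ZMod p) := Rd.int _
    refine ⟨-(1 / 4) * ((leg p (-11 + (jacobiSym x 11 : ℚ) * (x : ℚ) / y) : ℤ) : ZMod p) *
      (11 * y), ?_, ?_⟩
    rotate_left
    · unfold R
      rw [if_neg (by omega)]
      push_cast
      exact (r0.neg.mul r3).mul r1
    · refine mul_ne_zero (mul_ne_zero (neg_ne_zero.2 (one_div_ne_zero e4)) ?_) (mul_ne_zero e11 hy0)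
      rw [leg_two hy0]
      rcases quadraticChar_dichotomy (fc_ne hp hxy hj) with h | h <;> rw [h] <;> simp

end CM11
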