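import Pool.Agent.Lib.MP_34a732_nt.FDefs

/-!
Module FD: S_2(p) ≡ T2(p) mod p for p ≡ 2 mod 3.
PROOF.  n = (p-2)/3, m = (p-5)/6 (p ≡ 5 mod 6 since p is odd and ≡ 2 mod 3): n ≡ -2/3, m ≡ -5/6 mod p.  For k < p: qbinom (-2/3) k ≡ qbinom n k = choose n k mod p (k! is a unit; product of congruent factors: -2/3 - i = n - i - p/3, and
qbinom (n : ℚ) k = choose n k, for instance Ring.choose / Nat.cast_choose_eq_ascPochhammer / descFactorial), the same with m.  So every term of S2 with k < p is congruent to choose n k choose m k (27/16)^k, and these vanish for k > m; m + 1 ≤ p.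
Work with Cg p 1 in ℚ_[p] (Cg.sum, Cg.mul, Cg.prod, In ...; F3_cong_iff).
-/

namespace CM11
open SCong Finset Polynomial

variable {p : ℕ} [Fact p.Prime]

/-- a binomial coefficient of `a` is the binomial coefficient of the natural number `n ≡ a`. -/
theorem fd_binom {a : ℚ} {n k : ℕ} (hk : k < p) (h : Cg p 1 ((a : ℚ_[p])) (n : ℚ_[p])) :
    Cg p 1 ((qbinom a k : ℚ) : ℚ_[p]) ((n.choose k : ℕ) : ℚ_[p]) := by
  have ia : In p (a : ℚ_[p]) := h.in (In.nat n)
  have h1 : Cg p 1 (∏ i ∈ range k, ((a : ℚ_[p]) - i)) (∏ i ∈ range k, ((n : ℚ_[p]) - i)) := by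
    exact Cg.prod (fun i _ => ia.sub (In.nat i)) (fun i _ => h.sub (Cg.refl 1 _))
  have h2 : (∏ i ∈ range k, ((n : ℚ_[p]) - i)) = (k.factorial : ℚ_[p]) * (n.choose k : ℚ_[p]) := by
    rw [← descPochhammer_eval_eq_prod_range, descPochhammer_eval_eq_descFactorial,
      Nat.descFactorial_eq_factorial_mul_choose]
    push_cast
    ring
  have hf : (k.factorial : ℚ_[p]) ≠ 0 := by exact_mod_cast k.factorial_ne_zero
  have h3 : (k.factorial : ℚ_[p]) * ((qbinom a k : ℚ) : ℚ_[p]) = ∏ i ∈ range k, ((a : ℚ_[p]) - i) := by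
    unfold qbinom
    push_cast
    field_simp
  rw [← h3, h2] at h1
  refine h1.cancel (Rd.nat k.factorial) (nat_ne_zero ?_)
  rw [(Fact.out : p.Prime).dvd_factorial]
  omega

theorem S2_T2 (hp : 11 < p) (h3 : p % 3 = 2) :
    Cg p 1 ((S2 p : ℚ) : ℚ_[p]) ((T2 p : ℚ) : ℚ_[p]) := by
  have hpr : Nat.Prime p := Fact.out
  obtain ⟨e2, e3⟩ := ne_of_five (p := p) (by omega)
  have hodd : p % 2 = 1 := by
    rcases hpr.eq_two_or_odd with h | h
    · omega
    · exact h
  have n3 : ¬ p ∣ 3 := fun h => absurd (Nat.le_of_dvd (by norm_num) h) (by omega)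
  have n6 : ¬ p ∣ 6 := fun h => absurd (Nat.le_of_dvd (by norm_num) h) (by omega)
  have n16 : ¬ p ∣ 16 := by
    intro h
    have h2 : p ∣ 2 ^ 4 := by simpa using h
    have := (Nat.prime_dvd_prime_iff_eq hpr Nat.prime_two).1 (hpr.dvd_of_dvd_pow h2)
    omega
  have i3 := In.inv_nat n3
  have i6 := In.inv_nat n6
  have hn : Cg p 1 (((-2 / 3 : ℚ)) : ℚ_[p]) (((p - 2) / 3 : ℕ) : ℚ_[p]) := by
    obtain ⟨w, hw⟩ := i3.neg
    refine ⟨w, ?_⟩
    have e : 3 * ((p - 2) / 3) + 2 = p := by omega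
    have e' : 3 * (((p - 2) / 3 : ℕ) : ℚ_[p]) + 2 = p := by exact_mod_cast e
    rw [hw, pow_one]
    push_cast
    have h30 : (3 : ℚ_[p]) ≠ 0 := by norm_num
    field_simp
    linear_combination -e'
  have hm : Cg p 1 (((-5 / 6 : ℚ)) : ℚ_[p]) (((p - 5) / 6 : ℕ) : ℚ_[p]) := by
    obtain ⟨w, hw⟩ := i6.neg
    refine ⟨w, ?_⟩
    have e : 6 * ((p - 5) / 6) + 5 = p := by omega
    have e' : 6 * (((p - 5) / 6 : ℕ) : ℚ_[p]) + 5 = p := by exact_mod_cast e
    rw [hw, pow_one]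
    push_cast
    have h60 : (6 : ℚ_[p]) ≠ 0 := by norm_num
    field_simp
    linear_combination -e'
  have ix : In p (((27 / 16 : ℚ)) : ℚ_[p]) := by
    have := (In.nat (p := p) 27).div_nat n16
    push_cast at this ⊢
    exact this
  -- the sum over all k < p
  have h1 : Cg p 1 ((S2 p : ℚ) : ℚ_[p])
      (∑ k ∈ range p, (((p - 2) / 3).choose k : ℚ_[p]) * (((p - 5) / 6).choose k : ℚ_[p]) *
        ((27 / 16 : ℚ) : ℚ_[p]) ^ k) := by
    unfold S2
    rw [Rat.cast_sum]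
    refine Cg.sum fun k hk => ?_
    have hk' := mem_range.1 hk
    rw [Rat.cast_mul, Rat.cast_mul, Rat.cast_pow]
    refine Cg.mul_right (ix.pow k) ?_
    have b1 := fd_binom hk' hn
    have b2 := fd_binom hk' hm
    exact b1.mul b2 (b2.in (In.nat _)) (In.nat _)
  refine h1.trans (Cg.of_eq ?_)
  unfold T2
  rw [Rat.cast_sum]
  symm
  have hsub : range ((p - 5) / 6 + 1) ⊆ range p := by
    intro k hk
    rw [mem_range] at hk ⊢
    omega
  rw [← sum_subset hsub]
  · refine sum_congr rfl fun k _ => ?_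
    push_cast
    rfl
  · intro k _ hk
    rw [mem_range, not_lt] at hk
    rw [Nat.choose_eq_zero_of_lt (n := (p - 5) / 6) (by omega)]
    simp

end CM11
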