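import Pool.Agent.Lib.MP_0a3b9a_nt.F3

/-!
Definitions of the final statement (sums, right-hand sides), for MP_34a732_nt.
-/

namespace CM11
open SCong Finset

/-- The sum `S_1(p)`. -/
def S1 (p : ℕ) : ℚ :=
  ∑ k ∈ Finset.range p, qbinom (-1/3) k * qbinom (-1/6) k * (27/16 : ℚ) ^ k

/-- The sum `S_2(p)`. -/
def S2 (p : ℕ) : ℚ :=
  ∑ k ∈ Finset.range p, qbinom (-2/3) k * qbinom (-5/6) k * (27/16 : ℚ) ^ k

/-- The factor `(-11/16)^((1-(p/3))/2)`. -/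
def eps (p : ℕ) : ℚ := (-11 / 16 : ℚ) ^ ((1 - jacobiSym (p : ℤ) 3) / 2)

/-- The displayed right-hand side, for a chosen representation `4p = x^2 + 11 y^2`. -/
def R (p : ℕ) [Fact p.Prime] (x y : ℤ) : ℚ :=
  if p % 3 = 1 then
    -(leg p (-11 + (x : ℚ) / y) : ℚ) * (jacobiSym x 11 : ℚ) * ((x : ℚ) - (p : ℚ) / x)
  else
    -(1 / 4) * (leg p (-11 + (jacobiSym x 11 : ℚ) * (x : ℚ) / y) : ℚ) *
      (11 * (y : ℚ) - (p : ℚ) / y)

/-- the finite sum of the last display -/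
def T2 (p : ℕ) : ℚ :=
  ∑ k ∈ Finset.range ((p - 5) / 6 + 1),
    (((p - 2) / 3).choose k : ℚ) * (((p - 5) / 6).choose k : ℚ) * (27/16 : ℚ) ^ k

end CM11
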