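import Pool.Agent.Lib.MP_34a732_nt.R2

/-!
Module R3: the sign in terms of x and y.
PROOF.  -11 + s x/y = 2m/y with m = (s x - 11 y)/2 (an integer, x ≡ y mod 2) and p = m^2 + 11 m y + 33 y^2.  quadraticChar(6) quadraticChar(2m/y) = quadraticChar(12 m y / y^2) = quadraticChar(3 m y) (y ≠ 0 mod p, as 11 y^2 ≤ 4p, y ≠ 0... p does not divide y;
if y = 0 then 4p = x^2 impossible), = jacobiSym (3my) p (quadraticChar and legendreSym) = jacobiSym (p m) 3 * jacobiSym m 11 (recip).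
p % 3 = 1, s = 1: jacobiSym (p m) 3 = jacobiSym m 3 ≡ m ≡ -(x - 11 y) ≡ -(x+y) ≡ ε (mod 3) (2m = x - 11y, so m ≡ -(2m) ≡ ..), m is not divisible by 3 (p ≡ m^2 + 2my), so jacobiSym (pm) 3 = ε.
jacobiSym m 11 = -jacobiSym (2m) 11 = -jacobiSym x 11.  So q6·leg = -ε (x/11).
p % 3 = 2: 3 | x (4p = x^2+11y^2 mod 3), s = jacobiSym x 11 = ±1 (11 does not divide x), jacobiSym m 11 = -jacobiSym (s x) 11 = -s·s = -1 (jacobiSym (-1) 11 = -1), jacobiSym (p m) 3 = -jacobiSym m 3, m ≡ -(s x + y) ≡ -y mod 3, ε ≡ -(x+y) ≡ -y: jacobiSym m 3 = ε; q6·leg = (-ε)(-1) = ε.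
-/

set_option autoImplicit false

namespace CM11

variable {p : ℕ} [Fact p.Prime]

/-- `y` is a unit modulo `p` -/
theorem r3_y (hp : 11 < p) {x y : ℤ} (hxy : x ^ 2 + 11 * y ^ 2 = 4 * (p : ℤ)) :
    (y : ZMod p) ≠ 0 := by
  have hpp : p.Prime := Fact.out
  intro h0
  rw [ZMod.intCast_zmod_eq_zero_iff_dvd] at h0
  obtain ⟨k, hk⟩ := h0
  have hk0 : k = 0 := by
    by_contra hne
    have h1 : 1 ≤ k ^ 2 := by
      have : 0 < k ^ 2 := by positivity
      omega
    have h2 : (p : ℤ) ^ 2 ≤ y ^ 2 := by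
      rw [hk, mul_pow]
      nlinarith [sq_nonneg (p : ℤ)]
    have h3 : (12 : ℤ) ≤ p := by exact_mod_cast hp
    nlinarith [sq_nonneg x]
  have hy0 : y = 0 := by rw [hk, hk0, mul_zero]
  rw [hy0] at hxy
  have h4 : x ^ 2 = 4 * (p : ℤ) := by linarith
  have h5 : (2 : ℤ) ∣ x := by
    have : (2 : ℤ) ∣ x ^ 2 := ⟨2 * p, by rw [h4]; ring⟩
    exact Int.prime_two.dvd_of_dvd_pow this
  obtain ⟨c, hc⟩ := h5
  have h6 : c ^ 2 = (p : ℤ) := by
    rw [hc] at h4
    linarith [h4, (by ring : (2 * c) ^ 2 = 4 * c ^ 2)]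
  have h7 : c.natAbs ^ 2 = p := by
    have h8 : ((c.natAbs ^ 2 : ℕ) : ℤ) = (p : ℤ) := by
      push_cast
      rw [sq_abs]
      exact h6
    exact_mod_cast h8
  exact Nat.Prime.not_prime_pow (n := 2) le_rfl (h7.symm ▸ hpp)

/-- the product of the two characters -/
theorem r3_main (hp : 11 < p) {x y s m : ℤ} (hs : s = 1 ∨ s = -1)
    (hxy : x ^ 2 + 11 * y ^ 2 = 4 * (p : ℤ)) (hm : 2 * m = s * x - 11 * y) :
    quadraticChar (ZMod p) 6 *
      quadraticChar (ZMod p) (-11 + ((s : ℤ) : ZMod p) * (x : ZMod p) / (y : ZMod p)) =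
      jacobiSym (p * m) 3 * jacobiSym m 11 := by
  have hy := r3_y hp hxy
  have hs2 : s ^ 2 = 1 := by rcases hs with rfl | rfl <;> norm_num
  have hform : (p : ℤ) = m ^ 2 + 11 * m * y + 33 * y ^ 2 := by
    have h1 : 4 * (p : ℤ) = 4 * (m ^ 2 + 11 * m * y + 33 * y ^ 2) := by
      have h2 : 4 * (m ^ 2 + 11 * m * y + 33 * y ^ 2) =
          (2 * m) ^ 2 + 22 * (2 * m) * y + 132 * y ^ 2 := by ring
      rw [h2, hm, ← hxy]
      have h3 : (s * x - 11 * y) ^ 2 + 22 * (s * x - 11 * y) * y + 132 * y ^ 2 =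
          s ^ 2 * x ^ 2 + 11 * y ^ 2 := by ring
      rw [h3, hs2, one_mul]
    linarith
  rw [← recip hp hform, ← jacobiSym.legendreSym.to_jacobiSym]
  unfold legendreSym
  rw [← map_mul]
  have h2 : (2 : ZMod p) ≠ 0 := by
    intro h0
    have h1 : ((2 : ℕ) : ZMod p) = 0 := by exact_mod_cast h0
    rw [ZMod.natCast_eq_zero_iff] at h1
    have := Nat.le_of_dvd (by norm_num) h1
    omega
  have hmZ : (2 : ZMod p) * (m : ZMod p) = (s : ZMod p) * (x : ZMod p) - 11 * (y : ZMod p) := by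
    exact_mod_cast congrArg (Int.cast : ℤ → ZMod p) hm
  have h3 : (6 : ZMod p) * (-11 + (s : ZMod p) * (x : ZMod p) / (y : ZMod p)) =
      ((3 * m * y : ℤ) : ZMod p) * (2 / (y : ZMod p)) ^ 2 := by
    push_cast
    field_simp
    rw [show (-(11 * (y : ZMod p)) + (s : ZMod p) * (x : ZMod p)) =
      2 * (m : ZMod p) by rw [hmZ]; ring]
    ring
  rw [h3, map_mul, map_pow, quadraticChar_sq_one (div_ne_zero h2 hy), mul_one]

theorem r3_j3 {m ε : ℤ} (hε : ε = 1 ∨ ε = -1) (h : 3 ∣ m - ε) : jacobiSym m 3 = ε := by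
  have h1 : jacobiSym m 3 = jacobiSym ε 3 := by
    apply jacobiSym.mod_left'
    push_cast
    omega
  rw [h1]
  rcases hε with rfl | rfl
  · exact jacobiSym.one_left 3
  · decide +kernel

theorem r3_j11 {m x s y : ℤ} (hm : 2 * m = s * x - 11 * y) :
    jacobiSym m 11 = -(jacobiSym s 11 * jacobiSym x 11) := by
  have h1 : jacobiSym (2 * m) 11 = jacobiSym (s * x) 11 := by
    apply jacobiSym.mod_left'
    push_cast
    omega
  have e11 : jacobiSym 2 11 = -1 := by decide +kernel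
  rw [jacobiSym.mul_left, jacobiSym.mul_left, e11] at h1
  linarith

theorem r3_x (hp : 11 < p) {x y : ℤ} (hxy : x ^ 2 + 11 * y ^ 2 = 4 * (p : ℤ)) :
    jacobiSym x 11 = 1 ∨ jacobiSym x 11 = -1 := by
  have hpp : p.Prime := Fact.out
  apply jacobiSym.eq_one_or_neg_one
  rw [← Int.isCoprime_iff_gcd_eq_one]
  have h11 : Prime (11 : ℤ) := by
    have : Nat.Prime 11 := by norm_num
    exact_mod_cast Nat.prime_iff_prime_int.1 this
  have hcop : IsCoprime (11 : ℤ) x := by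
    rw [Prime.coprime_iff_not_dvd h11]
    intro hd
    obtain ⟨k, hk⟩ := hd
    have h1 : (11 : ℤ) ∣ 4 * (p : ℤ) := ⟨11 * k ^ 2 + y ^ 2, by rw [← hxy, hk]; ring⟩
    rcases h11.dvd_or_dvd h1 with h2 | h2
    · norm_num at h2
    · have h3 : 11 ∣ p := by exact_mod_cast h2
      have h4 := (Nat.dvd_prime hpp).1 h3
      omega
  exact hcop.symm

/-- first case -/
theorem sign_one (hp : 11 < p) (h3 : p % 3 = 1) {x y ε : ℤ}
    (hxy : x ^ 2 + 11 * y ^ 2 = 4 * (p : ℤ)) (hε : ε = 1 ∨ ε = -1) (h : 3 ∣ ε + (x + y)) :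
    ε = -(quadraticChar (ZMod p) 6 *
      quadraticChar (ZMod p) (-11 + (x : ZMod p) / (y : ZMod p)) * jacobiSym x 11) := by
  have hpar : (x - 11 * y) % 2 = 0 := by
    have h1 : (x ^ 2 + 11 * y ^ 2) % 2 = 0 := by rw [hxy]; omega
    rcases Int.even_or_odd' x with ⟨a, ha | ha⟩ <;> rcases Int.even_or_odd' y with ⟨b, hb | hb⟩
    · omega
    · exfalso
      rw [ha, hb] at h1
      ring_nf at h1
      omega
    · exfalso
      rw [ha, hb] at h1
      ring_nf at h1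
      omega
    · omega
  obtain ⟨m, hm⟩ : ∃ m, 2 * m = x - 11 * y := ⟨(x - 11 * y) / 2, by omega⟩
  have hm1 : 2 * m = 1 * x - 11 * y := by rw [one_mul]; exact hm
  have hmain := r3_main hp (Or.inl rfl) hxy hm1
  rw [Int.cast_one, one_mul] at hmain
  have hj := r3_j11 hm1
  rw [jacobiSym.one_left, one_mul] at hj
  have hp3 : jacobiSym p 3 = 1 := by
    have h1 : jacobiSym p 3 = jacobiSym 1 3 := by
      apply jacobiSym.mod_left'
      push_cast
      omega
    rw [h1, jacobiSym.one_left]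
  have hm3 : jacobiSym m 3 = ε := r3_j3 hε (by omega)
  rw [hmain, jacobiSym.mul_left, hp3, hm3, hj]
  rcases r3_x hp hxy with h1 | h1 <;> rw [h1] <;> ring

/-- second case -/
theorem sign_two (hp : 11 < p) (h3 : p % 3 = 2) {x y ε : ℤ}
    (hxy : x ^ 2 + 11 * y ^ 2 = 4 * (p : ℤ)) (hε : ε = 1 ∨ ε = -1) (h : 3 ∣ ε + (x + y)) :
    ε = quadraticChar (ZMod p) 6 *
      quadraticChar (ZMod p) (-11 + ((jacobiSym x 11 : ℤ) : ZMod p) * (x : ZMod p) / (y : ZMod p)) := by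
  have hs := r3_x hp hxy
  obtain ⟨s, hsd⟩ : ∃ s, s = jacobiSym x 11 := ⟨_, rfl⟩
  rw [← hsd] at hs ⊢
  have hpar : (x - 11 * y) % 2 = 0 := by
    have h1 : (x ^ 2 + 11 * y ^ 2) % 2 = 0 := by rw [hxy]; omega
    rcases Int.even_or_odd' x with ⟨a, ha | ha⟩ <;> rcases Int.even_or_odd' y with ⟨b, hb | hb⟩
    · omega
    · exfalso
      rw [ha, hb] at h1
      ring_nf at h1
      omega
    · exfalso
      rw [ha, hb] at h1
      ring_nf at h1
      omega
    · omega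
  obtain ⟨m, hm⟩ : ∃ m, 2 * m = s * x - 11 * y := by
    rcases hs with h1 | h1
    · exact ⟨(x - 11 * y) / 2, by rw [h1]; omega⟩
    · exact ⟨(-x - 11 * y) / 2, by rw [h1]; omega⟩
  rw [r3_main hp hs hxy hm, jacobiSym.mul_left, r3_j11 hm, ← hsd]
  have hss : jacobiSym s 11 = s := by
    rcases hs with h1 | h1 <;> rw [h1]
    · exact jacobiSym.one_left 11
    · decide +kernel
  have hp3 : jacobiSym p 3 = -1 := by
    have h1 : jacobiSym p 3 = jacobiSym 2 3 := by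
      apply jacobiSym.mod_left'
      push_cast
      omega
    rw [h1]
    decide +kernel
  have hx3 : x % 3 = 0 := by
    have h1 : (x ^ 2 + 11 * y ^ 2) % 3 = 2 := by rw [hxy]; omega
    have hx : x % 3 = 0 ∨ x % 3 = 1 ∨ x % 3 = 2 := by omega
    have hy : y % 3 = 0 ∨ y % 3 = 1 ∨ y % 3 = 2 := by omega
    rcases hx with hx | hx | hx
    · exact hx
    all_goals
      exfalso
      rcases hy with hy | hy | hy <;>
        simp [pow_two, Int.add_emod, Int.mul_emod, hx, hy] at h1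
  have hm3 : jacobiSym m 3 = ε := by
    apply r3_j3 hε
    rcases hs with h1 | h1 <;> rw [h1] at hm <;> omega
  have hs2 : s * s = 1 := by rcases hs with h1 | h1 <;> rw [h1] <;> norm_num
  rw [hss, hp3, hm3, hs2]
  ring

end CM11
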