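import Mathlib

/-!
Module X1: existence of the representation 4p = x^2 + 11 y^2.
PROOF.  (p/11) = 1 and reciprocity: (-11/p) = (p/11) = 1 (p odd; 11 ≡ 3 mod 4: quadratic_reciprocity / jacobiSym), so r^2 = -11 in ZMod p.
Thue: there are integers u, v, not both 0, |u|, |v| ≤ √p with u ≡ c v mod p, where c = (r-1)/2, c^2 + c + 3 = 0 in ZMod p, so u^2 + u v + 3 v^2... take the form F(m,n) = m^2 + mn + 3n^2 and m ≡ c n:
p | m^2 - ... choose the sign so that F(m,n) ≡ 0 mod p (c' = -(1+r)/2 satisfies c'^2 + c' + 3 = 0).  0 < F(m,n) < 5p (|m|,|n| < √p, F ≤ m^2+|mn|+3n^2), so F(m,n) = k p, k in {1,2,3,4}.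
Mathlib may have Thue's lemma; otherwise pigeonhole on pairs (m,n) in [0, √p]^2 (see also Pool/Agent/Lib/MP_0a3b9a_nt/X1.lean, X2.lean, where p = c^2+2d^2 is done by the same method).
k = 1: done, 4p = (2m+n)^2 + 11 n^2.  k = 2: F(m,n) even forces m, n even (F is m^2+mn+n^2 mod 2), then 4 | 2p, impossible.  k = 4: m, n even, divide by 2.
k = 3: m^2 + mn ≡ 0 mod 3 so 3 | m or 3 | m + n.  If m = 3 m1: p = 3 m1^2 + m1 n + n^2 = F(n, m1).  If m = 3 m1 - n: F(m,n) = m(m+n) + 3n^2 = 3 m1 (3 m1 - n) + 3 n^2, p = 3 m1^2 - m1 n + n^2 = F(n, -m1).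
-/

set_option autoImplicit false

namespace CM11

/-- the pigeonhole argument of Thue -/
theorem x1_thue {p : ℕ} [Fact p.Prime] (c : ZMod p) :
    ∃ u v : ℤ, (u ≠ 0 ∨ v ≠ 0) ∧ u ^ 2 < p ∧ v ^ 2 < p ∧ (u : ZMod p) = c * (v : ZMod p) := by
  have hpp : p.Prime := Fact.out
  set k := Nat.sqrt p with hk
  have hk1 : k * k ≤ p := Nat.sqrt_le p
  have hk2 : p < (k + 1) * (k + 1) := Nat.lt_succ_sqrt p
  have hk3 : k * k ≠ p := by
    intro h
    rcases (Nat.dvd_prime hpp).1 (Dvd.intro k h) with h1 | h1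
    · rw [h1] at h
      exact hpp.one_lt.ne h
    · rw [h1] at h
      nlinarith [hpp.two_le]
  have hcard : Fintype.card (ZMod p) < Fintype.card (Fin (k + 1) × Fin (k + 1)) := by
    rw [ZMod.card, Fintype.card_prod, Fintype.card_fin]
    exact hk2
  obtain ⟨⟨m1, n1⟩, ⟨m2, n2⟩, hne, heq⟩ := Fintype.exists_ne_map_eq_of_card_lt
    (fun x : Fin (k + 1) × Fin (k + 1) => ((x.1 : ℕ) : ZMod p) - c * ((x.2 : ℕ) : ZMod p)) hcard
  simp only at heq
  have hb : ∀ a b : Fin (k + 1), (((a : ℕ) : ℤ) - ((b : ℕ) : ℤ)) ^ 2 < p := by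
    intro a b
    have ha : ((a : ℕ) : ℤ) ≤ k := by
      have := a.2
      omega
    have hb' : ((b : ℕ) : ℤ) ≤ k := by
      have := b.2
      omega
    have h1 : (((a : ℕ) : ℤ) - ((b : ℕ) : ℤ)) ^ 2 ≤ (k : ℤ) ^ 2 := by
      apply sq_le_sq'
      · have : (0 : ℤ) ≤ ((a : ℕ) : ℤ) := by positivity
        linarith
      · have : (0 : ℤ) ≤ ((b : ℕ) : ℤ) := by positivity
        linarith
    have h2 : k * k < p := lt_of_le_of_ne hk1 hk3
    have h3 : (k : ℤ) ^ 2 < p := by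
      rw [pow_two]
      exact_mod_cast h2
    linarith
  refine ⟨((m1 : ℕ) : ℤ) - ((m2 : ℕ) : ℤ), ((n1 : ℕ) : ℤ) - ((n2 : ℕ) : ℤ), ?_, hb _ _, hb _ _, ?_⟩
  · by_contra hcon
    push Not at hcon
    apply hne
    rw [Prod.mk.injEq]
    exact ⟨Fin.ext (by omega), Fin.ext (by omega)⟩
  · push_cast
    linear_combination heq

/-- `-11` is a square modulo `p` -/
theorem x1_square {p : ℕ} [Fact p.Prime] (hp : 11 < p) (h : jacobiSym p 11 = 1) :
    IsSquare (-11 : ZMod p) := by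
  have hpp : p.Prime := Fact.out
  have hodd : Odd p := hpp.odd_of_ne_two (by omega)
  have hodd' : p % 2 = 1 := Nat.odd_iff.1 hodd
  have h0 : ((-11 : ℤ) : ZMod p) ≠ 0 := by
    intro h1
    rw [ZMod.intCast_zmod_eq_zero_iff_dvd] at h1
    have h2 : (p : ℤ) ∣ 11 := by
      have := h1.neg_right
      simpa using this
    have h3 : p ∣ 11 := by exact_mod_cast h2
    have := Nat.le_of_dvd (by norm_num) h3
    omega
  have h1 : legendreSym p (-11) = 1 := by
    rw [jacobiSym.legendreSym.to_jacobiSym, show (-11 : ℤ) = -1 * 11 by norm_num,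
      jacobiSym.mul_left, jacobiSym.at_neg_one hodd]
    rcases (show p % 4 = 1 ∨ p % 4 = 3 by omega) with h4 | h4
    · rw [ZMod.χ₄_nat_one_mod_four h4, one_mul]
      have h5 := jacobiSym.quadratic_reciprocity_one_mod_four' (a := 11) (b := p) (by decide) h4
      have h6 : jacobiSym 11 p = jacobiSym p 11 := by exact_mod_cast h5
      rw [h6, h]
    · rw [ZMod.χ₄_nat_three_mod_four h4]
      have h5 := jacobiSym.quadratic_reciprocity_three_mod_four (a := 11) (b := p) (by norm_num) h4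
      have h6 : jacobiSym 11 p = -jacobiSym p 11 := by exact_mod_cast h5
      rw [h6, h]
      norm_num
  rw [legendreSym.eq_one_iff p h0] at h1
  simpa using h1

theorem rep_exists {p : ℕ} [Fact p.Prime] (hp : 11 < p) (h : jacobiSym p 11 = 1) :
    ∃ x y : ℤ, x ^ 2 + 11 * y ^ 2 = 4 * (p : ℤ) := by
  have hpp : p.Prime := Fact.out
  have hodd' : p % 2 = 1 := by
    rcases hpp.eq_two_or_odd with h1 | h1
    · omega
    · exact h1
  obtain ⟨r, hr⟩ := x1_square hp h
  have h2 : (2 : ZMod p) ≠ 0 := by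
    intro h0
    have h1 : ((2 : ℕ) : ZMod p) = 0 := by exact_mod_cast h0
    rw [ZMod.natCast_eq_zero_iff] at h1
    have := Nat.le_of_dvd (by norm_num) h1
    omega
  obtain ⟨c, hc⟩ : ∃ c : ZMod p, c ^ 2 + c + 3 = 0 := by
    refine ⟨(r - 1) / 2, ?_⟩
    field_simp
    linear_combination -hr
  obtain ⟨u, v, hne, hu, hv, huv⟩ := x1_thue c
  have hF : ((u ^ 2 + u * v + 3 * v ^ 2 : ℤ) : ZMod p) = 0 := by
    push_cast
    rw [huv]
    linear_combination (v : ZMod p) ^ 2 * hc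
  rw [ZMod.intCast_zmod_eq_zero_iff_dvd] at hF
  obtain ⟨j, hj⟩ := hF
  have hpos : 0 < u ^ 2 + u * v + 3 * v ^ 2 := by
    have h1 : 4 * (u ^ 2 + u * v + 3 * v ^ 2) = (2 * u + v) ^ 2 + 11 * v ^ 2 := by ring
    have h3 : 0 < (2 * u + v) ^ 2 + 11 * v ^ 2 := by
      by_cases hv0 : v = 0
      · have hu0 : u ≠ 0 := hne.resolve_right (not_not.2 hv0)
        rw [hv0]
        have : 0 < u ^ 2 := by positivity
        nlinarith
      · have h4 : 0 < v ^ 2 := by positivity
        nlinarith [sq_nonneg (2 * u + v)]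
    linarith
  have hlt : u ^ 2 + u * v + 3 * v ^ 2 < 5 * p := by
    have h1 : u * v < p := by
      nlinarith [sq_nonneg (u - v)]
    linarith
  have hpZ : (0 : ℤ) < p := by exact_mod_cast hpp.pos
  have hj1 : 0 < j := by
    rw [hj] at hpos
    by_contra hcon
    push Not at hcon
    nlinarith
  have hj5 : j < 5 := by
    rw [hj] at hlt
    nlinarith
  have hpo : (p : ℤ) % 2 = 1 := by omega
  rcases (show j = 1 ∨ j = 2 ∨ j = 3 ∨ j = 4 by omega) with h1 | h1 | h1 | h1 <;> rw [h1] at hj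
  · exact ⟨2 * u + v, v, by linear_combination 4 * hj⟩
  · exfalso
    rcases Int.even_or_odd' u with ⟨a, ha | ha⟩ <;> rcases Int.even_or_odd' v with ⟨b, hb | hb⟩ <;>
      rw [ha, hb] at hj <;> ring_nf at hj <;> omega
  · have h3 : (3 : ℤ) ∣ u * (u + v) := ⟨p - v ^ 2, by linear_combination hj⟩
    rcases Int.prime_three.dvd_or_dvd h3 with ⟨a, ha⟩ | ⟨a, ha⟩
    · refine ⟨2 * v + a, a, ?_⟩
      rw [ha] at hj
      linarith [hj]
    · have hu' : u = 3 * a - v := by linarith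
      refine ⟨2 * v - a, a, ?_⟩
      rw [hu'] at hj
      linarith [hj]
  · rcases Int.even_or_odd' u with ⟨a, ha | ha⟩ <;> rcases Int.even_or_odd' v with ⟨b, hb | hb⟩
    · refine ⟨2 * a + b, b, ?_⟩
      rw [ha, hb] at hj
      linear_combination hj
    all_goals
      exfalso
      rw [ha, hb] at hj
      ring_nf at hj
      omega

end CM11
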