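import Pool.Agent.Lib.MP_34a732_nt.Trace
import Pool.Agent.Lib.MP_34a732_nt.R3
import Pool.Agent.Lib.MP_34a732_nt.X1
import Pool.Agent.Lib.MP_34a732_nt.FB
import Pool.Agent.Lib.MP_34a732_nt.FC
import Pool.Agent.Lib.MP_34a732_nt.FD

/-!
Final form.
-/

namespace CM11
open SCong Finset Polynomial

variable {p : ℕ} [Fact p.Prime]

theorem three_cases (hp : 11 < p) : p % 3 = 1 ∨ p % 3 = 2 := by
  have hP : p.Prime := Fact.out
  have : p % 3 ≠ 0 := by
    intro h
    have h3 : 3 ∣ p := Nat.dvd_of_mod_eq_zero h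
    rcases (Nat.dvd_prime hP).1 h3 with h | h <;> omega
  omega

theorem main (hp : 11 < p) {x y : ℤ} (hxy : x ^ 2 + 11 * y ^ 2 = 4 * (p : ℤ)) :
    Cg p 2 ((S1 p : ℚ) : ℚ_[p]) ((eps p * S2 p : ℚ) : ℚ_[p]) ∧
    Cg p 2 ((S1 p : ℚ) : ℚ_[p]) (((leg p 6 : ℚ) * R p x y : ℚ) : ℚ_[p]) := by
  obtain ⟨hx0, hy0⟩ := xy_units hp hxy
  obtain ⟨ε, hε, hN, hs⟩ := trace_eval hp hxy hy0
  have hρ : (-(x : ZMod p) / y) ^ 2 = -11 := by
    have h1 : (x : ZMod p) ^ 2 + 11 * (y : ZMod p) ^ 2 = 0 := by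
      have := congrArg (Int.cast (R := ZMod p)) hxy
      push_cast at this
      rw [this, ZMod.natCast_self, mul_zero]
    field_simp
    linear_combination h1
  obtain ⟨r, hr, hrρ⟩ := root_exists hp hρ
  have hεZ : ((ε : ℤ) : ZMod p) ≠ 0 := by
    rcases hε with rfl | rfl <;> simp
  have ha0 : ((ε * x : ℤ) : ZMod p) ≠ 0 := by
    push_cast
    exact mul_ne_zero hεZ hx0
  have hH := HH_z0' hp hr hrρ hN ha0
  have hx : (x : ℚ_[p]) ≠ 0 := by
    have : x ≠ 0 := by rintro rfl; simp at hx0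
    exact_mod_cast this
  have hεε : (ε : ℚ_[p]) ^ 2 = 1 := by rcases hε with rfl | rfl <;> norm_num
  have hε0 : (ε : ℚ_[p]) ≠ 0 := by
    intro h; rw [h] at hεε; norm_num at hεε
  have hH' : Cg p 2 (HH p ((4 + r) / 8)) (ε * (x - p / x)) := by
    refine hH.trans (Cg.of_eq ?_)
    push_cast
    field_simp
    linear_combination (p : ℚ_[p]) * hεε
  rcases three_cases hp with h3 | h3
  · obtain ⟨h1, h2⟩ := SS_one' hp h3 hr
    rw [← S1_cast] at h1
    rw [← S2_cast] at h2
    constructor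
    · have : (eps p * S2 p : ℚ) = S2 p := by rw [eps_one h3, one_mul]
      rw [this]
      exact h1.trans h2.symm
    · refine (h1.trans hH').trans (Cg.of_eq ?_)
      have hsg := sign_one hp h3 hxy hε hs
      have hsg' : (ε : ℚ_[p]) = -((quadraticChar (ZMod p) 6 : ℤ) *
          (quadraticChar (ZMod p) (-11 + (x : ZMod p) / (y : ZMod p)) : ℤ) *
          (jacobiSym x 11 : ℤ)) := by exact_mod_cast congrArg (Int.cast (R := ℚ_[p])) hsg
      rw [hsg']
      unfold R
      rw [if_pos h3, leg_six hp, leg_one hy0]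
      push_cast
      ring
  · obtain ⟨h1, h2⟩ := SS_two' hp h3 hr
    rw [← S1_cast] at h1 h2
    rw [← S2_cast] at h2
    constructor
    · have : ((eps p * S2 p : ℚ) : ℚ_[p]) = -11 / 16 * ((S2 p : ℚ) : ℚ_[p]) := by
        rw [eps_two h3]; push_cast; ring
      rw [this]
      exact h2
    · have i1 : In p (-r / 4) := by
        have e2 := (ne_of_five (p := p) (by omega)).1
        have e4 : (4 : ZMod p) ≠ 0 := by
          have : (4 : ZMod p) = 2 * 2 := by norm_num
          rw [this]; exact mul_ne_zero e2 e2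
        have := (hrρ.neg).div (Rd.nat (p := p) 4) (by exact_mod_cast e4)
        exact_mod_cast this.in
      have h4 := hH'.mul_left i1
      have h5 := (alg_two hp hxy hr hrρ).mul_left (In.int (p := p) ε)
      refine (h1.trans h4).trans ?_
      have e1 : -r / 4 * ((ε : ℚ_[p]) * (x - p / x)) = ε * (-r / 4 * (x - p / x)) := by ring
      rw [e1]
      refine h5.trans (Cg.of_eq ?_)
      have hsg := sign_two hp h3 hxy hε hs
      have hsg' : (ε : ℚ_[p]) = (quadraticChar (ZMod p) 6 : ℤ) *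
          (quadraticChar (ZMod p) (-11 + ((jacobiSym x 11 : ℤ) : ZMod p) * (x : ZMod p) /
            (y : ZMod p)) : ℤ) := by exact_mod_cast congrArg (Int.cast (R := ℚ_[p])) hsg
      rw [hsg']
      unfold R
      have hl := leg_two (p := p) (x := x) (y := y) (s := jacobiSym x 11) hy0
      rw [if_neg (by omega), leg_six hp, hl]
      push_cast
      ring

theorem leg_six_sq (hp : 11 < p) : (leg p 6) = 1 ∨ (leg p 6) = -1 := by
  rw [leg_six hp]
  refine quadraticChar_dichotomy ?_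
  obtain ⟨e2, e3⟩ := ne_of_five (p := p) (by omega)
  have : (6 : ZMod p) = 2 * 3 := by norm_num
  rw [this]
  exact mul_ne_zero e2 e3

theorem final (hp : 11 < p) {x y : ℤ} (hxy : x ^ 2 + 11 * y ^ 2 = 4 * (p : ℤ)) :
    CongMod p (p ^ 2) (S1 p) (eps p * S2 p) ∧
    CongMod p (p ^ 2) (S1 p) ((leg p 6 : ℚ) * R p x y) ∧
    (CongMod p (p ^ 2) (S1 p) (R p x y) ↔ leg p 6 = 1) ∧
    (leg p 6 = -1 → ¬ CongMod p p (S1 p) (R p x y)) ∧
    (p % 3 = 2 → CongMod p p
      ((leg p 6 : ℚ) * ((y : ℚ) * (leg p (-11 + (jacobiSym x 11 : ℚ) * (x : ℚ) / y) : ℚ)))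
      (1 / 4 * T2 p)) := by
  obtain ⟨h1, h2⟩ := main hp hxy
  obtain ⟨a, ha, hRa⟩ := R_unit hp (three_cases hp) hxy
  have hno : leg p 6 = -1 → ¬ CongMod p p (S1 p) (R p x y) := by
    intro h6 h
    have h3 : Cg p 1 ((S1 p : ℚ) : ℚ_[p]) ((R p x y : ℚ) : ℚ_[p]) :=
      (F3_cong_iff 1).1 (by rw [pow_one]; exact h)
    have h4 := (h2.mono (show 1 ≤ 2 by norm_num)).symm.trans h3
    have h5 : Rd p (((leg p 6 : ℚ) * R p x y : ℚ) : ℚ_[p]) (-a) := by
      rw [h6]
      push_cast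
      have := hRa.neg
      have e : -((R p x y : ℚ) : ℚ_[p]) = (-1) * ((R p x y : ℚ) : ℚ_[p]) := by ring
      rwa [e] at this
    have h6' := (h5.cg_iff hRa).1 h4
    have h7 : (2 : ZMod p) * a = 0 := by linear_combination -h6'
    rcases mul_eq_zero.1 h7 with h | h
    · exact (ne_of_five (p := p) (by omega)).1 h
    · exact ha h
  refine ⟨F3_cong 2 h1, F3_cong 2 h2, ⟨fun h => ?_, fun h => ?_⟩, hno, fun h3 => ?_⟩
  · rcases leg_six_sq hp with h6 | h6
    · exact h6
    · exfalso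
      refine hno h6 ?_
      have h8 := ((F3_cong_iff 2).1 h).mono (show 1 ≤ 2 by norm_num)
      have h9 := F3_cong 1 h8
      rwa [pow_one] at h9
  · have := F3_cong 2 h2
    rw [h] at this
    simpa using this
  · -- the last display
    have h4 := (S2_T2 hp h3)
    have h5 := h2.mono (show 1 ≤ 2 by norm_num)
    have h6 := h1.mono (show 1 ≤ 2 by norm_num)
    have e2 := (ne_of_five (p := p) (by omega)).1
    have e11 : (11 : ZMod p) ≠ 0 := by
      have := nat_ne_zero (p := p) (n := 11) (fun h => absurd (Nat.le_of_dvd (by norm_num) h) (by omega))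
      exact_mod_cast this
    obtain ⟨hx0, hy0⟩ := xy_units hp hxy
    set l6 : ℤ := leg p 6 with hl6
    set l : ℤ := leg p (-11 + (jacobiSym x 11 : ℚ) * (x : ℚ) / y) with hl
    have hR : (R p x y : ℚ) = -(1 / 4) * (l : ℚ) * (11 * (y : ℚ) - (p : ℚ) / y) := by
      unfold R
      rw [if_neg (by omega)]
    -- S2 = 16/11 * (1/4) l6 l 11 y
    have h7 : Cg p 1 (-11 / 16 * ((S2 p : ℚ) : ℚ_[p])) (((l6 : ℚ) * R p x y : ℚ) : ℚ_[p]) := by
      have e : ((eps p * S2 p : ℚ) : ℚ_[p]) = -11 / 16 * ((S2 p : ℚ) : ℚ_[p]) := by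
        rw [eps_two h3]; push_cast; ring
      rw [← e]
      exact h6.symm.trans h5
    have hyq : (y : ℚ_[p]) ≠ 0 := by
      have : y ≠ 0 := by rintro rfl; simp at hy0
      exact_mod_cast this
    have h8 : Cg p 1 (((l6 : ℚ) * R p x y : ℚ) : ℚ_[p]) (-(11 / 4) * ((l6 : ℚ_[p]) * (l * y))) := by
      rw [hR]
      have i1 : In p ((1 / 4 : ℚ_[p]) * (l6 * (l * (1 / y)))) := by
        have j1 : In p ((1 : ℚ_[p]) / 4) := by
          have e4 : (4 : ZMod p) ≠ 0 := by
            have : (4 : ZMod p) = 2 * 2 := by norm_num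
            rw [this]; exact mul_ne_zero e2 e2
          have := (Rd.one (p := p)).div (Rd.nat (p := p) 4) (by exact_mod_cast e4)
          exact_mod_cast this.in
        have j2 : In p ((1 : ℚ_[p]) / y) := ((Rd.one (p := p)).div (Rd.int y) hy0).in
        exact j1.mul ((In.int _).mul ((In.int _).mul j2))
      obtain ⟨w, hw⟩ := i1
      refine ⟨w, ?_⟩
      rw [hw]
      push_cast
      field_simp
      ring
    have h9 := h7.trans h8
    have h10 : Cg p 1 (((1 / 4 * T2 p : ℚ)) : ℚ_[p])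
        ((((l6 : ℚ) * ((y : ℚ) * (l : ℚ)) : ℚ)) : ℚ_[p]) := by
      have i2 : In p (-4 / 11 : ℚ_[p]) := by
        have := ((Rd.nat (p := p) 4).neg).div (Rd.nat (p := p) 11) (by exact_mod_cast e11)
        exact_mod_cast this.in
      have h11 := h9.mul_left i2
      have i3 : In p (1 / 4 : ℚ_[p]) := by
        have e4 : (4 : ZMod p) ≠ 0 := by
          have : (4 : ZMod p) = 2 * 2 := by norm_num
          rw [this]; exact mul_ne_zero e2 e2
        have := (Rd.one (p := p)).div (Rd.nat (p := p) 4) (by exact_mod_cast e4)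
        exact_mod_cast this.in
      have h12 := (h4.symm).mul_left i3
      refine ((Cg.of_eq (by push_cast; ring)).trans h12).trans ((Cg.of_eq (by ring)).trans (h11.trans (Cg.of_eq ?_)))
      push_cast
      ring
    have := F3_cong 1 h10.symm
    rwa [pow_one] at this

end CM11
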