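import Pool.Agent.Lib.MP_34a732_nt.Defs

/-!
Basic facts about affine points with given coordinates.
-/

namespace CM11
open Polynomial WeierstrassCurve

variable {F : Type} [Field F] {V : Affine F}

theorem sh_equation (hV : Sh V) (x y : F) : V.Equation x y ↔ y ^ 2 = x ^ 3 + V.a₄ * x + V.a₆ := by
  rw [Affine.equation_iff, hV.a1, hV.a2, hV.a3]
  constructor <;> intro h <;> linear_combination h

theorem sh_delta (hV : Sh V) : V.Δ ≠ 0 := by
  have h2 : (2 : F) ≠ 0 := hV.two
  have : V.Δ = -16 * (4 * V.a₄ ^ 3 + 27 * V.a₆ ^ 2) := by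
    simp only [WeierstrassCurve.Δ, WeierstrassCurve.b₂, WeierstrassCurve.b₄, WeierstrassCurve.b₆,
      WeierstrassCurve.b₈, hV.a1, hV.a2, hV.a3]
    ring
  rw [this]
  refine mul_ne_zero ?_ hV.disc
  have : (-16 : F) = -(2 ^ 4) := by norm_num
  rw [this]
  exact neg_ne_zero.mpr (pow_ne_zero _ h2)

theorem sh_nonsingular (hV : Sh V) (x y : F) :
    V.Nonsingular x y ↔ y ^ 2 = x ^ 3 + V.a₄ * x + V.a₆ := by
  rw [← Affine.equation_iff_nonsingular_of_Δ_ne_zero (sh_delta hV), sh_equation hV]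

theorem at_eqn (hV : Sh V) {P : V.Point} {x y : F} (h : At P x y) :
    y ^ 2 = x ^ 3 + V.a₄ * x + V.a₆ := (sh_nonsingular hV x y).mp h.1

theorem at_mk (hV : Sh V) {x y : F} (h : y ^ 2 = x ^ 3 + V.a₄ * x + V.a₆) :
    ∃ P : V.Point, At P x y := ⟨_, (sh_nonsingular hV x y).mpr h, rfl⟩

theorem at_inj {P : V.Point} {x y x' y' : F} (h : At P x y) (h' : At P x' y') :
    x = x' ∧ y = y' := by
  obtain ⟨h1, h2⟩ := h
  obtain ⟨h3, h4⟩ := h'
  rw [h2] at h4
  simpa using h4

theorem at_ext {P Q : V.Point} {x y : F} (h : At P x y) (h' : At Q x y) : P = Q := by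
  obtain ⟨h1, h2⟩ := h
  obtain ⟨h3, h4⟩ := h'
  rw [h2, h4]

theorem at_ne_zero {P : V.Point} {x y : F} (h : At P x y) : P ≠ 0 := by
  obtain ⟨h1, h2⟩ := h
  rw [h2]
  exact Affine.Point.some_ne_zero _

theorem exists_at {P : V.Point} (h : P ≠ 0) : ∃ x y, At P x y := by
  rcases P with _ | ⟨x, y, hP⟩
  · exact absurd rfl h
  · exact ⟨x, y, hP, rfl⟩

theorem at_xRep {P : V.Point} {x y : F} (h : At P x y) : P.xRep 0 = x ∧ P.xRep 1 = 1 := by
  obtain ⟨h1, h2⟩ := h
  rw [h2]
  simp

theorem zero_xRep : (0 : V.Point).xRep 0 = 1 ∧ (0 : V.Point).xRep 1 = 0 := by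
  simp

theorem at_neg (hV : Sh V) {P : V.Point} {x y : F} (h : At P x y) : At (-P) x (-y) := by
  obtain ⟨h1, h2⟩ := h
  have e : V.negY x y = -y := by simp [Affine.negY, hV.a1, hV.a3]
  have h3 : V.Nonsingular x (-y) := e ▸ (Affine.nonsingular_neg ..).mpr h1
  refine ⟨h3, ?_⟩
  rw [h2, Affine.Point.neg_some, Affine.Point.some.injEq]
  exact ⟨rfl, e⟩

/-- points with equal `x`-coordinate -/
theorem at_x_eq (hV : Sh V) {P Q : V.Point} {x y y' : F} (h : At P x y) (h' : At Q x y') :
    Q = P ∨ Q = -P := by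
  have e1 := at_eqn hV h
  have e2 := at_eqn hV h'
  have : (y' - y) * (y' + y) = 0 := by linear_combination e2 - e1
  rcases mul_eq_zero.mp this with h3 | h3
  · left
    have : y' = y := by linear_combination h3
    subst this
    exact at_ext h' h
  · right
    have : y' = -y := by linear_combination h3
    subst this
    exact at_ext h' (at_neg hV h)

theorem xRep_neg' (P : V.Point) (i : Fin 2) : (-P).xRep i = P.xRep i := by
  rw [Affine.Point.xRep_neg]

theorem mu_at {D : F → F} {P : V.Point} {x y : F} (h : At P x y) : mu D P = D x / y := by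
  obtain ⟨h1, h2⟩ := h
  rw [h2]
  rfl

theorem mu_zero {D : F → F} : mu D (0 : V.Point) = 0 := rfl

section add
variable [DecidableEq F]

/-- addition of points with different `x`-coordinates; `m` is the slope -/
theorem at_add (hV : Sh V) {P Q : V.Point} {x y x' y' m : F} (h : At P x y) (h' : At Q x' y')
    (hx : x ≠ x') (hm : m * (x - x') = y - y') :
    At (P + Q) (m ^ 2 - x - x') (m * (x - (m ^ 2 - x - x')) - y) := by
  obtain ⟨h1, h2⟩ := h
  obtain ⟨h3, h4⟩ := h'
  have hs : V.slope x x' y y' = m := by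
    rw [Affine.slope_of_X_ne hx, div_eq_iff (sub_ne_zero.mpr hx)]
    exact hm.symm
  have eX : V.addX x x' (V.slope x x' y y') = m ^ 2 - x - x' := by
    rw [hs, Affine.addX, hV.a1, hV.a2]; ring
  have eY : V.addY x x' y (V.slope x x' y y') = m * (x - (m ^ 2 - x - x')) - y := by
    rw [Affine.addY, Affine.negAddY, Affine.negY, eX, hs, hV.a1, hV.a3]; ring
  have key := Affine.Point.add_of_X_ne (h₁ := h1) (h₂ := h3) hx
  rw [h2, h4, key]
  have h5 := Affine.nonsingular_add h1 h3 fun hxy => hx hxy.left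
  refine ⟨by rw [← eY, ← eX]; exact h5, ?_⟩
  rw [Affine.Point.some.injEq]
  exact ⟨eX, eY⟩

/-- doubling; `m` is the slope of the tangent -/
theorem at_dbl (hV : Sh V) {P : V.Point} {x y m : F} (h : At P x y)
    (hy : y ≠ 0) (hm : m * (2 * y) = 3 * x ^ 2 + V.a₄) :
    At (P + P) (m ^ 2 - 2 * x) (m * (x - (m ^ 2 - 2 * x)) - y) := by
  obtain ⟨h1, h2⟩ := h
  have h22 := hV.two
  have e : V.negY x y = -y := by simp [Affine.negY, hV.a1, hV.a3]
  have hne : y ≠ V.negY x y := by
    rw [e]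
    intro h
    have : 2 * y = 0 := by linear_combination h
    exact (mul_ne_zero h22 hy) this
  have hs : V.slope x x y y = m := by
    rw [Affine.slope_of_Y_ne rfl hne, e, div_eq_iff (by
      have : y - -y = 2 * y := by ring
      rw [this]; exact mul_ne_zero h22 hy), hV.a1, hV.a2]
    linear_combination -hm
  have eX : V.addX x x (V.slope x x y y) = m ^ 2 - 2 * x := by
    rw [hs, Affine.addX, hV.a1, hV.a2]; ring
  have eY : V.addY x x y (V.slope x x y y) = m * (x - (m ^ 2 - 2 * x)) - y := by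
    rw [Affine.addY, Affine.negAddY, Affine.negY, eX, hs, hV.a1, hV.a3]; ring
  have key := Affine.Point.add_self_of_Y_ne (h₁ := h1) hne
  rw [h2, key]
  have h5 := Affine.nonsingular_add h1 h1 fun hxy => hne hxy.right
  refine ⟨by rw [← eY, ← eX]; exact h5, ?_⟩
  rw [Affine.Point.some.injEq]
  exact ⟨eX, eY⟩

/-- points of order two -/
theorem at_add_self (hV : Sh V) {P : V.Point} {x : F} (h : At P x 0) : P + P = 0 := by
  have h1 := at_neg hV h
  rw [neg_zero] at h1
  have : -P = P := at_ext h1 h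
  have h2 := neg_add_cancel P
  rwa [this] at h2

end add

section EL
variable {p : ℕ} [Fact p.Prime] {L : Type} [Field L] [Algebra (ZMod p) L] {A B : ZMod p}

theorem el_a4 : (EL L A B).a₄ = algebraMap (ZMod p) L A := rfl
theorem el_a6 : (EL L A B).a₆ = algebraMap (ZMod p) L B := rfl

theorem el_sh (h2 : (2 : ZMod p) ≠ 0) (hd : 4 * A ^ 3 + 27 * B ^ 2 ≠ 0) : Sh (EL L A B) := by
  refine ⟨?_, ?_, ?_, ?_, ?_⟩
  · show algebraMap (ZMod p) L 0 = 0
    exact map_zero _
  · show algebraMap (ZMod p) L 0 = 0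
    exact map_zero _
  · show algebraMap (ZMod p) L 0 = 0
    exact map_zero _
  · have := (algebraMap (ZMod p) L).injective.ne h2
    rwa [map_ofNat, map_zero] at this
  · have := (algebraMap (ZMod p) L).injective.ne hd
    rw [el_a4, el_a6]
    rwa [map_add, map_mul, map_mul, map_pow, map_pow, map_ofNat, map_ofNat, map_zero] at this

variable {K : Type} [Field K] [Algebra (ZMod p) K] [DecidableEq L] [DecidableEq K]

theorem at_map (τ : L →ₐ[ZMod p] K) {P : (EL L A B).Point} {x y : L} (h : At P x y) :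
    At (Affine.Point.map (W' := WW p A B) τ P : (EL K A B).Point) (τ x) (τ y) := by
  obtain ⟨h1, h2⟩ := h
  rw [h2]
  exact ⟨_, Affine.Point.map_some τ h1⟩

end EL

end CM11
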