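import Mathlib

/-!
Module G5: a function on an abelian group with the parallelogram law is quadratic on the span of two elements.
PROOF.  Standard.  d 0 = 0 (P = Q = 0), d(-P) = d(P) (P = 0), d(nP) = n^2 d(P) by strong induction on n (P → nP, Q → P), then for integers.
B(P,Q) = d(P+Q) - d(P) - d(Q) satisfies B(P, Q) = -B(P,-Q) and B(P+Q, R) + B(P-Q, R) = 2 B(P,R): indeed
d(P+Q+R)+d(P-Q+R)... the standard Jordan-von Neumann computation: B is additive in each variable (2B is, so B is, integers have no torsion).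
Alternative proof without biadditivity: g(m,n) = d(mP + nQ) satisfies g(m+1,n)+g(m-1,n) = 2 g(m,n) + 2 d(P) and g(m,n+1)+g(m,n-1) = 2 g(m,n) + 2 d(Q); the right side h(m,n) of the claim
satisfies the same recursions; they agree at (0,0), (1,0), (0,1), (1,1), hence by induction at (m,0) and (m,1) for all m
and then (m,n) for all n (Int.induction_on, or two-sided induction on pairs of consecutive values).
-/

namespace CM11

theorem g5_zero (φ : ℤ → ℤ) (h : ∀ m, φ (m + 1) + φ (m - 1) = 2 * φ m) (h0 : φ 0 = 0)
    (h1 : φ 1 = 0) (m : ℤ) : φ m = 0 := by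
  have key : ∀ m : ℤ, φ m = 0 ∧ φ (m + 1) = 0 := by
    intro m
    induction m using Int.induction_on with
    | zero => exact ⟨h0, by simpa using h1⟩
    | succ i ih =>
      refine ⟨ih.2, ?_⟩
      have h2 := h ((i : ℤ) + 1)
      rw [add_sub_cancel_right] at h2
      omega
    | pred i ih =>
      have h2 := h (-(i : ℤ))
      rw [sub_add_cancel]
      omega
  exact (key m).1

theorem quad {M : Type} [AddCommGroup M] (d : M → ℤ)
    (hpar : ∀ P Q, d (P + Q) + d (P - Q) = 2 * d P + 2 * d Q) (P Q : M) (m n : ℤ) :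
    d (m • P + n • Q) = m ^ 2 * d P + n ^ 2 * d Q + m * n * (d (P + Q) - d P - d Q) := by
  have d0 : d 0 = 0 := by
    have := hpar 0 0
    rw [add_zero, sub_zero] at this
    omega
  set δ : ℤ → ℤ → ℤ := fun m n => d (m • P + n • Q) -
    (m ^ 2 * d P + n ^ 2 * d Q + m * n * (d (P + Q) - d P - d Q)) with hδ
  have rm : ∀ n m, δ (m + 1) n + δ (m - 1) n = 2 * δ m n := by
    intro n m
    have h := hpar (m • P + n • Q) P
    have e1 : m • P + n • Q + P = (m + 1) • P + n • Q := by rw [add_smul, one_smul]; abel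
    have e2 : m • P + n • Q - P = (m - 1) • P + n • Q := by rw [sub_smul, one_smul]; abel
    rw [e1, e2] at h
    simp only [hδ]
    linear_combination h
  have rn : ∀ m n, δ m (n + 1) + δ m (n - 1) = 2 * δ m n := by
    intro m n
    have h := hpar (m • P + n • Q) Q
    have e1 : m • P + n • Q + Q = m • P + (n + 1) • Q := by rw [add_smul, one_smul]; abel
    have e2 : m • P + n • Q - Q = m • P + (n - 1) • Q := by rw [sub_smul, one_smul]; abel
    rw [e1, e2] at h
    simp only [hδ]
    linear_combination h
  have z0 : ∀ n, δ 0 n = 0 := g5_zero (fun n => δ 0 n) (rn 0)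
    (by simp [hδ, d0]) (by simp [hδ])
  have z1 : ∀ n, δ 1 n = 0 := g5_zero (fun n => δ 1 n) (rn 1)
    (by simp [hδ]) (by simp [hδ])
  have z := g5_zero (fun m => δ m n) (rm n) (z0 n) (z1 n) m
  simp only [hδ] at z
  linarith

end CM11
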