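import Pool.Agent.Lib.MP_34a732_nt.G1

/-!
Module G8: odd points have a height.
PROOFS.  od_zero, od_neg, od_add, od_zsmul: Affine.Point.map is an additive homomorphism.  (od_sub from od_add and od_neg.)
odd_rep: P = 0: a = 1, b = 0.  P = (x,y): at_map and at_neg give σ x = x, σ y = -y (at_inj).  S.fix x: x ι b = ι a with b ≠ 0; divide by the gcd of a, b
(EuclideanDomain.gcd or exists coprime a', b' with a = g a', b = g b', g ≠ 0), IsCoprime a' b'.  xRep = (x, 1) (at_xRep): x ι b' = 1 ι a'.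
od_y: σ y = -y as above.
-/

namespace CM11
open Polynomial WeierstrassCurve

variable {p : ℕ} [Fact p.Prime] {f : (ZMod p)[X]} {L : Type} [Field L] [Algebra (ZMod p) L]
  [DecidableEq L] {A B : ZMod p}

theorem od_zero (S : FF p f L) : Od S (0 : (EL L A B).Point) := by
  unfold Od
  rw [map_zero, neg_zero]

theorem od_neg (S : FF p f L) {P : (EL L A B).Point} (h : Od S P) : Od S (-P) := by
  unfold Od at h ⊢
  rw [map_neg, h]

theorem od_add (S : FF p f L) {P Q : (EL L A B).Point} (h : Od S P) (h' : Od S Q) :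
    Od S (P + Q) := by
  unfold Od at h h' ⊢
  rw [map_add, h, h', neg_add]

theorem od_sub (S : FF p f L) {P Q : (EL L A B).Point} (h : Od S P) (h' : Od S Q) :
    Od S (P - Q) := by
  rw [sub_eq_add_neg]
  exact od_add S h (od_neg S h')

theorem od_zsmul (S : FF p f L) {P : (EL L A B).Point} (h : Od S P) (n : ℤ) : Od S (n • P) := by
  unfold Od at h ⊢
  rw [map_zsmul, h, smul_neg]

/-- coordinates of an odd point -/
theorem od_xy (h2 : (2 : ZMod p) ≠ 0) (hd : 4 * A ^ 3 + 27 * B ^ 2 ≠ 0) (S : FF p f L)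
    {P : (EL L A B).Point} {x y : L} (h : At P x y) : Od S P ↔ S.σ x = x ∧ S.σ y = -y := by
  have hV := el_sh (L := L) (A := A) (B := B) h2 hd
  have h1 := at_map (K := L) S.σ h
  have h3 := at_neg hV h
  constructor
  · intro ho
    unfold Od at ho
    rw [ho] at h1
    exact at_inj h1 h3
  · rintro ⟨e1, e2⟩
    unfold Od
    rw [e1, e2] at h1
    exact at_ext h1 h3

theorem odd_rep (h2 : (2 : ZMod p) ≠ 0) (hd : 4 * A ^ 3 + 27 * B ^ 2 ≠ 0) (S : FF p f L)
    {P : (EL L A B).Point} (h : Od S P) : ∃ a b, Rep S P a b := by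
  by_cases hP : P = 0
  · refine ⟨1, 0, isCoprime_one_left, ?_⟩
    rw [hP, zero_xRep.1, zero_xRep.2, map_zero, mul_zero, zero_mul]
  obtain ⟨x, y, hxy⟩ := exists_at hP
  obtain ⟨e1, -⟩ := (od_xy h2 hd S hxy).1 h
  obtain ⟨a, b, hb, hab⟩ := S.fix x e1
  obtain ⟨hx0, hx1⟩ := at_xRep hxy
  have hg : EuclideanDomain.gcd a b ≠ 0 := fun h0 => hb (EuclideanDomain.gcd_eq_zero_iff.1 h0).2
  obtain ⟨a', ea⟩ := EuclideanDomain.gcd_dvd_left a b
  obtain ⟨b', eb⟩ := EuclideanDomain.gcd_dvd_right a b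
  have hbez := EuclideanDomain.gcd_eq_gcd_ab a b
  generalize EuclideanDomain.gcd a b = g at hg ea eb hbez
  generalize EuclideanDomain.gcdA a b = u at hbez
  generalize EuclideanDomain.gcdB a b = v at hbez
  refine ⟨a', b', ⟨u, v, ?_⟩, ?_⟩
  · refine mul_left_cancel₀ hg ?_
    rw [ea, eb] at hbez
    linear_combination -hbez
  · rw [hx0, hx1, one_mul]
    have hgne : S.ι g ≠ 0 := by
      intro h0
      rw [← map_zero S.ι] at h0
      exact hg (S.inj h0)
    rw [ea, eb, map_mul, map_mul] at hab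
    exact mul_left_cancel₀ hgne (by linear_combination hab)

theorem odd_ht (h2 : (2 : ZMod p) ≠ 0) (hd : 4 * A ^ 3 + 27 * B ^ 2 ≠ 0) (S : FF p f L)
    {P : (EL L A B).Point} (h : Od S P) : ∃ n, Ht S P n := by
  obtain ⟨a, b, hab⟩ := odd_rep h2 hd S h
  exact ⟨_, a, b, hab, rfl⟩

end CM11
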