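import Pool.Agent.Lib.MP_34a732_nt.G4
import Pool.Agent.Lib.MP_34a732_nt.G5
import Pool.Agent.Lib.MP_34a732_nt.G8

/-!
Module G8B: height on the span of two odd points; poles.
PROOF of ht_quad.  M = the additive subgroup of odd points (carrier {P | Od S P}, G8), d(P) = the height (choice from odd_ht, cast to ℤ), hpar from ht_par; apply quad (G5) to P, Q in M.
d(P) = a, d(Q) = b, d(P+Q) = 2a+2b-c by hpar, d(mP+nQ) = N by ht_unique.
PROOF of pole_comb.  The set of P with Od S P and Pole S P contains 0 (Rep with a = 1, b = 0), is closed under negation (xRep_neg') and addition (pole_add with odd_ht), so it is an additive subgroup;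
zsmul_mem, add_mem.
-/

namespace CM11
open Polynomial WeierstrassCurve

variable {p : ℕ} [Fact p.Prime] {f : (ZMod p)[X]} {L : Type} [Field L] [Algebra (ZMod p) L]
  [DecidableEq L] {A B : ZMod p}

theorem ht_quad (h2 : (2 : ZMod p) ≠ 0) (hd : 4 * A ^ 3 + 27 * B ^ 2 ≠ 0) (S : FF p f L)
    {P Q : (EL L A B).Point} (hP : Od S P) (hQ : Od S Q) {a b c N : ℕ} (ha : Ht S P a)
    (hb : Ht S Q b) (hc : Ht S (P - Q) c) (m n : ℤ) (hN : Ht S (m • P + n • Q) N) :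
    (N : ℤ) = m ^ 2 * a + n ^ 2 * b + m * n * (a + b - c) := by
  classical
  let M : AddSubgroup (EL L A B).Point :=
    { carrier := {P | Od S P}
      zero_mem' := od_zero S
      add_mem' := fun h h' => od_add S h h'
      neg_mem' := fun h => od_neg S h }
  have hM : ∀ x : M, ∃ n, Ht S x.1 n := fun x => odd_ht h2 hd S x.2
  choose d hd1 using hM
  have hpar : ∀ x y : M, ((d (x + y) : ℕ) : ℤ) + ((d (x - y) : ℕ) : ℤ) =
      2 * ((d x : ℕ) : ℤ) + 2 * ((d y : ℕ) : ℤ) := by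
    intro x y
    have := ht_par h2 hd S (hd1 x) (hd1 y) (hd1 (x + y)) (hd1 (x - y))
    exact_mod_cast this
  have hq : ((d (m • (⟨P, hP⟩ : M) + n • (⟨Q, hQ⟩ : M)) : ℕ) : ℤ) =
      m ^ 2 * ((d ⟨P, hP⟩ : ℕ) : ℤ) + n ^ 2 * ((d ⟨Q, hQ⟩ : ℕ) : ℤ) + m * n *
      (((d (⟨P, hP⟩ + ⟨Q, hQ⟩) : ℕ) : ℤ) - ((d ⟨P, hP⟩ : ℕ) : ℤ) - ((d ⟨Q, hQ⟩ : ℕ) : ℤ)) :=
    quad (fun x : M => ((d x : ℕ) : ℤ)) hpar ⟨P, hP⟩ ⟨Q, hQ⟩ m n
  have hpq := hpar ⟨P, hP⟩ ⟨Q, hQ⟩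
  have e1 : d ⟨P, hP⟩ = a := ht_unique S (hd1 ⟨P, hP⟩) ha
  have e2 : d ⟨Q, hQ⟩ = b := ht_unique S (hd1 ⟨Q, hQ⟩) hb
  have e3 : d (⟨P, hP⟩ - ⟨Q, hQ⟩) = c := ht_unique S (hd1 (⟨P, hP⟩ - ⟨Q, hQ⟩)) hc
  have e4 : d (m • (⟨P, hP⟩ : M) + n • (⟨Q, hQ⟩ : M)) = N :=
    ht_unique S (hd1 (m • (⟨P, hP⟩ : M) + n • (⟨Q, hQ⟩ : M))) hN
  rw [e1, e2, e4] at hq
  rw [e1, e2, e3] at hpq
  rw [hq]
  linear_combination (m * n) * hpq

theorem pole_comb (h2 : (2 : ZMod p) ≠ 0) (hd : 4 * A ^ 3 + 27 * B ^ 2 ≠ 0) (S : FF p f L)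
    {P Q : (EL L A B).Point} (hP : Od S P) (hQ : Od S Q) (pP : Pole S P) (pQ : Pole S Q)
    (m n : ℤ) : Od S (m • P + n • Q) ∧ Pole S (m • P + n • Q) := by
  classical
  let M : AddSubgroup (EL L A B).Point :=
    { carrier := {P | Od S P ∧ Pole S P}
      zero_mem' := by
        refine ⟨od_zero S, 1, 0, ⟨isCoprime_one_left, ?_⟩, ?_⟩
        · have hz := zero_xRep (V := EL L A B)
          rw [hz.2, map_zero, mul_zero, zero_mul]
        · rw [degree_zero, degree_one]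
          exact WithBot.bot_lt_coe 0
      add_mem' := fun {P Q} h h' => by
        refine ⟨od_add S h.1 h'.1, ?_⟩
        obtain ⟨k, hk⟩ := odd_ht h2 hd S (od_add S h.1 h'.1)
        obtain ⟨l, hl⟩ := odd_ht h2 hd S (od_sub S h.1 h'.1)
        exact pole_add h2 hd S h.2 h'.2 hk hl
      neg_mem' := fun {P} h => by
        refine ⟨od_neg S h.1, ?_⟩
        obtain ⟨a, b, ⟨hab, he⟩, hdeg⟩ := h.2
        refine ⟨a, b, ⟨hab, ?_⟩, hdeg⟩
        rw [xRep_neg', xRep_neg']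
        exact he }
  have h1 : P ∈ M := ⟨hP, pP⟩
  have h3 : Q ∈ M := ⟨hQ, pQ⟩
  exact M.add_mem (M.zsmul_mem h1 m) (M.zsmul_mem h3 n)

end CM11
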