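import Pool.Agent.Lib.MP_34a732_nt.G9

/-!
Module G9B: the height of Fr G - G.  See the comment of G9 (first lines of the proof of frob_count): at_add for Fr G and -G, then Rep with a, b of frob_poly.
-/

namespace CM11
open Polynomial WeierstrassCurve

variable {p : ℕ} [Fact p.Prime] {L : Type} [Field L] [Algebra (ZMod p) L] [DecidableEq L]
  {A B : ZMod p}

theorem frob_count (hp : 3 < p) (hd : 4 * A ^ 3 + 27 * B ^ 2 ≠ 0) (S : FF p (ff p A B) L)
    {G : (EL L A B).Point} (hG : At G (S.ι X) S.s) (Fr : L →ₐ[ZMod p] L)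
    (hFr : ∀ x, Fr x = x ^ p) :
    Ht S (Affine.Point.map (W' := WW p A B) Fr G - G) (NA p A B + 1) := by
  obtain ⟨g, a, b, hg, hcop, hN, hD, hdeg⟩ := frob_poly (A := A) (B := B) hp hd
  have h2 := g9_two (p := p) hp
  have hodd := g9_odd (p := p) hp
  have hV := el_sh (L := L) (A := A) (B := B) h2 hd
  have h1 := at_map (K := L) Fr hG
  have h3 := at_neg hV hG
  rw [hFr, hFr] at h1
  have hlt : 1 < p := (Fact.out : p.Prime).one_lt
  have hD0 : S.ι X ^ p - S.ι X ≠ 0 := by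
    rw [← map_pow, ← map_sub]
    intro h
    rw [← map_zero S.ι] at h
    exact FiniteField.X_pow_card_sub_X_ne_zero (ZMod p) hlt (S.inj h)
  have hx : S.ι X ^ p ≠ S.ι X := fun h => hD0 (by rw [h, sub_self])
  set m := (S.s ^ p + S.s) / (S.ι X ^ p - S.ι X) with hm
  have hslope : m * (S.ι X ^ p - S.ι X) = S.s ^ p - -S.s := by
    rw [hm, div_mul_cancel₀ _ hD0]
    ring
  have h4 := at_add hV h1 h3 hx hslope
  rw [← sub_eq_add_neg] at h4
  obtain ⟨hx0, hx1⟩ := at_xRep h4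
  have hsp : S.s ^ p = S.s * S.ι (ff p A B ^ (p / 2)) := by
    rw [map_pow, ← S.ssq, ← pow_mul, ← pow_succ', hodd]
  have hkey : (m ^ 2 - S.ι X ^ p - S.ι X) * S.ι ((X ^ p - X) ^ 2) =
      S.ι (ff p A B * (ff p A B ^ (p / 2) + 1) ^ 2 - (X ^ p + X) * (X ^ p - X) ^ 2) := by
    have e1 : m ^ 2 * (S.ι X ^ p - S.ι X) ^ 2 = S.s ^ 2 * (S.ι (ff p A B ^ (p / 2)) + 1) ^ 2 := by
      rw [← mul_pow, hslope, hsp]
      ring
    rw [S.ssq] at e1
    simp only [map_pow, map_sub, map_mul, map_add, map_one] at e1 ⊢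
    linear_combination e1
  refine ⟨a, b, ⟨hcop, ?_⟩, hdeg⟩
  rw [hx0, hx1, one_mul]
  rw [hN, hD, map_mul, map_mul] at hkey
  have hgne : S.ι g ≠ 0 := by
    intro h
    rw [← map_zero S.ι] at h
    exact hg (S.inj h)
  exact mul_left_cancel₀ hgne (by linear_combination hkey)

end CM11
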