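import Pool.Agent.Lib.MP_34a732_nt.Vel
import Pool.Agent.Lib.MP_34a732_nt.G8

/-!
Module GA: heights, poles, differentials of the points given by explicit functions.
-/

namespace CM11
open Polynomial WeierstrassCurve

variable {p : ℕ} [Fact p.Prime] {L : Type} [Field L] [Algebra (ZMod p) L]
  [DecidableEq L] {A B : ZMod p}

theorem ga_C {f : (ZMod p)[X]} (S : FF p f L) (c : ZMod p) :
    S.ι (C c) = algebraMap (ZMod p) L c := S.ι.commutes c

theorem ga_sub {f : (ZMod p)[X]} (S : FF p f L) (c : ZMod p) :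
    S.ι X - algebraMap (ZMod p) L c ≠ 0 := by
  have h : S.ι X - algebraMap (ZMod p) L c = S.ι (X - C c) := by
    rw [map_sub, ga_C]
  rw [h]
  intro h0
  exact X_sub_C_ne_zero c (S.inj (by rw [h0, map_zero]))

theorem ga_deg : (ff p A B).natDegree = 3 := by
  unfold ff
  compute_degree!

theorem s_ne (S : FF p (ff p A B) L) : S.s ≠ 0 := by
  intro h
  have h1 := S.ssq
  rw [h] at h1
  have h2 : ff p A B = 0 := S.inj (by rw [← h1]; simp)
  have h3 := ga_deg (p := p) (A := A) (B := B)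
  rw [h2] at h3
  simp at h3

theorem ga_s (S : FF p (ff p A B) L) :
    S.s ^ 2 = (S.ι X) ^ 3 + algebraMap (ZMod p) L A * S.ι X + algebraMap (ZMod p) L B := by
  rw [S.ssq]
  unfold ff
  rw [map_add, map_add, map_mul, map_pow, ga_C, ga_C]

theorem gen_exists (h2 : (2 : ZMod p) ≠ 0) (hd : 4 * A ^ 3 + 27 * B ^ 2 ≠ 0)
    (S : FF p (ff p A B) L) : ∃ G : (EL L A B).Point, IsGen S G := by
  refine at_mk (el_sh h2 hd) ?_
  rw [el_a4, el_a6]
  exact ga_s S

theorem ga_DX {f : (ZMod p)[X]} (S : FF p f L) : S.D (S.ι X) = 1 := by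
  rw [S.Dι]; simp

theorem ga_DC {f : (ZMod p)[X]} (S : FF p f L) (c : ZMod p) :
    S.D (algebraMap (ZMod p) L c) = 0 := S.D.map_algebraMap c

theorem gen_props (h2 : (2 : ZMod p) ≠ 0) (hd : 4 * A ^ 3 + 27 * B ^ 2 ≠ 0)
    (S : FF p (ff p A B) L) {G : (EL L A B).Point} (hG : IsGen S G) :
    Od S G ∧ Ht S G 1 ∧ Pole S G ∧ mu S.D G * S.s = 1 := by
  have hr : Rep S G X 1 := by
    refine ⟨isCoprime_one_right, ?_⟩
    obtain ⟨h0, h1⟩ := at_xRep hG
    rw [h0, h1]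
    simp
  refine ⟨(od_xy h2 hd S hG).2 ⟨S.σι X, S.σs⟩, ⟨X, 1, hr, by simp⟩, ⟨X, 1, hr, by simp⟩, ?_⟩
  rw [mu_at hG, ga_DX, div_mul_cancel₀ _ (s_ne S)]

theorem vel_props (h2 : (2 : ZMod p) ≠ 0) (hd : 4 * A ^ 3 + 27 * B ^ 2 ≠ 0)
    (S : FF p (ff p A B) L) {P : (EL L A B).Point} {x0 t0 u0 κ : ZMod p} (hu : u0 ≠ 0)
    (hκ : κ ≠ 0) (hP : IsVel S P x0 t0 u0 κ) :
    Od S P ∧ Ht S P 3 ∧ Pole S P ∧ mu S.D P * S.s = algebraMap (ZMod p) L κ := by
  obtain ⟨T, hT⟩ : ∃ T, T = S.ι X := ⟨_, rfl⟩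
  obtain ⟨a0, ha0⟩ : ∃ a, a = algebraMap (ZMod p) L x0 := ⟨_, rfl⟩
  obtain ⟨a1, ha1⟩ : ∃ a, a = algebraMap (ZMod p) L t0 := ⟨_, rfl⟩
  obtain ⟨a2, ha2⟩ : ∃ a, a = algebraMap (ZMod p) L u0 := ⟨_, rfl⟩
  obtain ⟨k, hk⟩ : ∃ a, a = algebraMap (ZMod p) L κ := ⟨_, rfl⟩
  have hk0 : k ≠ 0 := by rw [hk]; exact (_root_.map_ne_zero _).2 hκ
  have hd0 : T - a0 ≠ 0 := by rw [hT, ha0]; exact ga_sub S x0
  have hP' : At P (vX T a0 a1 a2 / k ^ 2) (S.s * vY T a0 a1 a2 / k ^ 3) := by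
    rw [hT, ha0, ha1, ha2, hk]; exact hP
  have hs := s_ne S
  -- sigma
  have sC : ∀ c : ZMod p, S.σ (algebraMap (ZMod p) L c) = algebraMap (ZMod p) L c :=
    fun c => S.σ.commutes c
  have hσT : S.σ T = T := by rw [hT]; exact S.σι X
  have hσX : S.σ (vX T a0 a1 a2) = vX T a0 a1 a2 := by
    unfold vX
    simp only [map_add, map_div₀, map_sub, map_pow, hσT, ha0, ha1, ha2, sC]
  have hσY : S.σ (vY T a0 a1 a2) = vY T a0 a1 a2 := by
    unfold vY
    simp only [map_sub, map_div₀, map_mul, map_pow, map_one, map_ofNat, hσT, ha0, ha1, ha2, sC]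
  have hσk : S.σ k = k := by rw [hk]; exact sC κ
  have hod : Od S P := by
    refine (od_xy h2 hd S hP').2 ⟨?_, ?_⟩
    · rw [map_div₀, map_pow, hσX, hσk]
    · rw [map_div₀, map_mul, map_pow, hσY, hσk, S.σs]
      ring
  -- representation
  have hdeg1 : (X * (X - C x0) ^ 2 + C t0 * (X - C x0) + C u0 : (ZMod p)[X]).natDegree = 3 := by
    compute_degree!
  have hdeg2 : (C (κ ^ 2) * (X - C x0) ^ 2 : (ZMod p)[X]).natDegree = 2 := by
    rw [natDegree_C_mul (pow_ne_zero _ hκ), natDegree_pow, natDegree_X_sub_C]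
  have hcop : IsCoprime (X * (X - C x0) ^ 2 + C t0 * (X - C x0) + C u0 : (ZMod p)[X])
      (C (κ ^ 2) * (X - C x0) ^ 2) := by
    have hκ2 : (κ ^ 2) ≠ 0 := pow_ne_zero 2 hκ
    have hun : IsCoprime (X * (X - C x0) ^ 2 + C t0 * (X - C x0) + C u0 : (ZMod p)[X])
        (C (κ ^ 2)) :=
      ⟨0, C (κ ^ 2)⁻¹, by rw [← C_mul, inv_mul_cancel₀ hκ2, zero_mul, zero_add, C_1]⟩
    have h1 : IsCoprime (X * (X - C x0) ^ 2 + C t0 * (X - C x0) + C u0 : (ZMod p)[X]) (X - C x0) := by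
      have h3 : IsCoprime (C u0 : (ZMod p)[X]) (X - C x0) :=
        ⟨C u0⁻¹, 0, by rw [← C_mul, inv_mul_cancel₀ hu, zero_mul, add_zero, C_1]⟩
      have h4 := h3.add_mul_right_left (X * (X - C x0) + C t0)
      have e : C u0 + (X * (X - C x0) + C t0) * (X - C x0) =
          (X * (X - C x0) ^ 2 + C t0 * (X - C x0) + C u0 : (ZMod p)[X]) := by ring
      rwa [e] at h4
    exact hun.mul_right h1.pow_right
  have hrep : Rep S P (X * (X - C x0) ^ 2 + C t0 * (X - C x0) + C u0)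
      (C (κ ^ 2) * (X - C x0) ^ 2) := by
    refine ⟨hcop, ?_⟩
    obtain ⟨h0, h1⟩ := at_xRep hP'
    rw [h0, h1]
    simp only [map_add, map_mul, map_pow, map_sub, ga_C, ← hT, ← ha0, ← ha1, ← ha2, ← hk]
    unfold vX
    field_simp
  refine ⟨hod, ⟨_, _, hrep, by rw [hdeg1, hdeg2]; rfl⟩, ⟨_, _, hrep, ?_⟩, ?_⟩
  · refine degree_lt_degree ?_
    rw [hdeg1, hdeg2]; norm_num
  · -- differential
    have hYne : vY T a0 a1 a2 ≠ 0 := by
      intro h0
      have h3 : S.ι ((X - C x0) ^ 3 - C t0 * (X - C x0) - 2 * C u0) = 0 := by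
        simp only [map_add, map_mul, map_pow, map_sub, map_ofNat, ga_C, ← hT, ← ha0, ← ha1, ← ha2]
        have : (T - a0) ^ 3 - a1 * (T - a0) - 2 * a2 = vY T a0 a1 a2 * (T - a0) ^ 3 := by
          unfold vY
          field_simp
        rw [this, h0, zero_mul]
      have h4 : ((X - C x0) ^ 3 - C t0 * (X - C x0) - 2 * C u0 : (ZMod p)[X]) = 0 :=
        S.inj (by rw [h3, map_zero])
      have h5 : ((X - C x0) ^ 3 - C t0 * (X - C x0) - 2 * C u0 : (ZMod p)[X]).natDegree = 3 := by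
        compute_degree!
      rw [h4] at h5
      simp at h5
    have hDT : S.D T = 1 := by rw [hT]; exact ga_DX S
    have hD0 : S.D a0 = 0 := by rw [ha0]; exact ga_DC S x0
    have hD1 : S.D a1 = 0 := by rw [ha1]; exact ga_DC S t0
    have hD2 : S.D a2 = 0 := by rw [ha2]; exact ga_DC S u0
    have hDk : S.D k = 0 := by rw [hk]; exact ga_DC S κ
    obtain ⟨W, hW⟩ : ∃ W, W = (T - a0)⁻¹ := ⟨_, rfl⟩
    have hWm : W * (T - a0) = 1 := by rw [hW]; exact inv_mul_cancel₀ hd0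
    have hDW : S.D W = -W ^ 2 := by
      have h6 := congrArg S.D hWm
      rw [S.D.leibniz, map_sub, hDT, hD0, S.D.map_one_eq_zero] at h6
      simp only [smul_eq_mul, sub_zero, mul_one] at h6
      have h7 : S.D W = S.D W * (W * (T - a0)) := by rw [hWm, mul_one]
      rw [h7]
      linear_combination W * h6
    have hvX : vX T a0 a1 a2 = T + a1 * W + a2 * W ^ 2 := by
      unfold vX; rw [hW]; field_simp
    have hvY : vY T a0 a1 a2 = 1 - a1 * W ^ 2 - 2 * a2 * W ^ 3 := by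
      unfold vY; rw [hW]; field_simp
    have hDX : S.D (vX T a0 a1 a2) = vY T a0 a1 a2 := by
      rw [hvX, hvY]
      rw [map_add, map_add, S.D.leibniz, S.D.leibniz, S.D.leibniz_pow, hDT, hD1, hD2, hDW]
      simp only [smul_eq_mul, nsmul_eq_mul, mul_zero, add_zero]
      push_cast
      ring
    have hDk2 : S.D ((k ^ 2)⁻¹) = 0 := by
      have : (k ^ 2)⁻¹ = algebraMap (ZMod p) L ((κ ^ 2)⁻¹) := by
        rw [map_inv₀, map_pow, hk]
      rw [this]; exact ga_DC S _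
    have hD : S.D (vX T a0 a1 a2 / k ^ 2) = vY T a0 a1 a2 / k ^ 2 := by
      rw [div_eq_mul_inv, S.D.leibniz, hDX, hDk2]
      simp only [smul_eq_mul, mul_zero, zero_add]
      ring
    rw [mu_at hP', hD, ← hk]
    field_simp

end CM11
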