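import Pool.Agent.Lib.MP_34a732_nt.Vel

/-!
Module GB: the points conj(α) G and α G exist and add up to G (α + conj(α) = 1).
PROOFS.  ab_exists, aa_exists: the curve equation.  With d = t - x0, s^2 = f(t) and κ^4, κ^6:
f(t) (d^3 - t0 d - 2 u0)^2 = (t d^2 + t0 d + u0)^3 + A κ^4 (t d^2 + t0 d + u0) d^4 + B κ^6 d^6, a polynomial identity in t over Z[r]/(r^2+11)
(2κ = 1 ± r, so multiply by 64).  Reduce with linear_combination (cofactor) * hr (hr: (algebraMap r)^2 = -11); the cofactor can be computed by division by r^2+11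
(monic in r) with any small script, or let grind / linear_combination (exp := 1) find it.
aa_add_ab: at_add for Aa and Ab, slope S.s * m with m = (44 - 4r - 2t) / (3 (t-12)(t-10+2r)); check m·(X_Aa - X_Ab) = vY-difference, m^2 f(t) - X_Aa - X_Ab = t, and the
y-coordinate; X_Aa ≠ X_Ab: it is a nonzero fraction (for instance from the slope relation, or leading coefficient κ^-2 ≠ conj(κ)^-2; 1/κ^2 - 1/κbar^2 = ± r/9·..., nonzero).
All identities are rational in t, polynomial in r: field_simp and then linear_combination (..) * hr.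
-/

namespace CM11
open Polynomial WeierstrassCurve

theorem gb_id1 {L : Type} [Field L] {T ρ : L} (hρ : ρ ^ 2 = -11) (h2 : (2 : L) ≠ 0) :
    (T ^ 3 + 48 * (ρ - 5) * T + 112 * (11 - 4 * ρ)) *
      ((T - 12) ^ 3 - 96 * (4 + ρ) * (T - 12) - 2 * (64 * (5 + 8 * ρ))) ^ 2 =
    (T * (T - 12) ^ 2 + 96 * (4 + ρ) * (T - 12) + 64 * (5 + 8 * ρ)) ^ 3 +
      48 * (ρ - 5) * ((1 - ρ) / 2) ^ 4 *
        (T * (T - 12) ^ 2 + 96 * (4 + ρ) * (T - 12) + 64 * (5 + 8 * ρ)) * (T - 12) ^ 4 +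
      112 * (11 - 4 * ρ) * ((1 - ρ) / 2) ^ 6 * (T - 12) ^ 6 := by
  obtain ⟨k, hk⟩ : ∃ k, k = (1 - ρ) / 2 := ⟨_, rfl⟩
  have hρk : ρ = 1 - 2 * k := by rw [hk]; field_simp; ring
  rw [← hk]
  have hk2 : k ^ 2 = k - 3 := by
    have h4 : (4 : L) * k ^ 2 = 4 * (k - 3) := by
      rw [hρk] at hρ; linear_combination hρ
    have h40 : (4 : L) ≠ 0 := by
      have : (4 : L) = 2 * 2 := by norm_num
      rw [this]; exact mul_ne_zero h2 h2
    exact mul_left_cancel₀ h40 h4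
  rw [hρk]
  linear_combination ((96) * T ^ 7 * k ^ 3 + (288) * T ^ 7 * k ^ 2 + (-864) * T ^ 7 + (-896) * T ^ 6 * k ^ 5
       + (-1680) * T ^ 6 * k ^ 4 + (-5904) * T ^ 6 * k ^ 3 + (-14688) * T ^ 6 * k ^ 2
       + (3024) * T ^ 6 * k + (47088) * T ^ 6 + (64512) * T ^ 5 * k ^ 5
       + (102528) * T ^ 5 * k ^ 4 + (125568) * T ^ 5 * k ^ 3 + (324864) * T ^ 5 * k ^ 2
       + (-51840) * T ^ 5 * k + (-1137024) * T ^ 5 + (-1935360) * T ^ 4 * k ^ 5
       + (-2621184) * T ^ 4 * k ^ 4 + (-802560) * T ^ 4 * k ^ 3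
       + (-4944384) * T ^ 4 * k ^ 2 + (-2536704) * T ^ 4 * k + (18047232) * T ^ 4
       + (30965760) * T ^ 3 * k ^ 5 + (36237312) * T ^ 3 * k ^ 4
       + (-7925760) * T ^ 3 * k ^ 3 + (68124672) * T ^ 3 * k ^ 2 + (95440896) * T ^ 3 * k
       + (-238104576) * T ^ 3 + (-278691840) * T ^ 2 * k ^ 5
       + (-288976896) * T ^ 2 * k ^ 4 + (143659008) * T ^ 2 * k ^ 3
       + (-730570752) * T ^ 2 * k ^ 2 + (-1260638208) * T ^ 2 * k + (2472284160) * T ^ 2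
       + (1337720832) * T * k ^ 5 + (1276674048) * T * k ^ 4 + (-687439872) * T * k ^ 3
       + (4506845184) * T * k ^ 2 + (7418511360) * T * k + (-15572238336) * T
       + (-2675441664) * k ^ 5 + (-2468413440) * k ^ 4 + (844038144) * k ^ 3
       + (-11370627072) * k ^ 2 + (-15941173248) * k + (41357869056)) * hk2

theorem gb_id2 {L : Type} [Field L] {T ρ : L} (hρ : ρ ^ 2 = -11) (h2 : (2 : L) ≠ 0) :
    (T ^ 3 + 48 * (ρ - 5) * T + 112 * (11 - 4 * ρ)) *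
      ((T - (10 - 2 * ρ)) ^ 3 - (-144 * (1 + ρ)) * (T - (10 - 2 * ρ)) - 2 * (-1728)) ^ 2 =
    (T * (T - (10 - 2 * ρ)) ^ 2 + (-144 * (1 + ρ)) * (T - (10 - 2 * ρ)) + (-1728)) ^ 3 +
      48 * (ρ - 5) * ((1 + ρ) / 2) ^ 4 *
        (T * (T - (10 - 2 * ρ)) ^ 2 + (-144 * (1 + ρ)) * (T - (10 - 2 * ρ)) + (-1728)) *
          (T - (10 - 2 * ρ)) ^ 4 +
      112 * (11 - 4 * ρ) * ((1 + ρ) / 2) ^ 6 * (T - (10 - 2 * ρ)) ^ 6 := by
  obtain ⟨k, hk⟩ : ∃ k, k = (1 + ρ) / 2 := ⟨_, rfl⟩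
  have hρk : ρ = 2 * k - 1 := by rw [hk]; field_simp; ring
  rw [← hk]
  have hk2 : k ^ 2 = k - 3 := by
    have h4 : (4 : L) * k ^ 2 = 4 * (k - 3) := by
      rw [hρk] at hρ; linear_combination hρ
    have h40 : (4 : L) ≠ 0 := by
      have : (4 : L) = 2 * 2 := by norm_num
      rw [this]; exact mul_ne_zero h2 h2
    exact mul_left_cancel₀ h40 h4
  rw [hρk]
  linear_combination ((-96) * T ^ 7 * k ^ 3 + (192) * T ^ 7 * k ^ 2 + (480) * T ^ 7 * k + (-96) * T ^ 7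
       + (896) * T ^ 6 * k ^ 5 + (-3088) * T ^ 6 * k ^ 4 + (8048) * T ^ 6 * k ^ 3
       + (-3424) * T ^ 6 * k ^ 2 + (-27568) * T ^ 6 * k + (11504) * T ^ 6
       + (21504) * T ^ 5 * k ^ 6 + (-106368) * T ^ 5 * k ^ 5 + (185088) * T ^ 5 * k ^ 4
       + (-200832) * T ^ 5 * k ^ 3 + (-134016) * T ^ 5 * k ^ 2 + (685056) * T ^ 5 * k
       + (-413568) * T ^ 5 + (215040) * T ^ 4 * k ^ 7 + (-1601280) * T ^ 4 * k ^ 6
       + (4135680) * T ^ 4 * k ^ 5 + (-4642560) * T ^ 4 * k ^ 4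
       + (1363968) * T ^ 4 * k ^ 3 + (5664000) * T ^ 4 * k ^ 2 + (-8854272) * T ^ 4 * k
       + (6352128) * T ^ 4 + (1146880) * T ^ 3 * k ^ 8 + (-11694080) * T ^ 3 * k ^ 7
       + (45137920) * T ^ 3 * k ^ 6 + (-81797120) * T ^ 3 * k ^ 5
       + (62476288) * T ^ 3 * k ^ 4 + (24825856) * T ^ 3 * k ^ 3
       + (-88104960) * T ^ 3 * k ^ 2 + (63700992) * T ^ 3 * k + (-36384768) * T ^ 3
       + (3440640) * T ^ 2 * k ^ 9 + (-44888064) * T ^ 2 * k ^ 8
       + (236310528) * T ^ 2 * k ^ 7 + (-640942080) * T ^ 2 * k ^ 6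
       + (915492864) * T ^ 2 * k ^ 5 + (-453746688) * T ^ 2 * k ^ 4
       + (-553881600) * T ^ 2 * k ^ 3 + (859963392) * T ^ 2 * k ^ 2
       + (-308219904) * T ^ 2 * k + (-995328) * T ^ 2 + (5505024) * T * k ^ 10
       + (-87785472) * T * k ^ 9 + (589627392) * T * k ^ 8 + (-2167504896) * T * k ^ 7
       + (4679172096) * T * k ^ 6 + (-5515542528) * T * k ^ 5 + (1524400128) * T * k ^ 4
       + (4739530752) * T * k ^ 3 + (-6054248448) * T * k ^ 2 + (2293235712) * T * k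
       + (119439360) * T + (3670016) * k ^ 11 + (-69271552) * k ^ 10 + (567345152) * k ^ 9
       + (-2645229568) * k ^ 8 + (7692222464) * k ^ 7 + (-14008975360) * k ^ 6
       + (13839630336) * k ^ 5 + (-424673280) * k ^ 4 + (-17839816704) * k ^ 3
       + (23043833856) * k ^ 2 + (-13424984064) * k + (3392077824)) * hk2

/-- from the polynomial identity to the curve equation -/
theorem gb_frac {L : Type} [Field L] {T s x0 t0 u0 k a b : L} (hk : k ≠ 0) (hd : T - x0 ≠ 0)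
    (hs : s ^ 2 = T ^ 3 + a * T + b)
    (hid : (T ^ 3 + a * T + b) * ((T - x0) ^ 3 - t0 * (T - x0) - 2 * u0) ^ 2 =
      (T * (T - x0) ^ 2 + t0 * (T - x0) + u0) ^ 3 +
        a * k ^ 4 * (T * (T - x0) ^ 2 + t0 * (T - x0) + u0) * (T - x0) ^ 4 +
        b * k ^ 6 * (T - x0) ^ 6) :
    (s * vY T x0 t0 u0 / k ^ 3) ^ 2 =
      (vX T x0 t0 u0 / k ^ 2) ^ 3 + a * (vX T x0 t0 u0 / k ^ 2) + b := by
  obtain ⟨d, hdd⟩ : ∃ d, d = T - x0 := ⟨_, rfl⟩
  have hX : vX T x0 t0 u0 = (T * d ^ 2 + t0 * d + u0) / d ^ 2 := by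
    unfold vX
    rw [← hdd] at hd ⊢
    field_simp
  have hY : vY T x0 t0 u0 = (d ^ 3 - t0 * d - 2 * u0) / d ^ 3 := by
    unfold vY
    rw [← hdd] at hd ⊢
    field_simp
  rw [← hdd] at hd hid
  rw [← hs] at hid
  rw [hX, hY]
  obtain ⟨NX, hNX⟩ : ∃ N, N = T * d ^ 2 + t0 * d + u0 := ⟨_, rfl⟩
  obtain ⟨NY, hNY⟩ : ∃ N, N = d ^ 3 - t0 * d - 2 * u0 := ⟨_, rfl⟩
  rw [← hNX, ← hNY] at hid ⊢
  field_simp
  linear_combination hid

variable {p : ℕ} [Fact p.Prime] {L : Type} [Field L] [Algebra (ZMod p) L]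
  [DecidableEq L] {r : ZMod p}

theorem gb_sub {f : (ZMod p)[X]} (S : FF p f L) (c : ZMod p) :
    S.ι X - algebraMap (ZMod p) L c ≠ 0 := by
  have h : S.ι X - algebraMap (ZMod p) L c = S.ι (X - C c) := by
    rw [map_sub]
    congr 1
    exact (S.ι.commutes c).symm
  rw [h]
  intro h0
  exact X_sub_C_ne_zero c (S.inj (by rw [h0, map_zero]))

theorem gb_s {A B : ZMod p} (S : FF p (ff p A B) L) :
    S.s ^ 2 = (S.ι X) ^ 3 + algebraMap (ZMod p) L A * S.ι X + algebraMap (ZMod p) L B := by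
  rw [S.ssq]
  have hA : S.ι (C A) = algebraMap (ZMod p) L A := S.ι.commutes A
  have hB : S.ι (C B) = algebraMap (ZMod p) L B := S.ι.commutes B
  unfold ff
  rw [map_add, map_add, map_mul, map_pow, hA, hB]

theorem ab_exists (hp : 11 < p) (hr : r ^ 2 = -11) (S : FF p (ff p (A11 r) (B11 r)) L) :
    ∃ P : (EL L (A11 r) (B11 r)).Point, IsAb S r P := by
  obtain ⟨h2, h3, h11, hd, hA, hB, hκ, hκ', hu, hu', hy⟩ := consts hp hr
  have hρ : (algebraMap (ZMod p) L r) ^ 2 = -11 := by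
    rw [← map_pow, hr, map_neg, map_ofNat]
  have h2L : (2 : L) ≠ 0 := by
    have := (algebraMap (ZMod p) L).injective.ne h2
    rwa [map_ofNat, map_zero] at this
  refine at_mk (el_sh h2 hd) ?_
  rw [el_a4, el_a6]
  refine gb_frac ?_ (gb_sub S 12) (gb_s S) ?_
  · have := (algebraMap (ZMod p) L).injective.ne hκ'
    rwa [map_zero] at this
  · have key := gb_id1 (T := S.ι X) hρ h2L
    unfold A11 B11
    simpa only [map_sub, map_add, map_mul, map_div₀, map_ofNat, map_one] using key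

theorem aa_exists (hp : 11 < p) (hr : r ^ 2 = -11) (S : FF p (ff p (A11 r) (B11 r)) L) :
    ∃ P : (EL L (A11 r) (B11 r)).Point, IsAa S r P := by
  obtain ⟨h2, h3, h11, hd, hA, hB, hκ, hκ', hu, hu', hy⟩ := consts hp hr
  have hρ : (algebraMap (ZMod p) L r) ^ 2 = -11 := by
    rw [← map_pow, hr, map_neg, map_ofNat]
  have h2L : (2 : L) ≠ 0 := by
    have := (algebraMap (ZMod p) L).injective.ne h2
    rwa [map_ofNat, map_zero] at this
  refine at_mk (el_sh h2 hd) ?_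
  rw [el_a4, el_a6]
  refine gb_frac ?_ (gb_sub S (10 - 2 * r)) (gb_s S) ?_
  · have := (algebraMap (ZMod p) L).injective.ne hκ
    rwa [map_zero] at this
  · have key := gb_id2 (T := S.ι X) hρ h2L
    unfold A11 B11
    simpa only [map_sub, map_add, map_mul, map_div₀, map_ofNat, map_one, map_neg] using key

end CM11
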