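import Pool.Agent.Lib.MP_34a732_nt.GB

/-!
Module GC: α G + conj(α) G = G.  With k = (1+r)/2, k^2 = k - 3, d1 = T - 12, d2 = T - 12 + 4k.
-/

namespace CM11
open Polynomial WeierstrassCurve

section ids
variable {L : Type} [Field L] {T k : L}

theorem gc_id1 (hk : k ^ 2 = k - 3) :
    (48 - 8 * k - 2 * T) * ((T * (T - 12 + 4 * k) ^ 2 - 288 * k * (T - 12 + 4 * k) - 1728) *
        (1 - k) ^ 2 * (T - 12) ^ 2 -
      (T * (T - 12) ^ 2 + 96 * (3 + 2 * k) * (T - 12) + 64 * (16 * k - 3)) *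
        k ^ 2 * (T - 12 + 4 * k) ^ 2) =
    ((T - 12 + 4 * k) ^ 3 + 288 * k * (T - 12 + 4 * k) + 3456) * (1 - k) ^ 3 * (T - 12) ^ 3 -
      ((T - 12) ^ 3 - 96 * (3 + 2 * k) * (T - 12) - 128 * (16 * k - 3)) * k ^ 3 *
        (T - 12 + 4 * k) ^ 3 := by
  linear_combination ((2) * T ^ 6 * k + (-1) * T ^ 6 + (24) * T ^ 5 * k ^ 2 + (-156) * T ^ 5 * k + (72) * T ^ 5
       + (96) * T ^ 4 * k ^ 3 + (-1392) * T ^ 4 * k ^ 2 + (4944) * T ^ 4 * k
       + (-2064) * T ^ 4 + (128) * T ^ 3 * k ^ 4 + (-5824) * T ^ 3 * k ^ 3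
       + (31360) * T ^ 3 * k ^ 2 + (-82176) * T ^ 3 * k + (29952) * T ^ 3
       + (-13824) * T ^ 2 * k ^ 4 + (106752) * T ^ 2 * k ^ 3 + (-356352) * T ^ 2 * k ^ 2
       + (787968) * T ^ 2 * k + (-241920) * T ^ 2 + (-12288) * T * k ^ 5
       + (172032) * T * k ^ 4 + (-697344) * T * k ^ 3 + (2138112) * T * k ^ 2
       + (-4396032) * T * k + (1161216) * T + (16384) * k ^ 5 + (-270336) * k ^ 4
       + (1069056) * k ^ 3 + (-5640192) * k ^ 2 + (11612160) * k + (-2985984)) * hk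

theorem gc_id2 (hk : k ^ 2 = k - 3) :
    (T ^ 3 + 48 * (2 * k - 6) * T + 112 * (15 - 8 * k)) * (48 - 8 * k - 2 * T) ^ 2 =
    9 * T * (T - 12) ^ 2 * (T - 12 + 4 * k) ^ 2 +
      (T * (T - 12 + 4 * k) ^ 2 - 288 * k * (T - 12 + 4 * k) - 1728) * (1 - k) ^ 2 *
        (T - 12) ^ 2 +
      (T * (T - 12) ^ 2 + 96 * (3 + 2 * k) * (T - 12) + 64 * (16 * k - 3)) * k ^ 2 *
        (T - 12 + 4 * k) ^ 2 := by
  linear_combination ((-2) * T ^ 5 + (-16) * T ^ 4 * k + (96) * T ^ 4 + (-32) * T ^ 3 * k ^ 2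
       + (672) * T ^ 3 * k + (-2496) * T ^ 3 + (384) * T ^ 2 * k ^ 2
       + (-16384) * T ^ 2 * k + (44288) * T ^ 2 + (-3072) * T * k ^ 3
       + (-11264) * T * k ^ 2 + (214528) * T * k + (-411648) * T + (20480) * k ^ 3
       + (121856) * k ^ 2 + (-992256) * k + (1373184)) * hk

theorem gc_id3 (hk : k ^ 2 = k - 3) :
    (48 - 8 * k - 2 * T) * ((T * (T - 12 + 4 * k) ^ 2 - 288 * k * (T - 12 + 4 * k) - 1728) *
        (1 - k) ^ 2 - 9 * T * (T - 12 + 4 * k) ^ 2) -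
      ((T - 12 + 4 * k) ^ 3 + 288 * k * (T - 12 + 4 * k) + 3456) * (1 - k) ^ 3 * (T - 12) =
    27 * (T - 12) * (T - 12 + 4 * k) ^ 3 := by
  linear_combination ((1) * T ^ 4 * k + (-4) * T ^ 4 + (12) * T ^ 3 * k ^ 2 + (-96) * T ^ 3 * k + (192) * T ^ 3
       + (48) * T ^ 2 * k ^ 3 + (-336) * T ^ 2 * k ^ 2 + (2496) * T ^ 2 * k
       + (-4224) * T ^ 2 + (64) * T * k ^ 4 + (-256) * T * k ^ 3 + (4416) * T * k ^ 2
       + (-32640) * T * k + (46080) * T + (-768) * k ^ 4 + (3840) * k ^ 3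
       + (-56064) * k ^ 2 + (205056) * k + (-207360)) * hk

end ids

variable {p : ℕ} [Fact p.Prime] {L : Type} [Field L] [Algebra (ZMod p) L]
  [DecidableEq L] {r : ZMod p}

theorem aa_add_ab (hp : 11 < p) (hr : r ^ 2 = -11) (S : FF p (ff p (A11 r) (B11 r)) L)
    {G Aa Ab : (EL L (A11 r) (B11 r)).Point} (hG : IsGen S G) (ha : IsAa S r Aa)
    (hb : IsAb S r Ab) : Aa + Ab = G := by
  obtain ⟨h2, h3, h11, hd, hA, hB, hκ, hκ', hu, hu', hy⟩ := consts hp hr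
  obtain ⟨κ, hκd⟩ : ∃ κ : ZMod p, κ = (1 + r) / 2 := ⟨_, rfl⟩
  have hrκ : r = 2 * κ - 1 := by rw [hκd]; field_simp; ring
  have hκ2 : κ ^ 2 = κ - 3 := by
    have h4 : (4 : ZMod p) * κ ^ 2 = 4 * (κ - 3) := by
      rw [hrκ] at hr; linear_combination hr
    have h40 : (4 : ZMod p) ≠ 0 := by
      have : (4 : ZMod p) = 2 * 2 := by norm_num
      rw [this]; exact mul_ne_zero h2 h2
    exact mul_left_cancel₀ h40 h4
  have hκ'' : (1 - r) / 2 = 1 - κ := by rw [hκd]; field_simp; ring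
  have hκ0 : κ ≠ 0 := by rw [hκd]; exact hκ
  have hκ10 : 1 - κ ≠ 0 := by rw [← hκ'']; exact hκ'
  obtain ⟨k, hkd⟩ : ∃ k : L, k = algebraMap (ZMod p) L κ := ⟨_, rfl⟩
  have hk2 : k ^ 2 = k - 3 := by
    rw [hkd, ← map_pow, hκ2, map_sub, map_ofNat]
  have hk0 : k ≠ 0 := by
    have := (algebraMap (ZMod p) L).injective.ne hκ0
    rwa [map_zero, ← hkd] at this
  have hk10 : 1 - k ≠ 0 := by
    have := (algebraMap (ZMod p) L).injective.ne hκ10
    rwa [map_zero, map_sub, map_one, ← hkd] at this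
  have hkk : k * (1 - k) = 3 := by linear_combination -hk2
  have h3L : (3 : L) ≠ 0 := by rw [← hkk]; exact mul_ne_zero hk0 hk10
  obtain ⟨T, hT⟩ : ∃ T, T = S.ι X := ⟨_, rfl⟩
  have hd1 : T - 12 ≠ 0 := by
    have := gb_sub S (12 : ZMod p)
    rwa [map_ofNat, ← hT] at this
  have hd2 : T - 12 + 4 * k ≠ 0 := by
    have := gb_sub S (12 - 4 * κ : ZMod p)
    rw [map_sub, map_mul, map_ofNat, map_ofNat, ← hT, ← hkd] at this
    intro h
    apply this
    linear_combination h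
  have hs := gb_s S
  rw [← hT] at hs
  have eA : algebraMap (ZMod p) L (A11 r) = 48 * (2 * k - 6) := by
    unfold A11
    rw [hrκ, map_mul, map_sub, map_sub, map_mul, map_ofNat, map_ofNat, map_ofNat, map_one, ← hkd]
    ring
  have eB : algebraMap (ZMod p) L (B11 r) = 112 * (15 - 8 * k) := by
    unfold B11
    rw [hrκ, map_mul, map_sub, map_mul, map_sub, map_mul, map_ofNat, map_ofNat, map_ofNat,
      map_ofNat, map_one, ← hkd]
    ring
  rw [eA, eB] at hs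
  have hρk : algebraMap (ZMod p) L r = 2 * k - 1 := by
    rw [hrκ, map_sub, map_mul, map_ofNat, map_one, hkd]
  have hκk : algebraMap (ZMod p) L ((1 + r) / 2) = k := by rw [← hκd, hkd]
  have hκk' : algebraMap (ZMod p) L ((1 - r) / 2) = 1 - k := by rw [hκ'', map_sub, map_one, hkd]
  obtain ⟨d1, hd1e⟩ : ∃ z, z = T - 12 := ⟨_, rfl⟩
  obtain ⟨d2, hd2e⟩ : ∃ z, z = T - 12 + 4 * k := ⟨_, rfl⟩
  rw [← hd1e] at hd1
  rw [← hd2e] at hd2
  obtain ⟨NA, hNA⟩ : ∃ z, z = T * d2 ^ 2 - 288 * k * d2 - 1728 := ⟨_, rfl⟩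
  obtain ⟨NB, hNB⟩ : ∃ z, z = T * d1 ^ 2 + 96 * (3 + 2 * k) * d1 + 64 * (16 * k - 3) := ⟨_, rfl⟩
  obtain ⟨MA, hMA⟩ : ∃ z, z = d2 ^ 3 + 288 * k * d2 + 3456 := ⟨_, rfl⟩
  obtain ⟨MB, hMB⟩ : ∃ z, z = d1 ^ 3 - 96 * (3 + 2 * k) * d1 - 128 * (16 * k - 3) := ⟨_, rfl⟩
  have i1 := gc_id1 (T := T) hk2
  have i2 := gc_id2 (T := T) hk2
  have i3 := gc_id3 (T := T) hk2
  obtain ⟨M, hM⟩ : ∃ z, z = 48 - 8 * k - 2 * T := ⟨_, rfl⟩
  rw [← hd2e, ← hd1e, ← hNA, ← hNB, ← hMA, ← hMB, ← hM] at i1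
  rw [← hd2e, ← hd1e, ← hNA, ← hNB, ← hM] at i2
  rw [← hd2e, ← hd1e, ← hNA, ← hMA, ← hM] at i3
  have h9L : (9 : L) ≠ 0 := by
    have : (9 : L) = 3 * 3 := by norm_num
    rw [this]; exact mul_ne_zero h3L h3L
  have h27L : (27 : L) ≠ 0 := by
    have : (27 : L) = 3 * 9 := by norm_num
    rw [this]; exact mul_ne_zero h3L h9L
  have hki : 1 / k = (1 - k) / 3 := by field_simp; linear_combination -hkk
  have hki' : 1 / (1 - k) = k / 3 := by field_simp; linear_combination -hkk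
  -- coordinates in terms of k
  have ha' : At Aa (NA * (1 - k) ^ 2 / (9 * d2 ^ 2))
      (S.s * (MA * (1 - k) ^ 3) / (27 * d2 ^ 3)) := by
    have h := ha
    unfold IsAa IsVel at h
    have e1 : algebraMap (ZMod p) L (10 - 2 * r) = 12 - 4 * k := by
      rw [map_sub, map_mul, hρk, map_ofNat, map_ofNat]; ring
    have e2 : algebraMap (ZMod p) L (-144 * (1 + r)) = -288 * k := by
      rw [map_mul, map_add, hρk, map_neg, map_ofNat, map_one]; ring
    have e3 : algebraMap (ZMod p) L (-1728) = -1728 := by rw [map_neg, map_ofNat]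
    rw [e1, e2, e3, hκk, ← hT] at h
    have hd2' : T - (12 - 4 * k) = d2 := by rw [hd2e]; ring
    have ex : vX T (12 - 4 * k) (-288 * k) (-1728) = NA / d2 ^ 2 := by
      unfold vX
      rw [hNA, hd2']
      field_simp
      ring
    have ey : vY T (12 - 4 * k) (-288 * k) (-1728) = MA / d2 ^ 3 := by
      unfold vY
      rw [hMA, hd2']
      field_simp
      ring
    have fx : NA / d2 ^ 2 / k ^ 2 = NA * (1 - k) ^ 2 / (9 * d2 ^ 2) := by
      have : NA / d2 ^ 2 / k ^ 2 = NA / d2 ^ 2 * (1 / k) ^ 2 := by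
        field_simp
      rw [this, hki]
      field_simp
      ring
    have fy : S.s * (MA / d2 ^ 3) / k ^ 3 =
        S.s * (MA * (1 - k) ^ 3) / (27 * d2 ^ 3) := by
      have : S.s * (MA / d2 ^ 3) / k ^ 3 =
          S.s * (MA / d2 ^ 3) * (1 / k) ^ 3 := by
        field_simp
      rw [this, hki]
      field_simp
      ring
    rwa [ex, ey, fx, fy] at h
  have hb' : At Ab (NB * k ^ 2 / (9 * d1 ^ 2)) (S.s * (MB * k ^ 3) / (27 * d1 ^ 3)) := by
    have h := hb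
    unfold IsAb IsVel at h
    have e1 : algebraMap (ZMod p) L 12 = 12 := map_ofNat _ _
    have e2 : algebraMap (ZMod p) L (96 * (4 + r)) = 96 * (3 + 2 * k) := by
      rw [map_mul, map_add, hρk, map_ofNat, map_ofNat]; ring
    have e3 : algebraMap (ZMod p) L (64 * (5 + 8 * r)) = 64 * (16 * k - 3) := by
      rw [map_mul, map_add, map_mul, hρk, map_ofNat, map_ofNat, map_ofNat]; ring
    rw [e1, e2, e3, hκk', ← hT] at h
    have ex : vX T 12 (96 * (3 + 2 * k)) (64 * (16 * k - 3)) = NB / d1 ^ 2 := by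
      unfold vX
      rw [hNB, ← hd1e]
      field_simp
    have ey : vY T 12 (96 * (3 + 2 * k)) (64 * (16 * k - 3)) = MB / d1 ^ 3 := by
      unfold vY
      rw [hMB, ← hd1e]
      field_simp
      ring
    have fx : NB / d1 ^ 2 / (1 - k) ^ 2 = NB * k ^ 2 / (9 * d1 ^ 2) := by
      have : NB / d1 ^ 2 / (1 - k) ^ 2 = NB / d1 ^ 2 * (1 / (1 - k)) ^ 2 := by
        field_simp
      rw [this, hki']
      field_simp
      ring
    have fy : S.s * (MB / d1 ^ 3) / (1 - k) ^ 3 = S.s * (MB * k ^ 3) / (27 * d1 ^ 3) := by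
      have : S.s * (MB / d1 ^ 3) / (1 - k) ^ 3 =
          S.s * (MB / d1 ^ 3) * (1 / (1 - k)) ^ 3 := by
        field_simp
      rw [this, hki']
      field_simp
      ring
    rwa [ex, ey, fx, fy] at h
  have hne : NA * (1 - k) ^ 2 / (9 * d2 ^ 2) ≠ NB * k ^ 2 / (9 * d1 ^ 2) := by
    intro h
    rw [div_eq_div_iff (mul_ne_zero h9L (pow_ne_zero _ hd2)) (mul_ne_zero h9L (pow_ne_zero _ hd1))] at h
    -- polynomial identity, evaluate at 12
    have hQ : S.ι (((X * (X - 12 + 4 * C κ) ^ 2 - 288 * C κ * (X - 12 + 4 * C κ) - 1728) *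
        (1 - C κ) ^ 2) * (9 * (X - 12) ^ 2) -
        ((X * (X - 12) ^ 2 + 96 * (3 + 2 * C κ) * (X - 12) + 64 * (16 * C κ - 3)) * (C κ) ^ 2) *
          (9 * (X - 12 + 4 * C κ) ^ 2)) = 0 := by
      have hC : S.ι (C κ) = k := by rw [hkd]; exact S.ι.commutes κ
      simp only [map_sub, map_mul, map_add, map_pow, map_ofNat, map_one, hC, ← hT]
      rw [← hd2e, ← hd1e, ← hNA, ← hNB]
      linear_combination h
    have h0 := S.inj (hQ.trans (map_zero _).symm)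
    have h1 := congrArg (Polynomial.eval (12 : ZMod p)) h0
    simp only [eval_sub, eval_mul, eval_add, eval_pow, eval_X, eval_C, eval_ofNat, eval_one,
      eval_zero] at h1
    have h5 : (64 * (5 + 8 * r)) * κ ^ 2 * (9 * (4 * κ) ^ 2) = 0 := by
      rw [hrκ]
      linear_combination -h1
    have h90 : (9 : ZMod p) ≠ 0 := by
      have : (9 : ZMod p) = 3 * 3 := by norm_num
      rw [this]; exact mul_ne_zero h3 h3
    have h40 : (4 : ZMod p) ≠ 0 := by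
      have : (4 : ZMod p) = 2 * 2 := by norm_num
      rw [this]; exact mul_ne_zero h2 h2
    exact mul_ne_zero (mul_ne_zero hu (pow_ne_zero _ hκ0))
      (mul_ne_zero h90 (pow_ne_zero _ (mul_ne_zero h40 hκ0))) h5
  have hm : S.s * (M / (3 * d1 * d2)) *
      (NA * (1 - k) ^ 2 / (9 * d2 ^ 2) - NB * k ^ 2 / (9 * d1 ^ 2)) =
      S.s * (MA * (1 - k) ^ 3) / (27 * d2 ^ 3) -
        S.s * (MB * k ^ 3) / (27 * d1 ^ 3) := by
    field_simp
    linear_combination 27 * S.s * i1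
  have hsum := at_add (el_sh h2 hd) ha' hb' hne hm
  have hX : (S.s * (M / (3 * d1 * d2))) ^ 2 -
      NA * (1 - k) ^ 2 / (9 * d2 ^ 2) - NB * k ^ 2 / (9 * d1 ^ 2) = T := by
    rw [mul_pow, hs]
    field_simp
    linear_combination 9 * i2
  rw [hX] at hsum
  have hY : S.s * (M / (3 * d1 * d2)) *
      (NA * (1 - k) ^ 2 / (9 * d2 ^ 2) - T) -
      S.s * (MA * (1 - k) ^ 3) / (27 * d2 ^ 3) = S.s := by
    field_simp
    linear_combination 27 * S.s * i3
  rw [hY, hT] at hsum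
  exact at_ext hsum hG

end CM11
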