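import Pool.Agent.Lib.MP_34a732_nt.G1

/-!
Module G6: the invariant differential is additive.
PROOF of mu_add.  KEY LEMMA: for At P x y put ω = mu D P = D x / y.  Then D x = ω y and 2 D y = (3x^2+a) ω, a = a₄ (D a₄ = D (algebraMap A) = 0, D.map_algebraMap).
If y ≠ 0: 2y Dy = (3x^2+a) Dx (apply D to the curve equation; D.leibniz, D.leibniz_pow).  If y = 0: then (3x^2+a) Dx = 0 and
3x^2+a ≠ 0 (disc ≠ 0; as x^3+ax+b = 0), so Dx = 0, ω = 0 (division by 0), D y = D 0 = 0.
Conversely if Dx = ω y, 2Dy = (3x^2+a) ω for some ω then mu D P = ω (y = 0: then D y = 0, so (3x^2+a) ω = 0, ω = 0 = mu).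
Addition, x ≠ x': m (x-x') = y - y', X = m^2 - x - x', Y = m(x - X) - y.  D m = (Dy - Dy' - m (Dx-Dx')) / (x-x').
Claim D X = (ω+ω') Y and 2 D Y = (3X^2+a)(ω+ω'): polynomial identities modulo the two curve equations:
after multiplication by powers of x - x' and substitution of D x = ω y, D x' = ω' y', 2Dy = .., 2 Dy' = ..; treat ω and ω' separately (linear).
So mu (P+Q) = ω + ω' by the converse.  Doubling (y ≠ 0): m 2y = 3x^2+a, X = m^2-2x: D X = 2 ω Y, 2 D Y = 2 ω (3X^2+a).
Q = -P: mu(-P) = -mu P, mu 0 = 0.  Zero points: trivial.  Points with x = x': at_x_eq.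
-/

namespace CM11
open Polynomial WeierstrassCurve

variable {p : ℕ} [Fact p.Prime] {L : Type} [Field L] [Algebra (ZMod p) L] [DecidableEq L]
  {A B : ZMod p}

omit [DecidableEq L] in
theorem g6_eqn (h2 : (2 : ZMod p) ≠ 0) (hd : 4 * A ^ 3 + 27 * B ^ 2 ≠ 0)
    {P : (EL L A B).Point} {x y : L} (h : At P x y) :
    y ^ 2 = x ^ 3 + algebraMap (ZMod p) L A * x + algebraMap (ZMod p) L B :=
  at_eqn (el_sh h2 hd) h

omit [DecidableEq L] in
theorem g6_diff (D : Derivation (ZMod p) L L) {x y : L}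
    (h : y ^ 2 = x ^ 3 + algebraMap (ZMod p) L A * x + algebraMap (ZMod p) L B) :
    2 * y * D y = (3 * x ^ 2 + algebraMap (ZMod p) L A) * D x := by
  have h1 := congrArg D h
  rw [map_add, map_add, D.leibniz_pow, D.leibniz_pow, D.leibniz, D.map_algebraMap,
    D.map_algebraMap] at h1
  simp only [smul_eq_mul, nsmul_eq_mul] at h1
  push_cast at h1
  norm_num at h1
  linear_combination h1

omit [DecidableEq L] in
theorem g6_ne (h2 : (2 : ZMod p) ≠ 0) (hd : 4 * A ^ 3 + 27 * B ^ 2 ≠ 0) {x : L}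
    (h : (0 : L) ^ 2 = x ^ 3 + algebraMap (ZMod p) L A * x + algebraMap (ZMod p) L B) :
    3 * x ^ 2 + algebraMap (ZMod p) L A ≠ 0 := by
  intro h0
  have hS := (el_sh (L := L) h2 hd).disc
  rw [el_a4, el_a6] at hS
  apply hS
  have ha : algebraMap (ZMod p) L A = -3 * x ^ 2 := by linear_combination h0
  have hb : algebraMap (ZMod p) L B = 2 * x ^ 3 := by
    rw [ha] at h
    linear_combination -h
  rw [ha, hb]
  ring

omit [DecidableEq L] in
theorem g6_key (h2 : (2 : ZMod p) ≠ 0) (hd : 4 * A ^ 3 + 27 * B ^ 2 ≠ 0)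
    (D : Derivation (ZMod p) L L) {P : (EL L A B).Point} {x y : L} (h : At P x y) :
    D x = mu D P * y ∧ 2 * D y = (3 * x ^ 2 + algebraMap (ZMod p) L A) * mu D P := by
  have he := g6_eqn h2 hd h
  have hf := g6_diff D he
  rw [mu_at h]
  by_cases hy : y = 0
  · subst hy
    have h3 := g6_ne h2 hd he
    have h4 : D x = 0 := by
      rw [mul_zero, zero_mul] at hf
      rcases mul_eq_zero.mp hf.symm with h5 | h5
      · exact absurd h5 h3
      · exact h5
    rw [h4]
    simp
  · refine ⟨by field_simp, ?_⟩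
    rw [mul_div_assoc', eq_div_iff hy]
    linear_combination hf

omit [DecidableEq L] in
theorem g6_conv (h2 : (2 : ZMod p) ≠ 0) (hd : 4 * A ^ 3 + 27 * B ^ 2 ≠ 0)
    (D : Derivation (ZMod p) L L) {P : (EL L A B).Point} {x y w : L} (h : At P x y)
    (h1 : D x = w * y) (h3 : 2 * D y = (3 * x ^ 2 + algebraMap (ZMod p) L A) * w) :
    mu D P = w := by
  have he := g6_eqn h2 hd h
  rw [mu_at h]
  by_cases hy : y = 0
  · subst hy
    have h4 := g6_ne h2 hd he
    rw [map_zero, mul_zero] at h3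
    rcases mul_eq_zero.mp h3.symm with h5 | h5
    · exact absurd h5 h4
    · rw [h5, div_zero]
  · rw [h1, mul_div_assoc, div_self hy, mul_one]

theorem mu_neg' (h2 : (2 : ZMod p) ≠ 0) (hd : 4 * A ^ 3 + 27 * B ^ 2 ≠ 0)
    (D : Derivation (ZMod p) L L) (P : (EL L A B).Point) : mu D (-P) = - mu D P := by
  by_cases hP : P = 0
  · subst hP
    rw [neg_zero, mu_zero, neg_zero]
  · obtain ⟨x, y, hxy⟩ := exists_at hP
    have hn := at_neg (el_sh h2 hd) hxy
    rw [mu_at hxy, mu_at hn, div_neg]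

theorem g6_add_ne (h2 : (2 : ZMod p) ≠ 0) (hd : 4 * A ^ 3 + 27 * B ^ 2 ≠ 0)
    (D : Derivation (ZMod p) L L) {P Q : (EL L A B).Point} {x y x' y' : L} (h : At P x y)
    (h' : At Q x' y') (hx : x ≠ x') : mu D (P + Q) = mu D P + mu D Q := by
  have hd0 : x - x' ≠ 0 := sub_ne_zero.mpr hx
  obtain ⟨m, hm⟩ : ∃ m : L, m * (x - x') = y - y' := ⟨(y - y') / (x - x'), by field_simp⟩
  have e1 := g6_eqn h2 hd h
  have e2 := g6_eqn h2 hd h'
  obtain ⟨k1, k2⟩ := g6_key h2 hd D h
  obtain ⟨k3, k4⟩ := g6_key h2 hd D h'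
  have hK : m * (y + y') = x ^ 2 + x * x' + x' ^ 2 + algebraMap (ZMod p) L A := by
    apply mul_left_cancel₀ hd0
    linear_combination (y + y') * hm + e1 - e2
  have hDm : D m * (x - x') + m * (D x - D x') = D y - D y' := by
    have := congrArg D hm
    rw [D.leibniz, map_sub, map_sub] at this
    simp only [smul_eq_mul] at this
    linear_combination this
  have hadd := at_add (el_sh h2 hd) h h' hx hm
  set X := m ^ 2 - x - x' with hX
  set Y := m * (x - X) - y with hY
  set a := algebraMap (ZMod p) L A with ha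
  set w := mu D P with hw
  set w' := mu D Q with hw'
  have h2Dm : 2 * D m = w * (2 * x + x' - m ^ 2) + w' * (2 * x' + x - m ^ 2) := by
    apply mul_left_cancel₀ hd0
    linear_combination 2 * hDm - 2 * m * k1 + 2 * m * k3 + k2 - k4 + (w + w') * m * hm +
      (w' - w) * hK
  have hDX : D X = (w + w') * Y := by
    have e3 : D X = 2 * m * D m - D x - D x' := by
      rw [hX, map_sub, map_sub, D.leibniz_pow]
      simp only [smul_eq_mul, nsmul_eq_mul]
      push_cast
      norm_num
      ring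
    rw [e3, k1, k3, hY]
    linear_combination m * h2Dm + (w + w') * m * hX - w' * hm
  have hDY : 2 * D Y = (3 * X ^ 2 + a) * (w + w') := by
    have e3 : D Y = D m * (x - X) + m * (D x - D X) - D y := by
      rw [hY, map_sub, D.leibniz, map_sub]
      simp only [smul_eq_mul]
      ring
    have hE : 3 * X ^ 2 + a = -2 * m * Y + (X - x) * (X - x') := by
      rw [hY]
      linear_combination (-1) * hK + m * hm + 2 * (x - X) * hX
    rw [e3, hDX, k1, hE]
    linear_combination (x - X) * h2Dm - k2 + (w + w') * (x - X) * hX +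
      w * (-(x - x') * hX + hK - m * hm)
  exact g6_conv h2 hd D hadd hDX hDY

theorem g6_dbl (h2 : (2 : ZMod p) ≠ 0) (hd : 4 * A ^ 3 + 27 * B ^ 2 ≠ 0)
    (D : Derivation (ZMod p) L L) {P : (EL L A B).Point} {x y : L} (h : At P x y)
    (hy : y ≠ 0) : mu D (P + P) = mu D P + mu D P := by
  have h22 : (2 : L) ≠ 0 := (el_sh (L := L) h2 hd).two
  have hd0 : 2 * y ≠ 0 := mul_ne_zero h22 hy
  obtain ⟨m, hm⟩ : ∃ m : L, m * (2 * y) = 3 * x ^ 2 + (EL L A B).a₄ :=
    ⟨(3 * x ^ 2 + (EL L A B).a₄) / (2 * y), by field_simp⟩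
  have hadd := at_dbl (el_sh h2 hd) h hy hm
  rw [el_a4] at hm
  have e1 := g6_eqn h2 hd h
  obtain ⟨k1, k2⟩ := g6_key h2 hd D h
  have hDm : D m * (2 * y) + m * (2 * D y) = 6 * x * D x := by
    have := congrArg D hm
    rw [D.leibniz, map_add, D.map_algebraMap] at this
    have e2 : D (2 * y) = 2 * D y := by
      have : (2 : L) * y = y + y := by ring
      rw [this, map_add]; ring
    have e3 : D (3 * x ^ 2) = 6 * x * D x := by
      have : (3 : L) * x ^ 2 = x ^ 2 + x ^ 2 + x ^ 2 := by ring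
      rw [this, map_add, map_add, D.leibniz_pow]
      simp only [smul_eq_mul, nsmul_eq_mul]
      push_cast
      norm_num
      ring
    rw [e2, e3] at this
    simp only [smul_eq_mul] at this
    linear_combination this
  set X := m ^ 2 - 2 * x with hX
  set Y := m * (x - X) - y with hY
  set a := algebraMap (ZMod p) L A with ha
  set w := mu D P with hw
  have h2Dm : D m = w * (3 * x - m ^ 2) := by
    apply mul_left_cancel₀ hd0
    linear_combination hDm - m * k2 + 6 * x * k1 + w * m * hm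
  have hDX : D X = (w + w) * Y := by
    have e3 : D X = 2 * m * D m - 2 * D x := by
      have : X = m ^ 2 - (x + x) := by rw [hX]; ring
      rw [this, map_sub, map_add, D.leibniz_pow]
      simp only [smul_eq_mul, nsmul_eq_mul]
      push_cast
      norm_num
      ring
    rw [e3, k1, hY]
    linear_combination 2 * m * h2Dm + 2 * w * m * hX
  have hDY : 2 * D Y = (3 * X ^ 2 + a) * (w + w) := by
    have e3 : D Y = D m * (x - X) + m * (D x - D X) - D y := by
      rw [hY, map_sub, D.leibniz, map_sub]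
      simp only [smul_eq_mul]
      ring
    have hE : 3 * X ^ 2 + a = -2 * m * Y + (X - x) * (X - x) := by
      rw [hY]
      linear_combination (-1) * hm + 2 * (x - X) * hX
    rw [e3, hDX, k1, hE]
    linear_combination 2 * (x - X) * h2Dm - k2 + 2 * w * (x - X) * hX + w * hm
  exact g6_conv h2 hd D hadd hDX hDY

theorem mu_add (h2 : (2 : ZMod p) ≠ 0) (hd : 4 * A ^ 3 + 27 * B ^ 2 ≠ 0)
    (D : Derivation (ZMod p) L L) (P Q : (EL L A B).Point) :
    mu D (P + Q) = mu D P + mu D Q := by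
  by_cases hP : P = 0
  · rw [hP, zero_add, mu_zero, zero_add]
  by_cases hQ : Q = 0
  · rw [hQ, add_zero, mu_zero, add_zero]
  obtain ⟨x, y, hxy⟩ := exists_at hP
  obtain ⟨x', y', hxy'⟩ := exists_at hQ
  by_cases hx : x = x'
  · subst hx
    rcases at_x_eq (el_sh h2 hd) hxy hxy' with h | h
    · subst h
      by_cases hy : y = 0
      · subst hy
        have h3 := at_add_self (el_sh h2 hd) hxy
        rw [h3, mu_zero, mu_at hxy, div_zero, add_zero]
      · exact g6_dbl h2 hd D hxy hy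
    · subst h
      rw [mu_neg' h2 hd, add_neg_cancel, add_neg_cancel, mu_zero]
  · exact g6_add_ne h2 hd D hxy hxy' hx

theorem mu_zsmul (h2 : (2 : ZMod p) ≠ 0) (hd : 4 * A ^ 3 + 27 * B ^ 2 ≠ 0)
    (D : Derivation (ZMod p) L L) (P : (EL L A B).Point) (n : ℤ) : mu D (n • P) = n * mu D P := by
  have h := map_zsmul (AddMonoidHom.mk' (mu D) (mu_add (A := A) (B := B) h2 hd D)) n P
  rw [zsmul_eq_mul] at h
  exact h

/-- if `mu = 0` then `D x = 0` -/
theorem mu_eq_zero (h2 : (2 : ZMod p) ≠ 0) (hd : 4 * A ^ 3 + 27 * B ^ 2 ≠ 0)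
    (D : Derivation (ZMod p) L L) {P : (EL L A B).Point} {x y : L} (h : At P x y)
    (h0 : mu D P = 0) : D x = 0 := by
  rw [(g6_key h2 hd D h).1, h0, zero_mul]

end CM11
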