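import Pool.Agent.Lib.MP_34a732_nt.G8

/-!
Module GE: inseparable points of height p, second part.
PROOF of insep_c.  f = ff p A B, g = f.comp (C c X + C e) (a cubic).  z = y / (ι g)^((p-1)/2) (g ≠ 0): z^2 = ι g, σ z = -z.  w = z / s (s ≠ 0): σ w = w, w^2 ι f = ι g.  By S.fix w ι b = ι a, b ≠ 0, and
divide by the gcd: a, b coprime; a^2 f = b^2 g (injectivity).  b^2 | f (IsCoprime.dvd_of_dvd_mul), f squarefree (disc ≠ 0: f and f' coprime; or: if b has positive degree then ...), so b is a constant.  a^2 | g = f.comp(linear), also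
squarefree (comp with the invertible linear polynomial; derivative (g) = c f'.comp), so a is a constant.  So f(cX+e) = w0 f(X), w0 = (constant)^2 =: v^2.  Coefficients:
X^3: c^3 = v^2.  X^2: 3 c^2 e = 0, e = 0.  X: c A = v^2 A, c = v^2.  1: B = v^2 B, v^2 = 1.  So c = 1.
-/

namespace CM11
open Polynomial WeierstrassCurve

variable {p : ℕ} [Fact p.Prime] {L : Type} [Field L] [Algebra (ZMod p) L]
  {A B : ZMod p}

theorem ge_sep (hd : 4 * A ^ 3 + 27 * B ^ 2 ≠ 0) : (ff p A B).Separable := by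
  have c4 : (C 4 : (ZMod p)[X]) = 4 := map_ofNat C 4
  have c27 : (C 27 : (ZMod p)[X]) = 27 := map_ofNat C 27
  have c3 : (C 3 : (ZMod p)[X]) = 3 := map_ofNat C 3
  refine ⟨C (4 * A ^ 3 + 27 * B ^ 2)⁻¹ * (-9 * (2 * C A * X - 3 * C B)),
    C (4 * A ^ 3 + 27 * B ^ 2)⁻¹ * (4 * C A ^ 2 + 3 * X * (2 * C A * X - 3 * C B)), ?_⟩
  have h1 : C (4 * A ^ 3 + 27 * B ^ 2)⁻¹ * (4 * C A ^ 3 + 27 * C B ^ 2) = (1 : (ZMod p)[X]) := by
    have h2 : (4 * C A ^ 3 + 27 * C B ^ 2 : (ZMod p)[X]) = C (4 * A ^ 3 + 27 * B ^ 2) := by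
      simp only [map_add, map_mul, map_pow, c4, c27]
    rw [h2, ← C_mul, inv_mul_cancel₀ hd, C_1]
  have hder : derivative (ff p A B) = 3 * X ^ 2 + C A := by
    unfold ff
    simp only [derivative_add, derivative_X_pow, derivative_C_mul, derivative_X, derivative_C]
    push_cast
    norm_num
    rw [c3]
  rw [hder]
  unfold ff
  linear_combination h1

theorem ge_sep' (hd : 4 * A ^ 3 + 27 * B ^ 2 ≠ 0) {c : ZMod p} (hc : c ≠ 0) (e : ZMod p) :
    ((ff p A B).comp (C c * X + C e)).Separable := by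
  obtain ⟨a, b, hab⟩ := ge_sep (p := p) hd
  refine ⟨a.comp (C c * X + C e), C c⁻¹ * b.comp (C c * X + C e), ?_⟩
  have h1 := congrArg (fun q : (ZMod p)[X] => q.comp (C c * X + C e)) hab
  simp only [add_comp, mul_comp, one_comp] at h1
  rw [derivative_comp]
  have h2 : derivative (C c * X + C e : (ZMod p)[X]) = C c := by simp
  have h3 : (C c⁻¹ * C c : (ZMod p)[X]) = 1 := by
    rw [← C_mul, inv_mul_cancel₀ hc, C_1]
  rw [h2]
  linear_combination h1 + (b.comp (C c * X + C e)) *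
    (derivative (ff p A B)).comp (C c * X + C e) * h3

theorem ge_comp (c e : ZMod p) : (ff p A B).comp (C c * X + C e) =
    C (c ^ 3) * X ^ 3 + C (3 * c ^ 2 * e) * X ^ 2 + C (3 * c * e ^ 2 + A * c) * X +
      C (e ^ 3 + A * e + B) := by
  have c3 : (C 3 : (ZMod p)[X]) = 3 := map_ofNat C 3
  unfold ff
  simp only [add_comp, mul_comp, pow_comp, X_comp, C_comp, map_add, map_mul, map_pow, c3]
  ring

theorem ge_isUnit_C {a : (ZMod p)[X]} (h : IsUnit a) : ∃ u : ZMod p, u ≠ 0 ∧ a = C u := by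
  rw [Polynomial.isUnit_iff] at h
  obtain ⟨u, hu, rfl⟩ := h
  exact ⟨u, hu.ne_zero, rfl⟩

theorem ge_reduce {a0 b0 : (ZMod p)[X]} (hb0 : b0 ≠ 0) :
    ∃ G a b : (ZMod p)[X], G ≠ 0 ∧ a0 = G * a ∧ b0 = G * b ∧ IsCoprime a b := by
  classical
  have hgcd : EuclideanDomain.gcd a0 b0 ≠ 0 := by
    intro h
    exact hb0 (EuclideanDomain.gcd_eq_zero_iff.mp h).2
  obtain ⟨a', ha'⟩ := EuclideanDomain.gcd_dvd_left a0 b0
  obtain ⟨b', hb'⟩ := EuclideanDomain.gcd_dvd_right a0 b0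
  obtain ⟨x, y, h1⟩ : ∃ x y, EuclideanDomain.gcd a0 b0 = a0 * x + b0 * y :=
    ⟨_, _, EuclideanDomain.gcd_eq_gcd_ab a0 b0⟩
  generalize EuclideanDomain.gcd a0 b0 = G at *
  refine ⟨G, a', b', hgcd, ha', hb', x, y, ?_⟩
  apply mul_left_cancel₀ hgcd
  rw [ha', hb'] at h1
  linear_combination -h1

theorem insep_c (hp : 3 < p) (hd : 4 * A ^ 3 + 27 * B ^ 2 ≠ 0) (hA : A ≠ 0) (hB : B ≠ 0)
    (S : FF p (ff p A B) L) {c e : ZMod p} (hc : c ≠ 0) {y : L}
    (hy : y ^ 2 = S.ι ((ff p A B).comp (C c * X + C e)) ^ p) (hσ : S.σ y = -y) :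
    c = 1 ∧ e = 0 := by
  have hP : p.Prime := Fact.out
  have h3 : (3 : ZMod p) ≠ 0 := by
    intro h0
    have h1 : ((3 : ℕ) : ZMod p) = 0 := by exact_mod_cast h0
    rw [ZMod.natCast_eq_zero_iff] at h1
    have := Nat.le_of_dvd (by norm_num) h1
    omega
  obtain ⟨k, hk⟩ : ∃ k, p = 2 * k + 1 := by
    rcases hP.eq_two_or_odd' with h | h
    · omega
    · exact h
  have hfsep := ge_sep (p := p) hd
  have hgsep := ge_sep' (p := p) (A := A) (B := B) hd hc e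
  have hcomp := ge_comp (p := p) (A := A) (B := B) c e
  obtain ⟨g, hg⟩ : ∃ g, g = (ff p A B).comp (C c * X + C e) := ⟨_, rfl⟩
  rw [← hg] at hy hgsep hcomp
  have hg0 : S.ι g ≠ 0 := by
    rw [Ne, map_eq_zero_iff _ S.inj]
    exact hgsep.ne_zero
  have hf0 : S.ι (ff p A B) ≠ 0 := by
    rw [Ne, map_eq_zero_iff _ S.inj]
    exact hfsep.ne_zero
  have hs0 : S.s ≠ 0 := by
    intro h0
    have := S.ssq
    rw [h0] at this
    exact hf0 (by rw [← this]; ring)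
  obtain ⟨w, hw1, hw2⟩ : ∃ w : L, S.σ w = w ∧ w ^ 2 * S.ι (ff p A B) = S.ι g := by
    refine ⟨y / (S.ι g) ^ k / S.s, ?_, ?_⟩
    · rw [map_div₀, map_div₀, map_pow, S.σι, S.σs, hσ]
      rw [neg_div, neg_div_neg_eq]
    · have hpk : (S.ι g) ^ p = (S.ι g) ^ (2 * k + 1) := congrArg _ hk
      rw [← S.ssq, div_pow, div_pow, hy, hpk]
      field_simp
      ring
  obtain ⟨a0, b0, hb0, hab0⟩ := S.fix w hw1
  obtain ⟨a, b, hab, hcop⟩ : ∃ a b : (ZMod p)[X], w * S.ι b = S.ι a ∧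
      IsCoprime a b := by
    obtain ⟨G, a', b', hG, ha', hb', hcop⟩ := ge_reduce (a0 := a0) hb0
    refine ⟨a', b', ?_, hcop⟩
    have h1 : S.ι G ≠ 0 := by
      rw [Ne, map_eq_zero_iff _ S.inj]
      exact hG
    apply mul_left_cancel₀ h1
    rw [ha', hb', map_mul, map_mul] at hab0
    linear_combination hab0
  have hpoly : a ^ 2 * (ff p A B) = b ^ 2 * g := by
    apply S.inj
    rw [map_mul, map_mul, map_pow, map_pow, ← hab, ← hw2]
    ring
  have hbu : IsUnit b := by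
    apply hfsep.squarefree b
    rw [← pow_two]
    apply (hcop.symm.pow (m := 2) (n := 2)).dvd_of_dvd_mul_left
    exact ⟨g, hpoly⟩
  have hau : IsUnit a := by
    apply hgsep.squarefree a
    rw [← pow_two]
    apply (hcop.pow (m := 2) (n := 2)).dvd_of_dvd_mul_left
    exact ⟨ff p A B, hpoly.symm⟩
  obtain ⟨u, hu, rfl⟩ := ge_isUnit_C hau
  obtain ⟨v, hv, rfl⟩ := ge_isUnit_C hbu
  rw [hcomp] at hpoly
  have key : ∀ n, (C u ^ 2 * (ff p A B)).coeff n = (C v ^ 2 * (C (c ^ 3) * X ^ 3 +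
      C (3 * c ^ 2 * e) * X ^ 2 + C (3 * c * e ^ 2 + A * c) * X + C (e ^ 3 + A * e + B))).coeff n :=
    fun n => by rw [hpoly]
  have c2 := key 2
  have c1 := key 1
  have c0 := key 0
  unfold ff at c0 c1 c2
  simp only [← C_pow, coeff_C_mul, coeff_add, coeff_X_pow, coeff_X, coeff_C] at c0 c1 c2
  norm_num at c0 c1 c2
  have he : e = 0 := by
    rcases c2 with h | ((h | h) | h)
    · exact absurd h hv
    · exact absurd h h3
    · exact absurd h hc
    · exact h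
  subst he
  have hu2 : u ^ 2 = v ^ 2 := by
    apply mul_right_cancel₀ hB
    linear_combination c0
  have hv2 : v ^ 2 ≠ 0 := pow_ne_zero _ hv
  refine ⟨?_, rfl⟩
  apply mul_left_cancel₀ (mul_ne_zero hv2 hA)
  rw [hu2] at c1
  linear_combination -c1

end CM11
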