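import Pool.Agent.Lib.MP_34a732_nt.G1

/-!
Definition of the explicit points.
-/

namespace CM11
open Polynomial WeierstrassCurve

variable {p : ℕ} [Fact p.Prime] {f : (ZMod p)[X]} {L : Type} [Field L] [Algebra (ZMod p) L]

/-- `t + t0/(t-x0) + u0/(t-x0)^2` -/
def vX (t x0 t0 u0 : L) : L := t + t0 / (t - x0) + u0 / (t - x0) ^ 2

/-- its derivative `1 - t0/(t-x0)^2 - 2 u0/(t-x0)^3` -/
def vY (t x0 t0 u0 : L) : L := 1 - t0 / (t - x0) ^ 2 - 2 * u0 / (t - x0) ^ 3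

/-- `P = (κ^(-2) vX, κ^(-3) s vY)` -/
def IsVel (S : FF p f L) {V : Affine L} (P : V.Point) (x0 t0 u0 κ : ZMod p) : Prop :=
  At P (vX (S.ι X) (algebraMap (ZMod p) L x0) (algebraMap (ZMod p) L t0)
      (algebraMap (ZMod p) L u0) / (algebraMap (ZMod p) L κ) ^ 2)
    (S.s * vY (S.ι X) (algebraMap (ZMod p) L x0) (algebraMap (ZMod p) L t0)
      (algebraMap (ZMod p) L u0) / (algebraMap (ZMod p) L κ) ^ 3)

/-- the generic point `(t, s)` -/
def IsGen (S : FF p f L) {V : Affine L} (G : V.Point) : Prop := At G (S.ι X) S.s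

/-- the point conj(α) G, for `α = (1+r)/2` -/
def IsAb (S : FF p f L) {V : Affine L} (r : ZMod p) (P : V.Point) : Prop :=
  IsVel S P 12 (96 * (4 + r)) (64 * (5 + 8 * r)) ((1 - r) / 2)

/-- the point α G -/
def IsAa (S : FF p f L) {V : Affine L} (r : ZMod p) (P : V.Point) : Prop :=
  IsVel S P (10 - 2 * r) (-144 * (1 + r)) (-1728) ((1 + r) / 2)

/-- the rational point of order three -/
def IsP0 {V : Affine L} (r : ZMod p) (P : V.Point) : Prop :=
  At P (algebraMap (ZMod p) L 12) (algebraMap (ZMod p) L (16 + 4 * r))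

/-- nonzero constants, for `r^2 = -11` and `p > 11` -/
theorem consts (hp : 11 < p) {r : ZMod p} (hr : r ^ 2 = -11) :
    (2 : ZMod p) ≠ 0 ∧ (3 : ZMod p) ≠ 0 ∧ (11 : ZMod p) ≠ 0 ∧
    4 * (A11 r) ^ 3 + 27 * (B11 r) ^ 2 ≠ 0 ∧ A11 r ≠ 0 ∧ B11 r ≠ 0 ∧ (1 + r) / 2 ≠ 0 ∧
    (1 - r) / 2 ≠ 0 ∧ 64 * (5 + 8 * r) ≠ 0 ∧ (-1728 : ZMod p) ≠ 0 ∧ 16 + 4 * r ≠ 0 := by
  have hP : p.Prime := Fact.out
  have key : ∀ n : ℕ, 0 < n → (∀ q, q.Prime → q ∣ n → q ≤ 11) → (n : ZMod p) ≠ 0 := by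
    intro n hn hq h0
    rw [ZMod.natCast_eq_zero_iff] at h0
    have := hq p hP h0
    omega
  have e2 : (2 : ZMod p) ≠ 0 := by
    have := key 2 (by norm_num) (fun q hq hd => by
      have := Nat.le_of_dvd (by norm_num) hd; omega)
    exact_mod_cast this
  have e3 : (3 : ZMod p) ≠ 0 := by
    have := key 3 (by norm_num) (fun q hq hd => by
      have := Nat.le_of_dvd (by norm_num) hd; omega)
    exact_mod_cast this
  have e7 : (7 : ZMod p) ≠ 0 := by
    have := key 7 (by norm_num) (fun q hq hd => by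
      have := Nat.le_of_dvd (by norm_num) hd; omega)
    exact_mod_cast this
  have e11 : (11 : ZMod p) ≠ 0 := by
    have := key 11 (by norm_num) (fun q hq hd => by
      have := Nat.le_of_dvd (by norm_num) hd; omega)
    exact_mod_cast this
  have m : ∀ a b c d : ℕ, (2 : ZMod p) ^ a * 3 ^ b * 7 ^ c * 11 ^ d ≠ 0 := fun a b c d =>
    mul_ne_zero (mul_ne_zero (mul_ne_zero (pow_ne_zero _ e2) (pow_ne_zero _ e3))
      (pow_ne_zero _ e7)) (pow_ne_zero _ e11)
  have h58 : (5 + 8 * r) ≠ 0 := fun h => m 0 6 0 0 (by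
    linear_combination (5 - 8 * r) * h + 64 * hr)
  refine ⟨e2, e3, e11, ?_, ?_, ?_, ?_, ?_, ?_, ?_, ?_⟩
  · have : 4 * (A11 r) ^ 3 + 27 * (B11 r) ^ 2 = -(2 ^ 8 * 3 ^ 6 * 7 ^ 0 * 11 ^ 0) * (5 + 8 * r) := by
      unfold A11 B11
      linear_combination (442368 * r - 1216512 : ZMod p) * hr
    rw [this]
    exact mul_ne_zero (neg_ne_zero.mpr (m _ _ _ _)) h58
  · unfold A11
    intro h
    exact m 6 3 0 0 (by linear_combination (-(r + 5)) * h + 48 * hr)
  · unfold B11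
    intro h
    exact m 4 3 1 1 (by linear_combination (11 + 4 * r) * h + 1792 * hr)
  · rw [div_ne_zero_iff]
    exact ⟨fun h => m 2 1 0 0 (by linear_combination (1 - r) * h + hr), e2⟩
  · rw [div_ne_zero_iff]
    exact ⟨fun h => m 2 1 0 0 (by linear_combination (1 + r) * h + hr), e2⟩
  · exact mul_ne_zero (by have := m 6 0 0 0; norm_num at this ⊢; exact this) h58
  · have := m 6 3 0 0
    norm_num at this ⊢
    exact this
  · intro h
    exact m 4 3 0 0 (by linear_combination (16 - 4 * r) * h + 16 * hr)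

end CM11
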