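import Pool.Agent.Lib.MP_34a732_nt.GD
import Pool.Agent.Lib.MP_34a732_nt.GE
import Pool.Agent.Lib.MP_34a732_nt.G6
import Pool.Agent.Lib.MP_34a732_nt.Vel

/-!
Module GF: an odd point of height p with a pole and with vanishing differential is ± Frobenius of the generic point.
-/

namespace CM11
open Polynomial WeierstrassCurve

variable {p : ℕ} [Fact p.Prime] {L : Type} [Field L] [Algebra (ZMod p) L]
  [DecidableEq L] {A B : ZMod p}

theorem gf_ht_zero (S : FF p (ff p A B) L) : Ht S (0 : (EL L A B).Point) 0 := by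
  refine ⟨1, 0, ⟨isCoprime_one_left, ?_⟩, by simp⟩
  rw [zero_xRep.1, zero_xRep.2]
  simp

theorem insep (hp : 3 < p) (hd : 4 * A ^ 3 + 27 * B ^ 2 ≠ 0) (hA : A ≠ 0) (hB : B ≠ 0)
    (S : FF p (ff p A B) L) {G : (EL L A B).Point} (hG : IsGen S G) (Fr : L →ₐ[ZMod p] L)
    (hFr : ∀ x, Fr x = x ^ p) {P : (EL L A B).Point} (hO : Od S P) (hH : Ht S P p)
    (hPole : Pole S P) (hmu : mu S.D P = 0) :
    P = Affine.Point.map (W' := WW p A B) Fr G ∨
      P = -Affine.Point.map (W' := WW p A B) Fr G := by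
  have hPr : p.Prime := Fact.out
  have h2 : (2 : ZMod p) ≠ 0 := by
    intro h
    have : ((2 : ℕ) : ZMod p) = 0 := by exact_mod_cast h
    rw [ZMod.natCast_eq_zero_iff] at this
    have := Nat.le_of_dvd (by norm_num) this
    omega
  have hP0 : P ≠ 0 := by
    rintro rfl
    have := ht_unique S hH (gf_ht_zero S)
    omega
  obtain ⟨x, y, hxy⟩ := exists_at hP0
  have hDx := mu_eq_zero h2 hd S.D hxy hmu
  obtain ⟨c, e, hc, hx⟩ := insep_x S hxy hH hPole hDx
  have hsh := el_sh (L := L) h2 hd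
  have heq := at_eqn hsh hxy
  rw [el_a4, el_a6] at heq
  have hσ := ((od_xy h2 hd S hxy).1 hO).2
  have hFA : ∀ a : ZMod p, (algebraMap (ZMod p) L a) = (algebraMap (ZMod p) L a) ^ p := by
    intro a
    rw [← map_pow, ZMod.pow_card]
  haveI : CharP L p := charP_of_injective_algebraMap (algebraMap (ZMod p) L).injective p
  have hy : y ^ 2 = S.ι ((ff p A B).comp (C c * X + C e)) ^ p := by
    rw [heq, hx]
    have h1 : S.ι ((ff p A B).comp (C c * X + C e)) =
        S.ι (C c * X + C e) ^ 3 + algebraMap (ZMod p) L A * S.ι (C c * X + C e) +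
          algebraMap (ZMod p) L B := by
      have hA' : S.ι (C A) = algebraMap (ZMod p) L A := S.ι.commutes A
      have hB' : S.ι (C B) = algebraMap (ZMod p) L B := S.ι.commutes B
      unfold ff
      rw [add_comp, add_comp, mul_comp, pow_comp, X_comp, C_comp, C_comp, map_add, map_add,
        map_mul, map_pow, hA', hB']
    rw [h1, add_pow_char, add_pow_char, mul_pow, ← hFA A, ← hFA B]
    ring
  obtain ⟨rfl, rfl⟩ := insep_c hp hd hA hB S hc hy hσ
  have hx' : x = S.ι X ^ p := by rw [hx]; simp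
  have hF := at_map (p := p) Fr hG
  rw [hFr, ← hx'] at hF
  exact at_x_eq hsh hF hxy

end CM11
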