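import Pool.Agent.Lib.MP_34a732_nt.T3

/-!
Module T4: the sign.
PROOF.  P0 from p0_exists, τ from tau_exists.  map Fr P0 = P0 (Fr (algebraMap c) = algebraMap c).  map τ (map Fr G) = map Fr (map τ G), since τ (Fr x) = τ (x^p) = (τ x)^p = Fr (τ x)
(Affine.Point.map_map, or at_map on coordinates), = map Fr (G + P0) = map Fr G + P0.  Apply map τ to h: m•(G+P0) + n•Ab = ε•(map Fr G + P0) (tau_ab), subtract h: m • P0 = ε • P0, (m-ε) • P0 = 0, p0_order.
-/

namespace CM11
open Polynomial WeierstrassCurve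

variable {p : ℕ} [Fact p.Prime] {L : Type} [Field L] [Algebra (ZMod p) L]
  [DecidableEq L] {r : ZMod p}

theorem tau_sign (hp : 11 < p) (hr : r ^ 2 = -11) (S : FF p (ff p (A11 r) (B11 r)) L)
    {G Ab : (EL L (A11 r) (B11 r)).Point} (hG : IsGen S G) (hb : IsAb S r Ab)
    (Fr : L →ₐ[ZMod p] L) (hFr : ∀ x, Fr x = x ^ p) {m n ε : ℤ}
    (h : m • G + n • Ab = ε • Affine.Point.map (W' := WW p (A11 r) (B11 r)) Fr G) :
    3 ∣ m - ε := by
  obtain ⟨P, hP⟩ := p0_exists (L := L) hp hr
  obtain ⟨τ, hτ⟩ := tau_exists hp hr S hG hP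
  have hAb := tau_ab hp hr S hG hP hb τ hτ
  have hFP : Affine.Point.map (W' := WW p (A11 r) (B11 r)) Fr P = P := by
    have hP' := hP
    unfold IsP0 at hP'
    have h5 := at_map (L := L) (K := L) Fr hP'
    rw [Fr.commutes, Fr.commutes] at h5
    exact at_ext h5 hP'
  have hcomm : Affine.Point.map (W' := WW p (A11 r) (B11 r)) τ
      (Affine.Point.map (W' := WW p (A11 r) (B11 r)) Fr G) =
      Affine.Point.map (W' := WW p (A11 r) (B11 r)) Fr
        (Affine.Point.map (W' := WW p (A11 r) (B11 r)) τ G) := by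
    have hG' := hG
    unfold IsGen at hG'
    have h6 := at_map (L := L) (K := L) τ (at_map (L := L) (K := L) Fr hG')
    have h7 := at_map (L := L) (K := L) Fr (at_map (L := L) (K := L) τ hG')
    rw [hFr, hFr, map_pow, map_pow] at h6
    rw [hFr, hFr] at h7
    exact at_ext h6 h7
  have h8 := congrArg (Affine.Point.map (W' := WW p (A11 r) (B11 r)) τ) h
  rw [map_add, map_zsmul, map_zsmul, map_zsmul, hAb, hcomm, hτ, map_add, hFP, zsmul_add,
    zsmul_add] at h8
  have h9 : (m - ε) • P = 0 := by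
    rw [sub_zsmul, ← sub_eq_add_neg, sub_eq_zero]
    have h10 : m • G + n • Ab + m • P =
        ε • Affine.Point.map (W' := WW p (A11 r) (B11 r)) Fr G + ε • P := by
      rw [← h8]; abel
    rw [h] at h10
    exact add_left_cancel h10
  exact p0_order hp hr hP h9

end CM11
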