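import Pool.Agent.Lib.MP_34a732_nt.G7B
import Pool.Agent.Lib.MP_34a732_nt.G8B
import Pool.Agent.Lib.MP_34a732_nt.G9B
import Pool.Agent.Lib.MP_34a732_nt.GA
import Pool.Agent.Lib.MP_34a732_nt.GB
import Pool.Agent.Lib.MP_34a732_nt.GC
import Pool.Agent.Lib.MP_34a732_nt.GF
import Pool.Agent.Lib.MP_34a732_nt.T4

/-!
Module G12: the number of points.
-/

namespace CM11
open Polynomial WeierstrassCurve

variable {p : ℕ} [Fact p.Prime]

theorem trace_curve (hp : 11 < p) {r : ZMod p} (hr : r ^ 2 = -11) {x y : ℤ}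
    (hxy : x ^ 2 + 11 * y ^ 2 = 4 * (p : ℤ)) (h0 : (x : ZMod p) + y * r = 0) :
    ∃ ε : ℤ, (ε = 1 ∨ ε = -1) ∧ (NA p (A11 r) (B11 r) : ℤ) = p - ε * x ∧ 3 ∣ ε + (x + y) := by
  obtain ⟨h2, h3, h11, hd, hA, hB, hκ, hκ', hu, hu', hy⟩ := consts hp hr
  have hp2 : p ≠ 2 := by omega
  have hfd : Odd (ff p (A11 r) (B11 r)).natDegree := by
    have : (ff p (A11 r) (B11 r)).natDegree = 3 := by
      unfold ff
      compute_degree!
    rw [this]; decide
  obtain ⟨L, iF, iA, ⟨S⟩⟩ := exists_FF hp2 hfd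
  classical
  obtain ⟨G, hG⟩ := gen_exists h2 hd S
  obtain ⟨Ab, hb⟩ := ab_exists hp hr S
  obtain ⟨Aa, ha⟩ := aa_exists hp hr S
  have hsum := aa_add_ab hp hr S hG ha hb
  obtain ⟨Fr, hFr⟩ := exists_frob p L
  obtain ⟨oG, htG, pG, mG⟩ := gen_props h2 hd S hG
  obtain ⟨ob, htb, pb, mb⟩ := vel_props h2 hd S hu hκ' hb
  obtain ⟨oa, hta, -, -⟩ := vel_props h2 hd S hu' hκ ha
  have hGa : G - Ab = Aa := by rw [← hsum]; abel
  have hs := s_ne S
  obtain ⟨m, hm⟩ : ∃ m : ℤ, 2 * m = x + y := by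
    have : (x + y) % 2 = 0 := by
      rcases Int.emod_two_eq_zero_or_one x with hx | hx <;>
      rcases Int.emod_two_eq_zero_or_one y with hy | hy
      · omega
      · exfalso
        obtain ⟨a, rfl⟩ : ∃ a, x = 2 * a := ⟨x / 2, by omega⟩
        obtain ⟨b, rfl⟩ : ∃ b, y = 2 * b + 1 := ⟨y / 2, by omega⟩
        have : 2 * (2 * a ^ 2 + 22 * b ^ 2 + 22 * b + 5 - 2 * (p : ℤ)) + 1 = 0 := by
          linear_combination hxy
        omega
      · exfalso
        obtain ⟨a, rfl⟩ : ∃ a, x = 2 * a + 1 := ⟨x / 2, by omega⟩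
        obtain ⟨b, rfl⟩ : ∃ b, y = 2 * b := ⟨y / 2, by omega⟩
        have : 2 * (2 * a ^ 2 + 2 * a + 22 * b ^ 2 - 2 * (p : ℤ)) + 1 = 0 := by
          linear_combination hxy
        omega
      · omega
    exact ⟨(x + y) / 2, by omega⟩
  have hc := pole_comb h2 hd S oG ob pG pb m (-y)
  obtain ⟨N, hN⟩ := odd_ht h2 hd S hc.1
  have hq := ht_quad h2 hd S oG ob htG htb (hGa ▸ hta) m (-y) hN
  have hNp : N = p := by
    have : (N : ℤ) = p := by
      rw [hq]
      push_cast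
      have hx : x = 2 * m - y := by linear_combination -hm
      rw [hx] at hxy
      linarith [hxy]
    exact_mod_cast this
  rw [hNp] at hN
  have hmu : mu S.D (m • G + (-y) • Ab) = 0 := by
    rw [mu_add h2 hd, mu_zsmul h2 hd, mu_zsmul h2 hd]
    have h4 : ((m : L) * mu S.D G + ((-y : ℤ) : L) * mu S.D Ab) * S.s = 0 := by
      have e1 : ((m : L) * mu S.D G + ((-y : ℤ) : L) * mu S.D Ab) * S.s =
          (m : L) * (mu S.D G * S.s) + ((-y : ℤ) : L) * (mu S.D Ab * S.s) := by ring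
      rw [e1, mG, mb]
      have e2 : ((m : ZMod p) * 1 + ((-y : ℤ) : ZMod p) * ((1 - r) / 2)) = 0 := by
        have h5 : (2 : ZMod p) * ((m : ZMod p) * 1 + ((-y : ℤ) : ZMod p) * ((1 - r) / 2)) = 0 := by
          have h6 : (2 : ZMod p) * (m : ZMod p) = x + y := by exact_mod_cast congrArg (Int.cast (R := ZMod p)) hm
          push_cast
          field_simp
          linear_combination h6 + h0
        exact (mul_eq_zero.1 h5).resolve_left h2
      have e3 := congrArg (algebraMap (ZMod p) L) e2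
      simpa using e3
    exact (mul_eq_zero.1 h4).resolve_right hs
  have hins := insep (by omega) hd hA hB S hG Fr hFr hc.1 hN hc.2 hmu
  obtain ⟨ε, hε, hFe⟩ : ∃ ε : ℤ, (ε = 1 ∨ ε = -1) ∧
      m • G + (-y) • Ab = ε • Affine.Point.map (W' := WW p (A11 r) (B11 r)) Fr G := by
    rcases hins with h | h
    · exact ⟨1, Or.inl rfl, by rw [h, one_zsmul]⟩
    · exact ⟨-1, Or.inr rfl, by rw [h, neg_zsmul, one_zsmul]⟩
  have hsign := tau_sign hp hr S hG hb Fr hFr hFe
  have hεε : ε * ε = 1 := by rcases hε with rfl | rfl <;> norm_num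
  refine ⟨ε, hε, ?_, ?_⟩
  · have hcount := frob_count (by omega) hd S hG Fr hFr
    have e1 : Affine.Point.map (W' := WW p (A11 r) (B11 r)) Fr G - G =
        (ε * m - 1) • G + (ε * -y) • Ab := by
      have : Affine.Point.map (W' := WW p (A11 r) (B11 r)) Fr G =
          ε • (m • G + (-y) • Ab) := by
        rw [hFe, smul_smul, hεε, one_zsmul]
      rw [this, smul_add, smul_smul, smul_smul, sub_zsmul, one_zsmul]
      abel
    rw [e1] at hcount
    have h7 := ht_quad h2 hd S oG ob htG htb (hGa ▸ hta) (ε * m - 1) (ε * -y) hcount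
    push_cast at h7
    have hx : x = 2 * m - y := by linear_combination -hm
    subst hx
    have h8 : m ^ 2 - m * y + 3 * y ^ 2 = p := by linarith [hxy]
    linear_combination h7 + (m ^ 2 - m * y + 3 * y ^ 2) * hεε + h8
  · have h9 : ε + (x + y) = 2 * (m - ε) + 3 * ε := by rw [← hm]; ring
    rw [h9]
    exact dvd_add (Dvd.dvd.mul_left hsign 2) (Dvd.intro _ rfl)

end CM11
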