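import Pool.Agent.Lib.MP_34a732_nt.G1

/-!
Module G2: the addition-and-subtraction map.
PROOF.  Cases.  P = 0: xRep (0+Q) = xRep Q, xRep (0-Q) = xRep (-Q) = xRep Q (xRep_neg'), s t u = (Q0, Q1, 0),
c = 1: F0 = Q0^2, F1 = 2 Q0 Q1, F2 = Q1^2.  Q = 0 the same.  P = (x,y), Q = (x',y') with x ≠ x' : at_add for P+Q and for
P+(-Q) with slopes m = (y-y')/(x-x'), m' = (y+y')/(x-x'); c = (x-x')^2; after at_xRep everything is
field_simp plus linear_combination of the two curve equations (F2 = (x-x')^2; F1: c (X+ + X-) where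
c X± = (y ∓ y')^2 - (x+x')(x-x')^2).  x = x' : Q = P or Q = -P (at_x_eq).  Q = P, y ≠ 0: at_dbl,
P - P = 0, s t u = (x^2, 2x, 1), c = 4 y^2, F0 = x^4-2ax^2-8bx+a^2, F1 = 4 y^2, F2 = 0.
Q = P, y = 0: P + P = 0 (at_add_self), c = F0 = (3x^2+a)^2 (use x^3 = -ax-b), F1 = F2 = 0, and c ≠ 0 because
3x^2+a = 0 = x^3+ax+b implies 4a^3+27b^2 = 0: 4a^3+27b^2 = (some combination; for instance
(3x^2+a)(4a^2 - ...)...); note y^2 = 0.  Q = -P: P + Q = 0, P - Q = P + P, the same with the two points exchanged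
(sx, tx, ux are symmetric).
-/

namespace CM11
open Polynomial WeierstrassCurve

theorem g2_zero_left {F : Type} [Field F] [DecidableEq F] {V : Affine F} (Q : V.Point) :
    ∃ c : F, c ≠ 0 ∧
      F0 V.a₄ V.a₆ (sx 0 Q) (tx 0 Q) (ux 0 Q) = c * sx (0 + Q) (0 - Q) ∧
      F1 V.a₄ V.a₆ (sx 0 Q) (tx 0 Q) (ux 0 Q) = c * tx (0 + Q) (0 - Q) ∧
      F2 V.a₄ V.a₆ (sx 0 Q) (tx 0 Q) (ux 0 Q) = c * ux (0 + Q) (0 - Q) := by
  refine ⟨1, one_ne_zero, ?_⟩
  rw [zero_add, zero_sub]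
  unfold sx tx ux F0 F1 F2
  rw [xRep_neg', xRep_neg', zero_xRep.1, zero_xRep.2]
  refine ⟨by ring, by ring, by ring⟩

theorem g2_zero_right {F : Type} [Field F] [DecidableEq F] {V : Affine F} (P : V.Point) :
    ∃ c : F, c ≠ 0 ∧
      F0 V.a₄ V.a₆ (sx P 0) (tx P 0) (ux P 0) = c * sx (P + 0) (P - 0) ∧
      F1 V.a₄ V.a₆ (sx P 0) (tx P 0) (ux P 0) = c * tx (P + 0) (P - 0) ∧
      F2 V.a₄ V.a₆ (sx P 0) (tx P 0) (ux P 0) = c * ux (P + 0) (P - 0) := by
  refine ⟨1, one_ne_zero, ?_⟩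
  rw [add_zero, sub_zero]
  unfold sx tx ux F0 F1 F2
  rw [zero_xRep.1, zero_xRep.2]
  refine ⟨by ring, by ring, by ring⟩

/-- the symmetric functions for `(P, P)` and the pair `(P + P, 0)` -/
theorem g2_dbl {F : Type} [Field F] [DecidableEq F] {V : Affine F} (hV : Sh V) {P : V.Point}
    {x y : F} (h : At P x y) :
    ∃ c : F, c ≠ 0 ∧
      x ^ 4 - 2 * V.a₄ * x ^ 2 - 8 * V.a₆ * x + V.a₄ ^ 2 = c * (P + P).xRep 0 ∧
      4 * y ^ 2 = c * (P + P).xRep 1 := by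
  have he := at_eqn hV h
  by_cases hy : y = 0
  · rw [hy] at h he
    rw [at_add_self hV h, zero_xRep.1, zero_xRep.2]
    refine ⟨(3 * x ^ 2 + V.a₄) ^ 2, ?_, ?_, ?_⟩
    · refine pow_ne_zero 2 ?_
      intro h0
      apply hV.disc
      have h1 : x ^ 3 + V.a₄ * x + V.a₆ = 0 := by
        rw [← he]; ring
      have h2 : V.a₄ = -3 * x ^ 2 := by linear_combination h0
      have h3 : V.a₆ = 2 * x ^ 3 := by
        rw [h2] at h1
        linear_combination h1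
      rw [h2, h3]
      ring
    · linear_combination (8 * x) * he
    · rw [hy]; ring
  · have h22 := hV.two
    have h2y : 2 * y ≠ 0 := mul_ne_zero h22 hy
    set m := (3 * x ^ 2 + V.a₄) / (2 * y) with hm
    have hm' : m * (2 * y) = 3 * x ^ 2 + V.a₄ := div_mul_cancel₀ _ h2y
    have h3 := at_dbl hV h hy hm'
    obtain ⟨e0, e1⟩ := at_xRep h3
    rw [e0, e1]
    refine ⟨4 * y ^ 2, ?_, ?_, ?_⟩
    · have : 4 * y ^ 2 = (2 * y) ^ 2 := by ring
      rw [this]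
      exact pow_ne_zero 2 h2y
    · have e2 : 4 * y ^ 2 * (m ^ 2 - 2 * x) = (m * (2 * y)) ^ 2 - 8 * x * y ^ 2 := by ring
      rw [e2, hm', he]
      ring
    · ring

theorem add_sub_x {F : Type} [Field F] [DecidableEq F] {V : Affine F} (hV : Sh V) (P Q : V.Point) :
    ∃ c : F, c ≠ 0 ∧
      F0 V.a₄ V.a₆ (sx P Q) (tx P Q) (ux P Q) = c * sx (P + Q) (P - Q) ∧
      F1 V.a₄ V.a₆ (sx P Q) (tx P Q) (ux P Q) = c * tx (P + Q) (P - Q) ∧
      F2 V.a₄ V.a₆ (sx P Q) (tx P Q) (ux P Q) = c * ux (P + Q) (P - Q) := by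
  by_cases hP : P = 0
  · subst hP
    exact g2_zero_left Q
  by_cases hQ : Q = 0
  · subst hQ
    exact g2_zero_right P
  obtain ⟨x, y, hxy⟩ := exists_at hP
  obtain ⟨x', y', hxy'⟩ := exists_at hQ
  have he := at_eqn hV hxy
  have he' := at_eqn hV hxy'
  obtain ⟨p0, p1⟩ := at_xRep hxy
  obtain ⟨q0, q1⟩ := at_xRep hxy'
  by_cases hx : x = x'
  · subst hx
    have hs : sx P Q = x ^ 2 := by unfold sx; rw [p0, q0]; ring
    have ht : tx P Q = 2 * x := by unfold tx; rw [p0, q0, p1, q1]; ring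
    have hu : ux P Q = 1 := by unfold ux; rw [p1, q1]; ring
    have e0 : F0 V.a₄ V.a₆ (x ^ 2) (2 * x) 1 =
        x ^ 4 - 2 * V.a₄ * x ^ 2 - 8 * V.a₆ * x + V.a₄ ^ 2 := by unfold F0; ring
    have e1 : F1 V.a₄ V.a₆ (x ^ 2) (2 * x) 1 = 4 * y ^ 2 := by
      unfold F1
      rw [he]
      ring
    have e2 : F2 V.a₄ V.a₆ (x ^ 2) (2 * x) 1 = 0 := by unfold F2; ring
    rw [hs, ht, hu, e0, e1, e2]
    obtain ⟨c, hc, c0, c1⟩ := g2_dbl hV hxy
    refine ⟨c, hc, ?_⟩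
    rcases at_x_eq hV hxy hxy' with h | h
    · rw [h, sub_self]
      unfold sx tx ux
      rw [zero_xRep.1, zero_xRep.2, c0, c1]
      refine ⟨by ring, by ring, by ring⟩
    · rw [h, add_neg_cancel, sub_neg_eq_add]
      unfold sx tx ux
      rw [zero_xRep.1, zero_xRep.2, c0, c1]
      refine ⟨by ring, by ring, by ring⟩
  · have hd : x - x' ≠ 0 := sub_ne_zero.2 hx
    set m := (y - y') / (x - x') with hm
    set m' := (y + y') / (x - x') with hm'
    have e1 : m * (x - x') = y - y' := div_mul_cancel₀ _ hd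
    have e2 : m' * (x - x') = y - -y' := by
      rw [hm', div_mul_cancel₀ _ hd]
      ring
    have h1 := at_add hV hxy hxy' hx e1
    have h2 := at_add hV hxy (at_neg hV hxy') hx e2
    rw [← sub_eq_add_neg] at h2
    obtain ⟨a0, a1⟩ := at_xRep h1
    obtain ⟨b0, b1⟩ := at_xRep h2
    have f1 : (x - x') ^ 2 * (m ^ 2 - x - x') = (y - y') ^ 2 - (x + x') * (x - x') ^ 2 := by
      rw [← e1]; ring
    have f2 : (x - x') ^ 2 * (m' ^ 2 - x - x') = (y + y') ^ 2 - (x + x') * (x - x') ^ 2 := by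
      have : y + y' = m' * (x - x') := by rw [e2]; ring
      rw [this]; ring
    refine ⟨(x - x') ^ 2, pow_ne_zero 2 hd, ?_, ?_, ?_⟩
    · refine mul_left_cancel₀ (pow_ne_zero 2 hd) (?_ : (x - x') ^ 2 * _ = (x - x') ^ 2 * _)
      have e3 : (x - x') ^ 2 * ((x - x') ^ 2 * sx (P + Q) (P - Q)) =
          ((x - x') ^ 2 * (m ^ 2 - x - x')) * ((x - x') ^ 2 * (m' ^ 2 - x - x')) := by
        unfold sx
        rw [a0, b0]
        ring
      rw [e3, f1, f2]
      unfold F0 sx tx ux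
      rw [p0, p1, q0, q1]
      have g1 : ((y - y') ^ 2 - (x + x') * (x - x') ^ 2) *
          ((y + y') ^ 2 - (x + x') * (x - x') ^ 2) =
          (y ^ 2 - y' ^ 2) ^ 2 - 2 * (y ^ 2 + y' ^ 2) * ((x + x') * (x - x') ^ 2)
            + ((x + x') * (x - x') ^ 2) ^ 2 := by ring
      rw [g1, he, he']
      ring
    · have e3 : (x - x') ^ 2 * tx (P + Q) (P - Q) =
          (x - x') ^ 2 * (m ^ 2 - x - x') + (x - x') ^ 2 * (m' ^ 2 - x - x') := by
        unfold tx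
        rw [a0, b0, a1, b1]
        ring
      rw [e3, f1, f2]
      unfold F1 sx tx ux
      rw [p0, p1, q0, q1]
      have g1 : ((y - y') ^ 2 - (x + x') * (x - x') ^ 2) +
          ((y + y') ^ 2 - (x + x') * (x - x') ^ 2) =
          2 * (y ^ 2 + y' ^ 2) - 2 * ((x + x') * (x - x') ^ 2) := by ring
      rw [g1, he, he']
      ring
    · unfold F2 sx tx ux
      rw [p0, p1, q0, q1, a1, b1]
      ring

end CM11
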