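import Pool.Agent.Lib.MP_34a732_nt.Defs

/-!
Module G3A: symmetric square of a primitive vector.
PROOF of prim_sym.  The ideal I generated by ac, ad+bc, bd is the unit ideal: from x a + y b = 1 and z c + w d = 1.
One way: I contains a^2 c^2 ... ; simplest: (ad+bc)^2 - (ac)(bd) ... Let I = (ac, ad+bc, bd).  a(ad+bc) - b(ac) = a^2 d and a·(ac) = a^2 c are
in I, so a^2 = z (a^2 c) + w (a^2 d) in I; in the same way b(ad+bc) - a(bd) = b^2 c, b·(bd) = b^2 d in I, so b^2 in I;
a^2, b^2 are coprime (IsCoprime.pow).  So 1 = α a^2 + β b^2 with explicit coefficients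
(a^2 = z a (ac) + w (a (ad+bc) - b (ac)), b^2 = w b (bd) + z (b (ad+bc) - a (bd))).
PROOF of md_sym.  m = max deg of a, b, n = max deg of c, d.  natDegree of the three products at most m+n is clear.
Coefficients of index m+n: ac: a_m c_n, ad+bc: a_m d_n + b_m c_n, bd: b_m d_n (coeff_mul_add_eq_of_natDegree_le);
a_m, b_m are not both 0 and c_n, d_n are not both 0 (if m = 0 use that (a,b) is not (0,0), by coprimality; if m > 0 the leading
coefficient), so one of the three coefficients is not 0: if a_m c_n = 0 = b_m d_n, say a_m = 0, then b_m ≠ 0, d_n = 0,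
c_n ≠ 0 and a_m d_n + b_m c_n = b_m c_n ≠ 0, etc.
-/

namespace CM11
open Polynomial

variable {k : Type} [Field k]

theorem prim_sym {a b c d : k[X]} (h : IsCoprime a b) (h' : IsCoprime c d) :
    Prim (a * c) (a * d + b * c) (b * d) := by
  obtain ⟨x, y, hxy⟩ := h
  obtain ⟨z, w, hzw⟩ := h'
  refine ⟨(x ^ 3 * a + 3 * x ^ 2 * y * b) * (z * a - w * b),
    (x ^ 3 * a + 3 * x ^ 2 * y * b) * (w * a) + (3 * x * y ^ 2 * a + y ^ 3 * b) * (z * b),
    (3 * x * y ^ 2 * a + y ^ 3 * b) * (w * b - z * a), ?_⟩
  calc _ = (x * a + y * b) ^ 3 * (z * c + w * d) := by ring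
    _ = 1 := by rw [hxy, hzw]; ring

theorem G3A_top {a b : k[X]} (h : IsCoprime a b) :
    a.coeff (max a.natDegree b.natDegree) ≠ 0 ∨ b.coeff (max a.natDegree b.natDegree) ≠ 0 := by
  have key : ∀ a b : k[X], IsCoprime a b → b.natDegree ≤ a.natDegree →
      a.coeff a.natDegree ≠ 0 ∨ b.coeff a.natDegree ≠ 0 := by
    intro a b h hab
    by_cases ha : a = 0
    · right
      subst ha
      rw [natDegree_zero] at hab ⊢
      have hb : IsUnit b := by rwa [isCoprime_zero_left] at h
      obtain ⟨c, hc, hcb⟩ := Polynomial.isUnit_iff.1 hb
      rw [← hcb, coeff_C_zero]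
      exact hc.ne_zero
    · left
      exact leadingCoeff_ne_zero.2 ha
  rcases le_total b.natDegree a.natDegree with hab | hab
  · rw [max_eq_left hab]
    exact key a b h hab
  · rw [max_eq_right hab]
    exact (key b a h.symm hab).symm

theorem md_sym {a b c d : k[X]} (h : IsCoprime a b) (h' : IsCoprime c d) :
    md (a * c) (a * d + b * c) (b * d) =
      max a.natDegree b.natDegree + max c.natDegree d.natDegree := by
  have hm := G3A_top h
  have hn := G3A_top h'
  set m := max a.natDegree b.natDegree with hm_def
  set n := max c.natDegree d.natDegree with hn_def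
  have ha : a.natDegree ≤ m := le_max_left _ _
  have hb : b.natDegree ≤ m := le_max_right _ _
  have hc : c.natDegree ≤ n := le_max_left _ _
  have hd : d.natDegree ≤ n := le_max_right _ _
  have e1 : (a * c).coeff (m + n) = a.coeff m * c.coeff n := coeff_mul_add_eq_of_natDegree_le ha hc
  have e2 : (a * d + b * c).coeff (m + n) = a.coeff m * d.coeff n + b.coeff m * c.coeff n := by
    rw [coeff_add, coeff_mul_add_eq_of_natDegree_le ha hd, coeff_mul_add_eq_of_natDegree_le hb hc]
  have e3 : (b * d).coeff (m + n) = b.coeff m * d.coeff n := coeff_mul_add_eq_of_natDegree_le hb hd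
  have u1 : (a * c).natDegree ≤ m + n := natDegree_mul_le_of_le ha hc
  have u2 : (a * d + b * c).natDegree ≤ m + n :=
    natDegree_add_le_of_degree_le (natDegree_mul_le_of_le ha hd) (natDegree_mul_le_of_le hb hc)
  have u3 : (b * d).natDegree ≤ m + n := natDegree_mul_le_of_le hb hd
  apply le_antisymm
  · unfold md
    exact max_le u1 (max_le u2 u3)
  · unfold md
    by_cases h1 : a.coeff m * c.coeff n = 0
    · by_cases h3 : b.coeff m * d.coeff n = 0
      · have h2 : a.coeff m * d.coeff n + b.coeff m * c.coeff n ≠ 0 := by
          rcases mul_eq_zero.1 h1 with h0 | h0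
          · have hb0 : b.coeff m ≠ 0 := by
              rcases hm with h | h
              · exact absurd h0 h
              · exact h
            have hd0 : d.coeff n = 0 := by
              rcases mul_eq_zero.1 h3 with h | h
              · exact absurd h hb0
              · exact h
            have hc0 : c.coeff n ≠ 0 := by
              rcases hn with h | h
              · exact h
              · exact absurd hd0 h
            rw [h0, zero_mul, zero_add]
            exact mul_ne_zero hb0 hc0
          · have hd0 : d.coeff n ≠ 0 := by
              rcases hn with h | h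
              · exact absurd h0 h
              · exact h
            have hb0 : b.coeff m = 0 := by
              rcases mul_eq_zero.1 h3 with h | h
              · exact h
              · exact absurd h hd0
            have ha0 : a.coeff m ≠ 0 := by
              rcases hm with h | h
              · exact h
              · exact absurd hb0 h
            rw [hb0, zero_mul, add_zero]
            exact mul_ne_zero ha0 hd0
        exact le_max_of_le_right (le_max_of_le_left
          (le_natDegree_of_ne_zero (by rw [e2]; exact h2)))
      · exact le_max_of_le_right (le_max_of_le_right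
          (le_natDegree_of_ne_zero (by rw [e3]; exact h3)))
    · exact le_max_of_le_left (le_natDegree_of_ne_zero (by rw [e1]; exact h1))

end CM11
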