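import Pool.Agent.Lib.MP_34a732_nt.Defs

/-!
Module G3B: the forms F0, F1, F2 have no common zero.
IDENTITIES (fourth powers, Mathlib: WeierstrassCurve.addSubMapCoeff_condition in
Mathlib/AlgebraicGeometry/EllipticCurve/Affine/AddSubMap.lean, with a1 = a2 = a3 = 0, b2 = 0, b4 = 2a, b6 = 4b, b8 = -a^2; the
coefficients below are those; check by ring): in any commutative ring, with Δ = -16(4a^3+27b^2),
Δ s^4, Δ t^4, Δ u^4 are combinations of F0, F1, F2 with coefficients quadratic forms in s, t, u.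
One can use the Mathlib statement over k[X] or over k with x = ![s,t,u] (the curve ⟨0,0,0,a,b⟩ is elliptic iff Δ is a
unit), or copy the nine coefficient polynomials from the Mathlib file.
PROOF of prim_F.  A unit multiple of s^4, t^4, u^4 lies in the ideal of F0, F1, F2, and s, t, u generate the unit ideal,
so do their fourth powers (IsCoprime style: Ideal.span_pow_eq_top, or: (αs+βt+γu)^10 is in (s^4,t^4,u^4)).
PROOF of md_F.  Let m = md s t u.  The F_i have degree at most 2m, and their coefficients of index 2m are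
F_i(s_m, t_m, u_m) (F_i with parameters A, B over k; coeff_mul_of_natDegree_le).  (s_m, t_m, u_m) ≠ 0: for m > 0 a leading
coefficient, for m = 0 because (s,t,u) ≠ 0.  By the identities over the field k not all F_i(s_m,t_m,u_m) vanish.
-/

namespace CM11
open Polynomial

variable {k : Type} [Field k]

theorem G3B_id0 {R : Type} [CommRing R] (a b s t u : R) :
    (-16 * (4 * a ^ 3 + 27 * b ^ 2)) * s ^ 4 =
      ((-8 * (2 * a) ^ 3 - 27 * (4 * b) ^ 2) * s ^ 2
        + (- 2 * (2 * a) ^ 2 * (4 * b) - 10 * (4 * b) * (-a ^ 2)) * s * t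
        + ((2 * a) * (4 * b) ^ 2) * s * u
        + (3 * (2 * a) ^ 2 * (-a ^ 2) - 3 * (2 * a) * (4 * b) ^ 2) * t ^ 2
        + (3 * (2 * a) * (4 * b) * (-a ^ 2) - 3 * (4 * b) ^ 3) * t * u) * F0 a b s t u
      + (((2 * a) ^ 2 * (4 * b) + 5 * (4 * b) * (-a ^ 2)) * s ^ 2
        + (- 2 * (2 * a) * (4 * b) ^ 2 - 10 * (-a ^ 2) ^ 2) * s * t
        + ((2 * a) * (4 * b) * (-a ^ 2)) * s * u
        + (3 * (2 * a) * (4 * b) * (-a ^ 2) - 3 * (4 * b) ^ 3) * t ^ 2
        + (3 * (2 * a) * (-a ^ 2) ^ 2 - 3 * (4 * b) ^ 2 * (-a ^ 2)) * t * u) * F1 a b s t u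
      + ((- 8 * (2 * a) ^ 2 * (-a ^ 2) + 7 * (2 * a) * (4 * b) ^ 2) * s ^ 2
        + (-6 * (2 * a) * (4 * b) * (-a ^ 2) + 6 * (4 * b) ^ 3) * s * t
        + (-8 * (2 * a) * (-a ^ 2) ^ 2 + 8 * (4 * b) ^ 2 * (-a ^ 2)) * s * u)
        * F2 a b s t u := by
  unfold F0 F1 F2
  ring

theorem G3B_id1 {R : Type} [CommRing R] (a b s t u : R) :
    (-16 * (4 * a ^ 3 + 27 * b ^ 2)) * t ^ 4 =
      (96 * (4 * b) * s * t + (- 64 * (-a ^ 2)) * t ^ 2 + 16 * (2 * a) * (4 * b) * t * u)
        * F0 a b s t u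
      + ((-48 * (4 * b)) * s ^ 2 + 32 * (-a ^ 2) * s * t + 16 * (2 * a) * (4 * b) * t ^ 2
        + 16 * (2 * a) * (-a ^ 2) * t * u) * F1 a b s t u
      + ((- 32 * (2 * a) * (4 * b)) * s * t + (-12 * (4 * b) ^ 2) * s * u
        + (- 8 * (2 * a) ^ 3 - 27 * (4 * b) ^ 2) * t ^ 2) * F2 a b s t u := by
  unfold F0 F1 F2
  ring

theorem G3B_id2 {R : Type} [CommRing R] (a b s t u : R) :
    (-16 * (4 * a ^ 3 + 27 * b ^ 2)) * u ^ 4 =
      ((-12) * t ^ 2 + (- 32 * (2 * a)) * u ^ 2) * F0 a b s t u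
      + (6 * s * t + (-5 * (2 * a)) * t * u + (- 27 * (4 * b)) * u ^ 2) * F1 a b s t u
      + ((-8 * (2 * a)) * s * u + (-12 * (4 * b)) * t * u
        + ((2 * a) ^ 2 - 28 * (-a ^ 2)) * u ^ 2) * F2 a b s t u := by
  unfold F0 F1 F2
  ring

theorem G3B_disc {A B : k} (h2 : (2 : k) ≠ 0) (hd : 4 * A ^ 3 + 27 * B ^ 2 ≠ 0) :
    (-16 * (4 * A ^ 3 + 27 * B ^ 2)) ≠ 0 := by
  refine mul_ne_zero ?_ hd
  have : (-16 : k) = -(2 ^ 4) := by norm_num
  rw [this]
  exact neg_ne_zero.2 (pow_ne_zero 4 h2)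

theorem prim_F {A B : k} (h2 : (2 : k) ≠ 0) (hd : 4 * A ^ 3 + 27 * B ^ 2 ≠ 0) {s t u : k[X]}
    (h : Prim s t u) :
    Prim (F0 (C A) (C B) s t u) (F1 (C A) (C B) s t u) (F2 (C A) (C B) s t u) := by
  have hδ := G3B_disc h2 hd
  set δ : k := -16 * (4 * A ^ 3 + 27 * B ^ 2) with hδ_def
  have hCδ : (-16 * (4 * (C A : k[X]) ^ 3 + 27 * (C B) ^ 2)) = C δ := by
    simp [hδ_def, map_ofNat]
  set I : Ideal k[X] := Ideal.span {F0 (C A) (C B) s t u, F1 (C A) (C B) s t u,
    F2 (C A) (C B) s t u} with hI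
  have m0 : F0 (C A) (C B) s t u ∈ I := Ideal.subset_span (by simp)
  have m1 : F1 (C A) (C B) s t u ∈ I := Ideal.subset_span (by simp)
  have m2 : F2 (C A) (C B) s t u ∈ I := Ideal.subset_span (by simp)
  have hinv : (C δ⁻¹ : k[X]) * C δ = 1 := by
    rw [← C_mul, inv_mul_cancel₀ hδ, C_1]
  have ms : s ^ 4 ∈ I := by
    have h1 : C δ * s ^ 4 ∈ I := by
      rw [← hCδ, G3B_id0]
      exact I.add_mem (I.add_mem (I.mul_mem_left _ m0) (I.mul_mem_left _ m1))
        (I.mul_mem_left _ m2)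
    have h2 := I.mul_mem_left (C δ⁻¹) h1
    rwa [← mul_assoc, hinv, one_mul] at h2
  have mt : t ^ 4 ∈ I := by
    have h1 : C δ * t ^ 4 ∈ I := by
      rw [← hCδ, G3B_id1]
      exact I.add_mem (I.add_mem (I.mul_mem_left _ m0) (I.mul_mem_left _ m1))
        (I.mul_mem_left _ m2)
    have h2 := I.mul_mem_left (C δ⁻¹) h1
    rwa [← mul_assoc, hinv, one_mul] at h2
  have mu' : u ^ 4 ∈ I := by
    have h1 : C δ * u ^ 4 ∈ I := by
      rw [← hCδ, G3B_id2]
      exact I.add_mem (I.add_mem (I.mul_mem_left _ m0) (I.mul_mem_left _ m1))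
        (I.mul_mem_left _ m2)
    have h2 := I.mul_mem_left (C δ⁻¹) h1
    rwa [← mul_assoc, hinv, one_mul] at h2
  have htop : I = ⊤ := by
    by_contra hne
    obtain ⟨M, hM, hIM⟩ := Ideal.exists_le_maximal I hne
    have hp := hM.isPrime
    have s1 := hp.mem_of_pow_mem 4 (hIM ms)
    have t1 := hp.mem_of_pow_mem 4 (hIM mt)
    have u1 := hp.mem_of_pow_mem 4 (hIM mu')
    obtain ⟨a, b, c, habc⟩ := h
    apply hM.ne_top
    rw [Ideal.eq_top_iff_one, ← habc]
    exact M.add_mem (M.add_mem (M.mul_mem_left _ s1) (M.mul_mem_left _ t1))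
      (M.mul_mem_left _ u1)
  have h1 : (1 : k[X]) ∈ I := by
    rw [htop]
    trivial
  rw [hI, Ideal.span, Submodule.mem_span_triple] at h1
  obtain ⟨a, b, c, habc⟩ := h1
  exact ⟨a, b, c, by simpa using habc⟩

theorem G3B_top {s t u : k[X]} (h : Prim s t u) :
    s.coeff (md s t u) ≠ 0 ∨ t.coeff (md s t u) ≠ 0 ∨ u.coeff (md s t u) ≠ 0 := by
  by_contra hcon
  push Not at hcon
  obtain ⟨hs, ht, hu⟩ := hcon
  have key : ∀ v : k[X], v.natDegree ≤ md s t u → v.coeff (md s t u) = 0 →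
      v.natDegree = md s t u → v = 0 := by
    intro v _ h1 h2
    rw [← h2] at h1
    exact leadingCoeff_eq_zero.1 h1
  have key2 : ∀ v : k[X], v.natDegree ≤ md s t u → v.coeff (md s t u) = 0 →
      v = 0 ∨ v.natDegree < md s t u := by
    intro v h1 h2
    rcases Nat.eq_or_lt_of_le h1 with h3 | h3
    · exact Or.inl (key v h1 h2 h3)
    · exact Or.inr h3
  have bs : s.natDegree ≤ md s t u := le_max_left _ _
  have bt : t.natDegree ≤ md s t u := le_max_of_le_right (le_max_left _ _)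
  have bu : u.natDegree ≤ md s t u := le_max_of_le_right (le_max_right _ _)
  rcases Nat.eq_zero_or_pos (md s t u) with h0 | h0
  · have s0 : s = 0 := by
      rcases key2 s bs hs with h | h
      · exact h
      · omega
    have t0 : t = 0 := by
      rcases key2 t bt ht with h | h
      · exact h
      · omega
    have u0 : u = 0 := by
      rcases key2 u bu hu with h | h
      · exact h
      · omega
    obtain ⟨a, b, c, habc⟩ := h
    rw [s0, t0, u0] at habc
    simp at habc
  · have e : md s t u = s.natDegree ∨ md s t u = t.natDegree ∨ md s t u = u.natDegree := by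
      unfold md
      rcases le_total s.natDegree (max t.natDegree u.natDegree) with h | h
      · rw [max_eq_right h]
        rcases le_total t.natDegree u.natDegree with h' | h'
        · rw [max_eq_right h']; simp
        · rw [max_eq_left h']; simp
      · rw [max_eq_left h]; simp
    rcases e with e | e | e
    · have h1 := key s bs hs e.symm
      have h2 : s.natDegree = 0 := by rw [h1, natDegree_zero]
      omega
    · have h1 := key t bt ht e.symm
      have h2 : t.natDegree = 0 := by rw [h1, natDegree_zero]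
      omega
    · have h1 := key u bu hu e.symm
      have h2 : u.natDegree = 0 := by rw [h1, natDegree_zero]
      omega

theorem G3B_sub {v w : k[X]} {n : ℕ} (hv : v.natDegree ≤ n) (hw : w.natDegree ≤ n) :
    (v - w).natDegree ≤ n :=
  (natDegree_sub_le_of_le hv hw).trans (max_le le_rfl le_rfl)

theorem md_F {A B : k} (h2 : (2 : k) ≠ 0) (hd : 4 * A ^ 3 + 27 * B ^ 2 ≠ 0) {s t u : k[X]}
    (h : Prim s t u) :
    md (F0 (C A) (C B) s t u) (F1 (C A) (C B) s t u) (F2 (C A) (C B) s t u) = 2 * md s t u := by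
  have htop := G3B_top h
  have hδ := G3B_disc h2 hd
  have bs : s.natDegree ≤ md s t u := le_max_left _ _
  have bt : t.natDegree ≤ md s t u := le_max_of_le_right (le_max_left _ _)
  have bu : u.natDegree ≤ md s t u := le_max_of_le_right (le_max_right _ _)
  set m := md s t u with hm
  clear_value m
  have dm : ∀ {v w : k[X]}, v.natDegree ≤ m → w.natDegree ≤ m →
      (v * w).natDegree ≤ m + m := fun hv hw => natDegree_mul_le_of_le hv hw
  have dc : ∀ {v w : k[X]} (c : k), v.natDegree ≤ m → w.natDegree ≤ m →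
      (C c * (v * w)).natDegree ≤ m + m := fun c hv hw =>
    (natDegree_C_mul_le _ _).trans (dm hv hw)
  have cm : ∀ {v w : k[X]}, v.natDegree ≤ m → w.natDegree ≤ m →
      (v * w).coeff (m + m) = v.coeff m * w.coeff m :=
    fun hv hw => coeff_mul_add_eq_of_natDegree_le hv hw
  have E0 : F0 (C A) (C B) s t u =
      s * s - C (2 * A) * (s * u) - C (4 * B) * (t * u) + C (A ^ 2) * (u * u) := by
    unfold F0
    simp only [C_mul, C_pow, map_ofNat]
    ring
  have E1 : F1 (C A) (C B) s t u =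
      C 2 * (s * t) + C (2 * A) * (t * u) + C (4 * B) * (u * u) := by
    unfold F1
    simp only [C_mul, map_ofNat]
    ring
  have E2 : F2 (C A) (C B) s t u = t * t - C 4 * (s * u) := by
    unfold F2
    simp only [map_ofNat]
    ring
  have N0 : (F0 (C A) (C B) s t u).natDegree ≤ m + m := by
    rw [E0]
    exact natDegree_add_le_of_degree_le (G3B_sub
      (G3B_sub (dm bs bs) (dc _ bs bu)) (dc _ bt bu)) (dc _ bu bu)
  have N1 : (F1 (C A) (C B) s t u).natDegree ≤ m + m := by
    rw [E1]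
    exact natDegree_add_le_of_degree_le (natDegree_add_le_of_degree_le (dc _ bs bt)
      (dc _ bt bu)) (dc _ bu bu)
  have N2 : (F2 (C A) (C B) s t u).natDegree ≤ m + m := by
    rw [E2]
    exact G3B_sub (dm bt bt) (dc _ bs bu)
  have C0 : (F0 (C A) (C B) s t u).coeff (m + m) =
      F0 A B (s.coeff m) (t.coeff m) (u.coeff m) := by
    rw [E0]
    simp only [coeff_add, coeff_sub, coeff_C_mul, cm bs bs, cm bs bu, cm bt bu, cm bu bu]
    unfold F0
    ring
  have C1 : (F1 (C A) (C B) s t u).coeff (m + m) =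
      F1 A B (s.coeff m) (t.coeff m) (u.coeff m) := by
    rw [E1]
    simp only [coeff_add, coeff_C_mul, cm bs bt, cm bt bu, cm bu bu]
    unfold F1
    ring
  have C2 : (F2 (C A) (C B) s t u).coeff (m + m) =
      F2 A B (s.coeff m) (t.coeff m) (u.coeff m) := by
    rw [E2]
    simp only [coeff_sub, coeff_C_mul, cm bt bt, cm bs bu]
    unfold F2
    ring
  have hne : (F0 (C A) (C B) s t u).coeff (m + m) ≠ 0 ∨
      (F1 (C A) (C B) s t u).coeff (m + m) ≠ 0 ∨ (F2 (C A) (C B) s t u).coeff (m + m) ≠ 0 := by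
    by_contra hcon
    push Not at hcon
    rw [C0, C1, C2] at hcon
    obtain ⟨z0, z1, z2⟩ := hcon
    have i0 := G3B_id0 A B (s.coeff m) (t.coeff m) (u.coeff m)
    have i1 := G3B_id1 A B (s.coeff m) (t.coeff m) (u.coeff m)
    have i2 := G3B_id2 A B (s.coeff m) (t.coeff m) (u.coeff m)
    rw [z0, z1, z2, mul_zero, mul_zero, mul_zero, add_zero, add_zero] at i0 i1 i2
    have j0 := pow_eq_zero_iff (four_ne_zero) |>.1 ((mul_eq_zero.1 i0).resolve_left hδ)
    have j1 := pow_eq_zero_iff (four_ne_zero) |>.1 ((mul_eq_zero.1 i1).resolve_left hδ)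
    have j2 := pow_eq_zero_iff (four_ne_zero) |>.1 ((mul_eq_zero.1 i2).resolve_left hδ)
    rcases htop with h | h | h
    · exact h j0
    · exact h j1
    · exact h j2
  rw [two_mul]
  apply le_antisymm
  · unfold md
    exact max_le N0 (max_le N1 N2)
  · unfold md
    rcases hne with h | h | h
    · exact le_max_of_le_left (le_natDegree_of_ne_zero h)
    · exact le_max_of_le_right (le_max_of_le_left (le_natDegree_of_ne_zero h))
    · exact le_max_of_le_right (le_max_of_le_right (le_natDegree_of_ne_zero h))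

end CM11
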