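import Pool.Agent.Lib.MP_34a732_nt.Defs

/-!
Module G3C: proportional primitive vectors, dominance of the first component.
PROOF of prim_unique.  α s + β t + γ u = 1 and α' s' + β' t' + γ' u' = 1.  c = ι(α' s + β' t + γ' u) =: ι e (since c ι(s') = ι s etc.), so
s = e s', t = e t', u = e u' by injectivity, and e divides 1, so e is a unit, e = C e0 with e0 ≠ 0: natDegrees are equal.
(c is then ≠ 0, no hypothesis on c is needed.)
PROOF of dom_sym.  degree_mul, degree_add_le.
PROOF of dom_F.  s ≠ 0; t, u of smaller degree; degree of F0 is that of s^2, since all other terms have smaller degree; F1 = 2st + ..., F2 = t^2 - 4su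
all have degree < 2 deg s.  (Work with degree in WithBot ℕ or with natDegree and coefficients of index 2 natDegree s.)
PROOF of dom_of_sym.  a c ≠ 0 by the hypotheses (a degree is above ⊥), so a, c ≠ 0.  Suppose deg a ≤ deg b (b ≠ 0).  From deg(bd) < deg(ac): deg d < deg c.  Then deg(ad) < deg(bc) (deg a + deg d < deg b + deg c)
so deg(ad+bc) = deg(bc) ≥ deg(ac), a contradiction.  Symmetric for c, d.
PROOF of dom_unique.  s = e s' etc. with e a unit as in prim_unique.
-/

namespace CM11
open Polynomial

variable {k : Type} [Field k]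

theorem g3c_unit {s t u s' t' u' : k[X]} (h : Prim s t u) (h' : Prim s' t' u') {L : Type}
    [Field L] (ι : k[X] →+* L) (hι : Function.Injective ι) {c : L} (hs : ι s = c * ι s')
    (ht : ι t = c * ι t') (hu : ι u = c * ι u') :
    ∃ e : k, e ≠ 0 ∧ s = C e * s' ∧ t = C e * t' ∧ u = C e * u' := by
  obtain ⟨a, b, d, h1⟩ := h
  obtain ⟨a', b', d', h1'⟩ := h'
  have hc : c = ι (a' * s + b' * t + d' * u) := by
    have : c = c * ι (a' * s' + b' * t' + d' * u') := by rw [h1', map_one, mul_one]
    rw [this]
    simp only [map_add, map_mul, hs, ht, hu]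
    ring
  set e := a' * s + b' * t + d' * u with he
  have es : s = e * s' := hι (by rw [map_mul, ← hc, hs])
  have et : t = e * t' := hι (by rw [map_mul, ← hc, ht])
  have eu : u = e * u' := hι (by rw [map_mul, ← hc, hu])
  have hunit : IsUnit e := by
    rw [isUnit_iff_dvd_one]
    refine ⟨a * s' + b * t' + d * u', ?_⟩
    rw [← h1]
    conv_lhs => rw [es, et, eu]
    ring
  obtain ⟨e0, he0, hee⟩ := Polynomial.isUnit_iff.1 hunit
  exact ⟨e0, he0.ne_zero, by rw [hee]; exact es, by rw [hee]; exact et, by rw [hee]; exact eu⟩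

theorem prim_unique {s t u s' t' u' : k[X]} (h : Prim s t u) (h' : Prim s' t' u') {L : Type}
    [Field L] (ι : k[X] →+* L) (hι : Function.Injective ι) {c : L} (hs : ι s = c * ι s')
    (ht : ι t = c * ι t') (hu : ι u = c * ι u') : md s t u = md s' t' u' := by
  obtain ⟨e, he, h1, h2, h3⟩ := g3c_unit h h' ι hι hs ht hu
  unfold md
  rw [h1, h2, h3, natDegree_C_mul he, natDegree_C_mul he, natDegree_C_mul he]

/-- the first component dominates -/
def Dom (s t u : k[X]) : Prop := t.degree < s.degree ∧ u.degree < s.degree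

theorem dom_unique {s t u s' t' u' : k[X]} (h : Prim s t u) (h' : Prim s' t' u') {L : Type}
    [Field L] (ι : k[X] →+* L) (hι : Function.Injective ι) {c : L} (hs : ι s = c * ι s')
    (ht : ι t = c * ι t') (hu : ι u = c * ι u') (hd : Dom s t u) : Dom s' t' u' := by
  obtain ⟨e, he, h1, h2, h3⟩ := g3c_unit h h' ι hι hs ht hu
  unfold Dom at hd ⊢
  rwa [h1, h2, h3, degree_C_mul he, degree_C_mul he, degree_C_mul he] at hd

theorem g3c_mul {a b c d : k[X]} (h : b.degree < a.degree) (h' : d.degree ≤ c.degree)
    (hc : c ≠ 0) : (b * d).degree < (a * c).degree := by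
  rw [degree_mul, degree_mul]
  have hc' : c.degree ≠ ⊥ := degree_ne_bot.2 hc
  calc b.degree + d.degree ≤ b.degree + c.degree := by gcongr
    _ < a.degree + c.degree := WithBot.add_lt_add_right hc' h

theorem dom_sym {a b c d : k[X]} (h : b.degree < a.degree) (h' : d.degree < c.degree) :
    Dom (a * c) (a * d + b * c) (b * d) := by
  have ha : a ≠ 0 := ne_zero_of_degree_gt h
  have hc : c ≠ 0 := ne_zero_of_degree_gt h'
  refine ⟨?_, g3c_mul h h'.le hc⟩
  refine (degree_add_le _ _).trans_lt (max_lt ?_ (g3c_mul h le_rfl hc))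
  rw [mul_comm a d, mul_comm a c]
  exact g3c_mul h' le_rfl ha

theorem g3c_cmul {v w : k[X]} (c : k) (h : v.degree < w.degree) : (C c * v).degree < w.degree := by
  by_cases hc : c = 0
  · rw [hc, C_0, zero_mul, degree_zero]
    exact bot_lt_iff_ne_bot.2 (degree_ne_bot.2 (ne_zero_of_degree_gt h))
  · rwa [degree_C_mul hc]

theorem dom_F {A B : k} {s t u : k[X]} (h : Dom s t u) :
    Dom (F0 (C A) (C B) s t u) (F1 (C A) (C B) s t u) (F2 (C A) (C B) s t u) := by
  obtain ⟨ht, hu⟩ := h
  have hs : s ≠ 0 := ne_zero_of_degree_gt ht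
  have st : (s * t).degree < (s * s).degree := by
    rw [mul_comm s t]; exact g3c_mul ht le_rfl hs
  have su : (s * u).degree < (s * s).degree := by
    rw [mul_comm s u]; exact g3c_mul hu le_rfl hs
  have tu : (t * u).degree < (s * s).degree := g3c_mul ht hu.le hs
  have tt : (t * t).degree < (s * s).degree := g3c_mul ht ht.le hs
  have uu : (u * u).degree < (s * s).degree := g3c_mul hu hu.le hs
  have E0 : F0 (C A) (C B) s t u =
      s * s + (C (-(2 * A)) * (s * u) + C (-(4 * B)) * (t * u) + C (A ^ 2) * (u * u)) := by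
    unfold F0
    simp only [C_mul, C_pow, map_ofNat, C_neg]
    ring
  have E1 : F1 (C A) (C B) s t u =
      C 2 * (s * t) + C (2 * A) * (t * u) + C (4 * B) * (u * u) := by
    unfold F1
    simp only [C_mul, map_ofNat]
    ring
  have E2 : F2 (C A) (C B) s t u = t * t + C (-4) * (s * u) := by
    unfold F2
    simp only [map_ofNat, C_neg]
    ring
  have D0 : (F0 (C A) (C B) s t u).degree = (s * s).degree := by
    rw [E0]
    apply degree_add_eq_left_of_degree_lt
    exact (degree_add_le _ _).trans_lt (max_lt ((degree_add_le _ _).trans_lt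
      (max_lt (g3c_cmul _ su) (g3c_cmul _ tu))) (g3c_cmul _ uu))
  refine ⟨?_, ?_⟩
  · rw [D0, E1]
    exact (degree_add_le _ _).trans_lt (max_lt ((degree_add_le _ _).trans_lt
      (max_lt (g3c_cmul _ st) (g3c_cmul _ tu))) (g3c_cmul _ uu))
  · rw [D0, E2]
    exact (degree_add_le _ _).trans_lt (max_lt tt (g3c_cmul _ su))

theorem g3c_half {a b c d : k[X]} (h : Dom (a * c) (a * d + b * c) (b * d)) :
    b.degree < a.degree := by
  obtain ⟨h1, h2⟩ := h
  have hac : a * c ≠ 0 := ne_zero_of_degree_gt h1
  have ha : a ≠ 0 := left_ne_zero_of_mul hac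
  have hc : c ≠ 0 := right_ne_zero_of_mul hac
  by_contra hcon
  rw [not_lt] at hcon
  have hb : b ≠ 0 := by
    intro h0
    rw [h0, degree_zero, le_bot_iff] at hcon
    exact ha (degree_eq_bot.1 hcon)
  by_cases hd : d = 0
  · rw [hd, mul_zero, zero_add, degree_mul, degree_mul] at h1
    exact absurd h1 (not_lt.2 (add_le_add_left hcon _))
  rw [degree_mul, degree_mul, degree_eq_natDegree ha, degree_eq_natDegree hb,
    degree_eq_natDegree hc, degree_eq_natDegree hd] at h2
  rw [degree_eq_natDegree ha, degree_eq_natDegree hb] at hcon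
  have hcon' : a.natDegree ≤ b.natDegree := by exact_mod_cast hcon
  have h2' : b.natDegree + d.natDegree < a.natDegree + c.natDegree := by exact_mod_cast h2
  have h3 : (a * d).degree < (b * c).degree := by
    rw [degree_mul, degree_mul, degree_eq_natDegree ha, degree_eq_natDegree hb,
      degree_eq_natDegree hc, degree_eq_natDegree hd]
    have : a.natDegree + d.natDegree < b.natDegree + c.natDegree := by omega
    exact_mod_cast this
  rw [add_comm, degree_add_eq_left_of_degree_lt h3, degree_mul, degree_mul,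
    degree_eq_natDegree ha, degree_eq_natDegree hb, degree_eq_natDegree hc] at h1
  have h1' : b.natDegree + c.natDegree < a.natDegree + c.natDegree := by exact_mod_cast h1
  omega

theorem dom_of_sym {a b c d : k[X]} (h : Dom (a * c) (a * d + b * c) (b * d)) :
    b.degree < a.degree ∧ d.degree < c.degree := by
  refine ⟨g3c_half h, g3c_half (a := c) (b := d) (c := a) (d := b) ?_⟩
  have e1 : c * a = a * c := mul_comm _ _
  have e2 : c * b + d * a = a * d + b * c := by ring
  have e3 : d * b = b * d := mul_comm _ _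
  rw [e1, e2, e3]
  exact h

end CM11
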