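import Pool.Agent.Lib.MP_34a732_nt.G2
import Pool.Agent.Lib.MP_34a732_nt.G3A
import Pool.Agent.Lib.MP_34a732_nt.G3B
import Pool.Agent.Lib.MP_34a732_nt.G3C

/-!
Module G4: heights: uniqueness, parallelogram law, poles at infinity.
PROOF of ht_unique.  For Rep S P a b and Rep S P a' b': (P0, P1) = xRep is (1,0) or (x,1); a b' = a' b by injectivity of ι
(cross-multiply: P0 ι b = P1 ι a, P0 ι b' = P1 ι a'; P0, P1 not both 0), so (coprimality) a' = e a, b' = e b with a unit e: Associated; the degrees agree.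
PROOF of ht_par.  Let (a,b), (c,d), (a',b'), (c',d') be the representations of P, Q, P+Q, P-Q.
There are λ ≠ 0 with P0 = λ ι a, P1 = λ ι b (from P0 ι b = P1 ι a and coprimality: λ = P1 / ι b if b ≠ 0, λ = P0 / ι a if b = 0) and the same for the others.
So sx P Q = λμ ι(ac), tx P Q = λμ ι(ad+bc), ux P Q = λμ ι(bd), and the same for P+Q, P-Q.  By add_sub_x (V.a₄ = algebraMap A = ι (C A): AlgHom.commutes) and homogeneity of F_i (degree 2),
(λμ)^2 ι(F_i(ac, ad+bc, bd)) = c λ'μ' ι(the i-th of (a'c', a'd'+b'c', b'd')).  Both vectors are primitive (prim_sym, prim_F), so their md agree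
(prim_unique with L = L, constant c λ'μ'/(λμ)^2), and md of the left is 2 md(ac, ad+bc, bd) = 2(m+n) (md_F, md_sym), of the right k + l (md_sym).
PROOF of pole_add.  The same vectors: dom_sym, dom_F, dom_unique, dom_of_sym.
-/

namespace CM11
open Polynomial WeierstrassCurve

variable {p : ℕ} [Fact p.Prime] {f : (ZMod p)[X]} {L : Type} [Field L] [Algebra (ZMod p) L]
  [DecidableEq L] {A B : ZMod p}

omit [DecidableEq L] in
theorem G4_xRep_ne {V : Affine L} (P : V.Point) : P.xRep 0 ≠ 0 ∨ P.xRep 1 ≠ 0 := by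
  by_cases h : P = 0
  · left
    rw [h, zero_xRep.1]
    exact one_ne_zero
  · right
    obtain ⟨x, y, hxy⟩ := exists_at h
    rw [(at_xRep hxy).2]
    exact one_ne_zero

omit [DecidableEq L] in
theorem G4_lam (S : FF p f L) {V : Affine L} {P : V.Point} {a b : (ZMod p)[X]}
    (h : Rep S P a b) : ∃ l : L, l ≠ 0 ∧ P.xRep 0 = l * S.ι a ∧ P.xRep 1 = l * S.ι b := by
  obtain ⟨⟨x, y, hxy⟩, h2⟩ := h
  have h3 : S.ι x * S.ι a + S.ι y * S.ι b = 1 := by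
    rw [← map_mul, ← map_mul, ← map_add, hxy, map_one]
  have e0 : P.xRep 0 = (S.ι x * P.xRep 0 + S.ι y * P.xRep 1) * S.ι a := by
    linear_combination (-(P.xRep 0)) * h3 + (S.ι y) * h2
  have e1 : P.xRep 1 = (S.ι x * P.xRep 0 + S.ι y * P.xRep 1) * S.ι b := by
    linear_combination (-(P.xRep 1)) * h3 - (S.ι x) * h2
  refine ⟨S.ι x * P.xRep 0 + S.ι y * P.xRep 1, ?_, e0, e1⟩
  intro h0
  rw [h0, zero_mul] at e0 e1
  rcases G4_xRep_ne P with h | h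
  · exact h e0
  · exact h e1

omit [DecidableEq L] in
theorem ht_unique (S : FF p f L) {V : Affine L} {P : V.Point} {m n : ℕ} (h : Ht S P m)
    (h' : Ht S P n) : m = n := by
  obtain ⟨a, b, hr, rfl⟩ := h
  obtain ⟨a', b', hr', rfl⟩ := h'
  obtain ⟨l, hl, e0, e1⟩ := G4_lam S hr
  obtain ⟨l', hl', e0', e1'⟩ := G4_lam S hr'
  have hp : ∀ {a b : (ZMod p)[X]}, IsCoprime a b → Prim a b 0 := by
    rintro a b ⟨x, y, hxy⟩
    exact ⟨x, y, 0, by rw [hxy, zero_mul, add_zero]⟩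
  have hm : ∀ a b : (ZMod p)[X], md a b 0 = max a.natDegree b.natDegree := by
    intro a b
    unfold md
    rw [natDegree_zero, Nat.max_zero]
  rw [← hm, ← hm]
  refine prim_unique (hp hr.1) (hp hr'.1) (S.ι : (ZMod p)[X] →+* L) S.inj (c := l⁻¹ * l') ?_ ?_ ?_
  · change S.ι a = _ * S.ι a'
    rw [mul_assoc, ← e0', e0, ← mul_assoc, inv_mul_cancel₀ hl, one_mul]
  · change S.ι b = _ * S.ι b'
    rw [mul_assoc, ← e1', e1, ← mul_assoc, inv_mul_cancel₀ hl, one_mul]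
  · simp

theorem G4_prop (h2 : (2 : ZMod p) ≠ 0) (hd : 4 * A ^ 3 + 27 * B ^ 2 ≠ 0) (S : FF p f L)
    {P Q : (EL L A B).Point} {a b c d a' b' c' d' : (ZMod p)[X]} (hP : Rep S P a b)
    (hQ : Rep S Q c d) (hs : Rep S (P + Q) a' b') (hd' : Rep S (P - Q) c' d') :
    ∃ κ : L,
      S.ι (F0 (C A) (C B) (a * c) (a * d + b * c) (b * d)) = κ * S.ι (a' * c') ∧
      S.ι (F1 (C A) (C B) (a * c) (a * d + b * c) (b * d)) = κ * S.ι (a' * d' + b' * c') ∧
      S.ι (F2 (C A) (C B) (a * c) (a * d + b * c) (b * d)) = κ * S.ι (b' * d') := by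
  obtain ⟨l, hl, p0, p1⟩ := G4_lam S hP
  obtain ⟨m, hm, q0, q1⟩ := G4_lam S hQ
  obtain ⟨l', hl', s0, s1⟩ := G4_lam S hs
  obtain ⟨m', hm', d0, d1⟩ := G4_lam S hd'
  obtain ⟨e, he, E0, E1, E2⟩ := add_sub_x (el_sh (L := L) h2 hd) P Q
  have hA : (EL L A B).a₄ = S.ι (C A) := by
    rw [el_a4]; exact (S.ι.commutes A).symm
  have hB : (EL L A B).a₆ = S.ι (C B) := by
    rw [el_a6]; exact (S.ι.commutes B).symm
  rw [hA, hB] at E0 E1 E2
  unfold sx tx ux at E0 E1 E2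
  simp only [p0, p1, q0, q1, s0, s1, d0, d1] at E0 E1 E2
  have hlm : (l * m) ^ 2 ≠ 0 := pow_ne_zero 2 (mul_ne_zero hl hm)
  refine ⟨e * (l' * m') / (l * m) ^ 2, ?_, ?_, ?_⟩
  · rw [div_mul_eq_mul_div, eq_div_iff hlm]
    unfold F0 at E0 ⊢
    simp only [map_add, map_sub, map_mul, map_pow, map_ofNat] at E0 ⊢
    linear_combination E0
  · rw [div_mul_eq_mul_div, eq_div_iff hlm]
    unfold F1 at E1 ⊢
    simp only [map_add, map_mul, map_pow, map_ofNat] at E1 ⊢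
    linear_combination E1
  · rw [div_mul_eq_mul_div, eq_div_iff hlm]
    unfold F2 at E2 ⊢
    simp only [map_add, map_sub, map_mul, map_pow, map_ofNat] at E2 ⊢
    linear_combination E2

/-- the parallelogram law -/
theorem ht_par (h2 : (2 : ZMod p) ≠ 0) (hd : 4 * A ^ 3 + 27 * B ^ 2 ≠ 0) (S : FF p f L)
    {P Q : (EL L A B).Point} {m n k l : ℕ} (hP : Ht S P m) (hQ : Ht S Q n) (hs : Ht S (P + Q) k)
    (hd' : Ht S (P - Q) l) : k + l = 2 * m + 2 * n := by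
  obtain ⟨a, b, rP, rfl⟩ := hP
  obtain ⟨c, d, rQ, rfl⟩ := hQ
  obtain ⟨a', b', rs, rfl⟩ := hs
  obtain ⟨c', d', rd, rfl⟩ := hd'
  obtain ⟨κ, K0, K1, K2⟩ := G4_prop h2 hd S rP rQ rs rd
  have h := prim_unique (prim_F h2 hd (prim_sym rP.1 rQ.1)) (prim_sym rs.1 rd.1)
    (S.ι : (ZMod p)[X] →+* L) S.inj (c := κ) K0 K1 K2
  rw [md_F h2 hd (prim_sym rP.1 rQ.1), md_sym rP.1 rQ.1, md_sym rs.1 rd.1] at h
  omega

theorem pole_add (h2 : (2 : ZMod p) ≠ 0) (hd : 4 * A ^ 3 + 27 * B ^ 2 ≠ 0) (S : FF p f L)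
    {P Q : (EL L A B).Point} {k l : ℕ} (hP : Pole S P) (hQ : Pole S Q) (hs : Ht S (P + Q) k)
    (hd' : Ht S (P - Q) l) : Pole S (P + Q) := by
  obtain ⟨a, b, rP, gP⟩ := hP
  obtain ⟨c, d, rQ, gQ⟩ := hQ
  obtain ⟨a', b', rs, _⟩ := hs
  obtain ⟨c', d', rd, _⟩ := hd'
  obtain ⟨κ, K0, K1, K2⟩ := G4_prop h2 hd S rP rQ rs rd
  have h := dom_unique (prim_F h2 hd (prim_sym rP.1 rQ.1)) (prim_sym rs.1 rd.1)
    (S.ι : (ZMod p)[X] →+* L) S.inj (c := κ) K0 K1 K2 (dom_F (dom_sym gP gQ))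
  exact ⟨a', b', rs, (dom_of_sym h).1⟩

end CM11
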