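import Mathlib

/-!
Module G7A: d/dt on the field of rational functions (any version of it: here K is any fraction field of k[X]).
PROOF.  δ(a/b) = (a' b - a b') / b^2.  Well defined by the quotient rule.  Possible constructions: (1) directly with IsFractionRing/IsLocalization
lifting: choose numerator and denominator with IsFractionRing.div_surjective and prove independence of the choice; (2) through dual numbers: the ring homomorphism
k[X] → TrivSqZeroExt K K (or DualNumber K), a ↦ (a, a'), maps nonzero polynomials to units (first component nonzero), so it lifts to K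
(IsLocalization.lift), the second component of the lift is the derivation.  (3) Mathlib may have a ready-made lemma (search Derivation + Localization, Derivation.liftKaehlerDifferential, KaehlerDifferential + formally etale).
-/

namespace CM11
open Polynomial

/-- `a ↦ (a, a')` -/
noncomputable def g7a_phi (k K : Type) [Field k] [Field K] [Algebra k[X] K] :
    k[X] →+* TrivSqZeroExt K K where
  toFun a := TrivSqZeroExt.inl (algebraMap k[X] K a) +
    TrivSqZeroExt.inr (algebraMap k[X] K (derivative a))
  map_one' := by
    ext <;> simp
  map_mul' a b := by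
    ext
    · simp
    · simp only [derivative_mul, map_add, map_mul, TrivSqZeroExt.snd_add, TrivSqZeroExt.snd_inl,
        TrivSqZeroExt.snd_inr, TrivSqZeroExt.snd_mul, TrivSqZeroExt.fst_add,
        TrivSqZeroExt.fst_inl, TrivSqZeroExt.fst_inr, zero_add, add_zero, smul_eq_mul,
        MulOpposite.smul_eq_mul_unop, MulOpposite.unop_op]
      ring
  map_zero' := by
    ext <;> simp
  map_add' a b := by
    ext <;> simp [Algebra.smul_def]

theorem g7a_fst (k K : Type) [Field k] [Field K] [Algebra k[X] K] (a : k[X]) :
    (g7a_phi k K a).fst = algebraMap k[X] K a := by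
  simp [g7a_phi, Algebra.smul_def]

theorem g7a_snd (k K : Type) [Field k] [Field K] [Algebra k[X] K] (a : k[X]) :
    (g7a_phi k K a).snd = algebraMap k[X] K (derivative a) := by
  show (TrivSqZeroExt.inl (algebraMap k[X] K a) +
    TrivSqZeroExt.inr (algebraMap k[X] K (derivative a)) : TrivSqZeroExt K K).snd = _
  rw [TrivSqZeroExt.snd_add, TrivSqZeroExt.snd_inl, TrivSqZeroExt.snd_inr, zero_add]

theorem exists_derivation (k K : Type) [Field k] [Field K] [Algebra k K] [Algebra k[X] K]
    [IsScalarTower k k[X] K] [IsFractionRing k[X] K] :
    ∃ δ : Derivation k K K, ∀ a : k[X],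
      δ (algebraMap k[X] K a) = algebraMap k[X] K (derivative a) := by
  have hu : ∀ y : nonZeroDivisors k[X], IsUnit (g7a_phi k K y) := by
    intro y
    rw [TrivSqZeroExt.isUnit_iff_isUnit_fst]
    have h0 : (y : k[X]) ≠ 0 := nonZeroDivisors.ne_zero y.2
    have : algebraMap k[X] K (y : k[X]) ≠ 0 := by
      intro h
      exact h0 ((IsFractionRing.injective k[X] K) (by rw [h, map_zero]))
    rw [g7a_fst]
    exact isUnit_iff_ne_zero.mpr this
  let L : K →+* TrivSqZeroExt K K := IsLocalization.lift (M := nonZeroDivisors k[X]) hu
  have hL : ∀ a : k[X], L (algebraMap k[X] K a) = g7a_phi k K a := fun a =>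
    IsLocalization.lift_eq hu a
  have hfst : ∀ x : K, (L x).fst = x := by
    have : ((TrivSqZeroExt.fstHom K K K : TrivSqZeroExt K K →ₐ[K] K) : TrivSqZeroExt K K →+* K).comp L
        = RingHom.id K := by
      apply IsLocalization.ringHom_ext (nonZeroDivisors k[X])
      refine RingHom.ext fun a => ?_
      simp [hL, g7a_fst]
    intro x
    exact RingHom.congr_fun this x
  have hk : ∀ c : k, (L (algebraMap k K c)).snd = 0 := by
    intro c
    rw [IsScalarTower.algebraMap_apply k k[X] K, hL]
    simp [g7a_snd, Polynomial.algebraMap_eq]
  refine ⟨Derivation.mk'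
    { toFun := fun x => (L x).snd
      map_add' := fun x y => by simp
      map_smul' := fun c x => by
        rw [Algebra.smul_def, map_mul]
        simp [hk, hfst, Algebra.smul_def] } ?_, ?_⟩
  · intro x y
    simp [hfst, mul_comm]
  · intro a
    show (L (algebraMap k[X] K a)).snd = _
    rw [hL, g7a_snd]

end CM11
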