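import Pool.Agent.Lib.MP_34a732_nt.Defs
import Pool.Agent.Lib.MP_34a732_nt.G7A

/-!
Module G7B: the function field of s^2 = f(t) exists with everything in the structure FF.
PROOF.  K = RatFunc (ZMod p) or FractionRing (ZMod p)[X].  The image F of f is not a square in K: if (a/b)^2 = f then a^2 = f b^2, and natDegree f is odd (f ≠ 0): parity of natDegree.
L = QuadraticAlgebra K F 0 (Mathlib.Algebra.QuadraticAlgebra; it is a Field instance under Fact (∀ r, r^2 ≠ F + 0 * r)), elements u + v s; alternatively AdjoinRoot (X^2 - C F).
The algebra over ZMod p through K.  ι = algebra map of (ZMod p)[X] via K.  σ(u+vs) = u - vs.  fix: v = -v and 2 ≠ 0, so x = u = a/b.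
D(u+vs) = δu + (δv + v F'/(2F)) s with δ from G7A; Leibniz: D is K-semilinear and D(s) s + s D(s) = F'.
lift: x transcendental (hypothesis) so (ZMod p)[X] → L, a ↦ aeval x a is injective and extends to K → L (IsFractionRing.lift / IsLocalization.lift), then to L by s ↦ y (QuadraticAlgebra.lift or by hand),
since y^2 = aeval x f.
-/

namespace CM11
open Polynomial

section g7b
variable {k : Type} [Field k]

theorem g7b_notsq (K : Type) [Field K] [Algebra k[X] K] [IsFractionRing k[X] K] {f : k[X]}
    (hf : Odd f.natDegree) (r : K) : r ^ 2 ≠ algebraMap k[X] K f + 0 * r := by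
  intro h
  obtain ⟨a, b, hb, rfl⟩ := IsFractionRing.div_surjective (A := k[X]) r
  have hb0 : b ≠ 0 := nonZeroDivisors.ne_zero hb
  have hbK : algebraMap k[X] K b ≠ 0 := by
    intro h'
    exact hb0 ((IsFractionRing.injective k[X] K) (by rw [h', map_zero]))
  have h1 : algebraMap k[X] K (a ^ 2) = algebraMap k[X] K (f * b ^ 2) := by
    rw [zero_mul, add_zero, div_pow, div_eq_iff (pow_ne_zero 2 hbK)] at h
    rw [map_mul, map_pow, map_pow, h]
  have h2 : a ^ 2 = f * b ^ 2 := IsFractionRing.injective k[X] K h1
  have hf0 : f ≠ 0 := by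
    rintro rfl
    simp at hf
  have h3 := congrArg natDegree h2
  rw [natDegree_pow, natDegree_mul hf0 (pow_ne_zero 2 hb0), natDegree_pow] at h3
  obtain ⟨m, hm⟩ := hf
  omega

variable {K : Type} [Field K] [Algebra k K]

/-- the derivation of the quadratic extension -/
noncomputable def g7b_D (F : K) (h2 : (2 : K) ≠ 0) (hF : F ≠ 0) (δ : Derivation k K K) :
    Derivation k (QuadraticAlgebra K F 0) (QuadraticAlgebra K F 0) :=
  Derivation.mk'
    { toFun := fun z => ⟨δ z.re, δ z.im + z.im * (δ F / (2 * F))⟩
      map_add' := fun z w => by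
        ext
        · simp
        · simp
          ring
      map_smul' := fun c z => by
        ext
        · simp
        · show δ (c • z.im) + (c • z.im) * (δ F / (2 * F)) =
            c • (δ z.im + z.im * (δ F / (2 * F)))
          rw [δ.map_smul, smul_add, smul_mul_assoc] }
    (fun z w => by
      ext
      · simp
        field_simp
        ring
      · simp
        ring)

theorem g7b_D_re (F : K) (h2 : (2 : K) ≠ 0) (hF : F ≠ 0) (δ : Derivation k K K)
    (z : QuadraticAlgebra K F 0) : (g7b_D F h2 hF δ z).re = δ z.re := rfl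

theorem g7b_D_im (F : K) (h2 : (2 : K) ≠ 0) (hF : F ≠ 0) (δ : Derivation k K K)
    (z : QuadraticAlgebra K F 0) :
    (g7b_D F h2 hF δ z).im = δ z.im + z.im * (δ F / (2 * F)) := rfl

/-- the conjugation -/
noncomputable def g7b_sigma (F : K) :
    QuadraticAlgebra K F 0 →ₐ[k] QuadraticAlgebra K F 0 where
  toFun z := ⟨z.re, -z.im⟩
  map_one' := by ext <;> simp [QuadraticAlgebra.re_one, QuadraticAlgebra.im_one]
  map_zero' := by ext <;> simp
  map_mul' z w := by
    ext
    · simp
    · simp
      ring
  map_add' z w := by
    ext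
    · simp
    · simp
      ring
  commutes' c := by
    have h : algebraMap k (QuadraticAlgebra K F 0) c = c • 1 := Algebra.algebraMap_eq_smul_one c
    rw [h]
    ext <;> simp [QuadraticAlgebra.re_one, QuadraticAlgebra.im_one]

/-- maps out of the quadratic extension -/
noncomputable def g7b_tau (F : K) {M : Type} [Field M] [Algebra k M] (φ : K →ₐ[k] M) (y : M)
    (hy : y ^ 2 = φ F) : QuadraticAlgebra K F 0 →ₐ[k] M where
  toFun z := φ z.re + φ z.im * y
  map_one' := by simp [QuadraticAlgebra.re_one, QuadraticAlgebra.im_one]
  map_zero' := by simp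
  map_mul' z w := by
    simp only [QuadraticAlgebra.re_mul, QuadraticAlgebra.im_mul, map_add, map_mul,
      zero_mul, add_zero, ← hy]
    ring
  map_add' z w := by
    simp only [QuadraticAlgebra.re_add, QuadraticAlgebra.im_add, map_add]
    ring
  commutes' c := by
    have h : algebraMap k (QuadraticAlgebra K F 0) c = c • 1 := Algebra.algebraMap_eq_smul_one c
    rw [h]
    simp [QuadraticAlgebra.re_one, QuadraticAlgebra.im_one, Algebra.algebraMap_eq_smul_one]

end g7b

theorem exists_FF {p : ℕ} [Fact p.Prime] (h2 : p ≠ 2) {f : (ZMod p)[X]} (hf : Odd f.natDegree) :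
    ∃ (L : Type) (_ : Field L) (_ : Algebra (ZMod p) L), Nonempty (FF p f L) := by
  let K : Type := FractionRing (ZMod p)[X]
  let F : K := algebraMap (ZMod p)[X] K f
  have : Fact (∀ r : K, r ^ 2 ≠ F + 0 * r) := ⟨g7b_notsq K hf⟩
  have h2k : (2 : ZMod p) ≠ 0 := by
    intro h
    have h' : ((2 : ℕ) : ZMod p) = 0 := by exact_mod_cast h
    rw [ZMod.natCast_eq_zero_iff] at h'
    exact h2 ((Nat.prime_dvd_prime_iff_eq (Fact.out : p.Prime) Nat.prime_two).mp h')
  have h2K : (2 : K) ≠ 0 := by
    have h := (map_ne_zero (algebraMap (ZMod p) K)).mpr h2k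
    rw [map_ofNat] at h
    exact h
  have hf0 : f ≠ 0 := by
    rintro rfl
    simp at hf
  have hF0 : F ≠ 0 := by
    intro h'
    exact hf0 ((IsFractionRing.injective (ZMod p)[X] K) (by
      show F = _
      rw [h', map_zero]))
  obtain ⟨δ, hδ⟩ := exists_derivation (ZMod p) K
  refine ⟨QuadraticAlgebra K F 0, inferInstance, inferInstance, ⟨?_⟩⟩
  exact
    { ι := (IsScalarTower.toAlgHom (ZMod p) K (QuadraticAlgebra K F 0)).comp
        (IsScalarTower.toAlgHom (ZMod p) (ZMod p)[X] K)
      inj := by
        intro a b hab
        have h1 := congrArg QuadraticAlgebra.re hab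
        exact IsFractionRing.injective (ZMod p)[X] K h1
      s := ⟨0, 1⟩
      ssq := by
        rw [pow_two]
        ext
        · simp
          rfl
        · simp
      σ := g7b_sigma F
      σι := by
        intro a
        ext
        · rfl
        · show -(0 : K) = 0
          simp
      σs := by
        ext
        · show (0 : K) = -0
          simp
        · rfl
      fix := by
        intro x hx
        have h1 : -x.im = x.im := congrArg QuadraticAlgebra.im hx
        have h3 : x.im = 0 := by
          have : (2 : K) * x.im = 0 := by linear_combination -h1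
          rcases mul_eq_zero.mp this with h | h
          · exact absurd h h2K
          · exact h
        obtain ⟨a, b, hb, hab⟩ := IsFractionRing.div_surjective (A := (ZMod p)[X]) x.re
        have hb0 : b ≠ 0 := nonZeroDivisors.ne_zero hb
        have hbK : algebraMap (ZMod p)[X] K b ≠ 0 := by
          intro h'
          exact hb0 ((IsFractionRing.injective (ZMod p)[X] K) (by rw [h', map_zero]))
        refine ⟨a, b, hb0, ?_⟩
        ext
        · show x.re * algebraMap (ZMod p)[X] K b + F * x.im * 0 = algebraMap (ZMod p)[X] K a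
          rw [← hab, mul_zero, add_zero, div_mul_cancel₀ _ hbK]
        · show x.re * 0 + x.im * algebraMap (ZMod p)[X] K b + 0 * x.im * 0 = 0
          rw [h3]
          ring
      D := g7b_D F h2K hF0 δ
      Dι := by
        intro a
        ext
        · exact hδ a
        · show δ (0 : K) + 0 * _ = 0
          simp
      lift := by
        intro x y hx hy
        have hinj : Function.Injective (aeval x : (ZMod p)[X] →ₐ[ZMod p] QuadraticAlgebra K F 0) :=
          (injective_iff_map_eq_zero _).mpr hx
        let φ : K →ₐ[ZMod p] QuadraticAlgebra K F 0 := IsFractionRing.liftAlgHom hinj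
        have hφ : ∀ a : (ZMod p)[X], φ (algebraMap (ZMod p)[X] K a) = aeval x a := by
          intro a
          exact IsFractionRing.lift_algebraMap hinj a
        have hy' : y ^ 2 = φ F := by rw [hφ, hy]
        refine ⟨g7b_tau F φ y hy', ?_, ?_⟩
        · intro a
          show φ (algebraMap (ZMod p)[X] K a) + φ 0 * y = _
          rw [hφ, map_zero, zero_mul, add_zero]
        · show φ 0 + φ 1 * y = y
          rw [map_zero, map_one, one_mul, zero_add] }

end CM11
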