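import Pool.Agent.Lib.MP_34a732_nt.G8

/-!
Module G9: Frobenius; the height of Frob - 1 counts points (Manin).
exists_frob: x ↦ x^p is an algebra homomorphism over ZMod p (frobenius, ZMod.pow_card; CharP L p from the algebra structure: charP_of_injective_algebraMap).
PROOF of frob_count.  q = (p-1)/2, f = ff p A B, t = ι X.  Fr G = (t^p, s^p), s^p = s ι(f^q).  -G = (t, -s).  t^p ≠ t (ι injective), slope m with
m (t^p - t) = s^p + s, m = s ι(f^q+1)/(t^p-t).  at_add: x(Fr G - G) = m^2 - t^p - t = ι N0 / ι(D0)^2, D0 = X^p - X, N0 = f (f^q+1)^2 - (X^p+X) D0^2.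
Expand: f^p = X^(3p) + A X^p + B (Frobenius of the polynomial ring, coefficients in ZMod p), so
N0 = X^(2p+1) + [A X^p + B + 2 f^(q+1) + f + X^(p+2) - X^3], and the bracket has degree at most max(3(p+1)/2, p+2) < 2p+1 (p odd; p ≥ 3): N0 has degree 2p+1.
D0 = prod over c in ZMod p of (X - c) (Mathlib: FiniteField.X_pow_card_sub_X ... prod_X_sub_C; or ZMod version), D0^2 has degree 2p.
Let Sq = {c : f(c) nonzero square}, Ro = {c : f(c) = 0}, Ns = {c : f(c) nonsquare}; f(c)^q = 1, 0, -1 (ZMod.euler_criterion, quadraticChar).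
Set g = prod_{Ns} (X-c)^2 * prod_{Ro} (X-c), b = prod_{Sq} (X-c)^2 * prod_{Ro} (X-c), so D0^2 = g b.
g divides N0: for c in Ns, X-c divides f^q+1 (value 0), so (X-c)^2 divides f (f^q+1)^2 and D0^2; for c in Ro, X - c divides f and D0^2; coprime factors: Finset.prod_dvd_of_coprime.
N0 = g a.  a and b coprime: it is enough that X-c does not divide a for c in Sq or Ro (b is a product of such factors; IsCoprime.prod_right, prime X - C c).
c in Sq: N0(c) = f(c)·4 ≠ 0.  c in Ro: (X-c)^2 does not divide N0, because it divides D0^2 and does not divide f (f^q+1)^2 = f · (unit at c) as the roots of f are simple: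
N0'(c) = f'(c) ≠ 0 (disc ≠ 0), while X-c | a would give (X-c)^2 | N0.
Height = max(deg a, deg b) = deg a = 2p + 1 - 2|Ns| - |Ro| (deg b = 2p - 2|Ns| - |Ro|), and NA = sum over c of the number of square roots of f(c) = 2|Sq| + |Ro| = 2(p - |Ns| - |Ro|) + |Ro| = 2p - 2|Ns| - |Ro|.
-/

namespace CM11
open Polynomial WeierstrassCurve

variable {p : ℕ} [Fact p.Prime] {L : Type} [Field L] [Algebra (ZMod p) L]
  {A B : ZMod p}

theorem exists_frob (p : ℕ) [Fact p.Prime] (L : Type) [Field L] [Algebra (ZMod p) L] :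
    ∃ Fr : L →ₐ[ZMod p] L, ∀ x, Fr x = x ^ p := by
  have : CharP L p :=
    charP_of_injective_algebraMap (algebraMap (ZMod p) L).injective p
  refine ⟨{ frobenius L p with
    commutes' := fun r => ?_ }, fun x => rfl⟩
  change (algebraMap (ZMod p) L r) ^ p = algebraMap (ZMod p) L r
  rw [← map_pow, ZMod.pow_card]

/-- multiplicity of the root `c` in the first factor -/
noncomputable def g9_e (A B c : ZMod p) : ℕ :=
  open Classical in
  if c ^ 3 + A * c + B = 0 then 1 else if IsSquare (c ^ 3 + A * c + B) then 0 else 2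

theorem g9_e_le (A B c : ZMod p) : g9_e A B c ≤ 2 := by
  unfold g9_e
  split_ifs <;> omega

theorem g9_two (hp : 3 < p) : (2 : ZMod p) ≠ 0 := by
  intro h
  have h1 : ((2 : ℕ) : ZMod p) = 0 := by exact_mod_cast h
  rw [ZMod.natCast_eq_zero_iff] at h1
  have := Nat.le_of_dvd (by norm_num) h1
  omega

theorem g9_odd (hp : 3 < p) : 2 * (p / 2) + 1 = p := by
  have h1 := (Fact.out : p.Prime).eq_two_or_odd
  omega

theorem g9_sqrts (hp : 3 < p) (v : ZMod p) :
    ((Finset.univ.filter fun y : ZMod p => y ^ 2 = v).card : ℤ) = quadraticChar (ZMod p) v + 1 := by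
  have h := quadraticChar_card_sqrts (F := ZMod p)
    (by rw [ZMod.ringChar_zmod_n]; omega) v
  rw [← h]
  congr 2
  ext y
  simp

theorem g9_sqrts' (hp : 3 < p) (A B c : ZMod p) :
    (Finset.univ.filter fun y : ZMod p => y ^ 2 = c ^ 3 + A * c + B).card = 2 - g9_e A B c := by
  have h := g9_sqrts hp (c ^ 3 + A * c + B)
  unfold g9_e
  by_cases h0 : c ^ 3 + A * c + B = 0
  · rw [if_pos h0]
    rw [h0, quadraticChar_zero] at h
    rw [h0]
    omega
  · rw [if_neg h0]
    by_cases h1 : IsSquare (c ^ 3 + A * c + B)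
    · rw [if_pos h1]
      rw [(quadraticChar_one_iff_isSquare h0).2 h1] at h
      omega
    · rw [if_neg h1]
      rw [quadraticChar_neg_one_iff_not_isSquare.2 h1] at h
      omega

theorem g9_NA (hp : 3 < p) : NA p A B + ∑ c : ZMod p, g9_e A B c = 2 * p := by
  have h1 : NA p A B = ∑ c : ZMod p, (2 - g9_e A B c) := by
    unfold NA
    rw [Finset.card_filter, ← Finset.univ_product_univ, Finset.sum_product]
    refine Finset.sum_congr rfl fun c _ => ?_
    rw [← g9_sqrts' hp, Finset.card_filter]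
  rw [h1, ← Finset.sum_add_distrib]
  have h2 : ∀ c ∈ (Finset.univ : Finset (ZMod p)), 2 - g9_e A B c + g9_e A B c = 2 := by
    intro c _
    have := g9_e_le A B c
    omega
  rw [Finset.sum_congr rfl h2, Finset.sum_const, Finset.card_univ, ZMod.card]
  simp [mul_comm]

theorem g9_prod : (X ^ p - X : (ZMod p)[X]) = ∏ c : ZMod p, (X - C c) := by
  have h1 : (X ^ p - X : (ZMod p)[X]).roots = Finset.univ.val := by
    have := FiniteField.roots_X_pow_card_sub_X (ZMod p)
    rwa [ZMod.card] at this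
  have hlt : 1 < p := (Fact.out : p.Prime).one_lt
  have hmon : (X ^ p - X : (ZMod p)[X]).Monic := by
    apply monic_X_pow_sub
    rw [degree_X]
    exact_mod_cast hlt
  have hcard : (X ^ p - X : (ZMod p)[X]).roots.card = (X ^ p - X : (ZMod p)[X]).natDegree := by
    rw [h1, FiniteField.X_pow_card_sub_X_natDegree_eq (ZMod p) hlt, Finset.card_val,
      Finset.card_univ, ZMod.card]
  have h2 := prod_multiset_X_sub_C_of_monic_of_roots_card_eq hmon hcard
  rw [h1] at h2
  exact h2.symm

theorem g9_evalf (c : ZMod p) : (ff p A B).eval c = c ^ 3 + A * c + B := by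
  unfold ff
  simp

theorem g9_evalD (c : ZMod p) : (X ^ p - X : (ZMod p)[X]).eval c = 0 := by
  simp [ZMod.pow_card]

theorem g9_natDegf : (ff p A B).natDegree ≤ 3 := by
  unfold ff
  refine natDegree_add_le_of_degree_le (natDegree_add_le_of_degree_le ?_ ?_) ?_
  · rw [natDegree_X_pow]
  · refine (natDegree_C_mul_le _ _).trans ?_
    rw [natDegree_X]
    norm_num
  · rw [natDegree_C]
    norm_num

theorem g9_fp : (ff p A B) ^ p = X ^ (3 * p) + C A * X ^ p + C B := by
  have : CharP (ZMod p)[X] p := inferInstance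
  unfold ff
  rw [add_pow_char, add_pow_char, mul_pow, ← pow_mul, ← C_pow, ← C_pow, ZMod.pow_card,
    ZMod.pow_card]

theorem g9_N0 (hp : 3 < p) :
    ff p A B * (ff p A B ^ (p / 2) + 1) ^ 2 - (X ^ p + X) * (X ^ p - X) ^ 2 =
      X ^ (2 * p + 1) + (C A * X ^ p + C B + 2 * ff p A B ^ (p / 2 + 1) + ff p A B
        + X ^ (p + 2) - X ^ 3) := by
  have hodd := g9_odd (p := p) hp
  have h1 : ff p A B * (ff p A B ^ (p / 2) + 1) ^ 2 =
      ff p A B ^ (2 * (p / 2) + 1) + 2 * ff p A B ^ (p / 2 + 1) + ff p A B := by ring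
  rw [h1, hodd, g9_fp]
  have h2 : (X ^ (3 * p) : (ZMod p)[X]) = (X ^ p) ^ 3 := by rw [← pow_mul, mul_comm]
  have h3 : (X ^ (2 * p + 1) : (ZMod p)[X]) = (X ^ p) ^ 2 * X := by
    rw [pow_succ, ← pow_mul, mul_comm 2 p]
  have h4 : (X ^ (p + 2) : (ZMod p)[X]) = X ^ p * X ^ 2 := pow_add _ _ _
  rw [h2, h3, h4]
  ring

theorem g9_degN0 (hp : 3 < p) :
    (ff p A B * (ff p A B ^ (p / 2) + 1) ^ 2 - (X ^ p + X) * (X ^ p - X) ^ 2).natDegree =
      2 * p + 1 := by
  have hodd := g9_odd (p := p) hp
  rw [g9_N0 hp]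
  have hb : (C A * X ^ p + C B + 2 * ff p A B ^ (p / 2 + 1) + ff p A B
        + X ^ (p + 2) - X ^ 3).natDegree ≤ 2 * p := by
    refine (natDegree_sub_le_of_le ?_ (natDegree_X_pow_le 3)).trans
      (max_le le_rfl (by omega))
    refine natDegree_add_le_of_degree_le ?_ ((natDegree_X_pow_le _).trans (by omega))
    refine natDegree_add_le_of_degree_le ?_ (g9_natDegf.trans (by omega))
    refine natDegree_add_le_of_degree_le ?_ ?_
    · refine natDegree_add_le_of_degree_le ?_ ?_
      · refine (natDegree_C_mul_le _ _).trans ((natDegree_X_pow_le _).trans (by omega))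
      · rw [natDegree_C]
        omega
    · have h2 : (2 : (ZMod p)[X]) = C 2 := (map_ofNat C 2).symm
      rw [h2]
      refine (natDegree_C_mul_le _ _).trans (natDegree_pow_le.trans ?_)
      have := g9_natDegf (p := p) (A := A) (B := B)
      calc (p / 2 + 1) * (ff p A B).natDegree ≤ (p / 2 + 1) * 3 := by gcongr
        _ ≤ 2 * p := by omega
  rw [natDegree_add_eq_left_of_natDegree_lt]
  · rw [natDegree_X_pow]
  · rw [natDegree_X_pow]
    omega

/-- the polynomial part: Manin's fraction in lowest terms -/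
theorem frob_poly (hp : 3 < p) (hd : 4 * A ^ 3 + 27 * B ^ 2 ≠ 0) :
    ∃ g a b : (ZMod p)[X], g ≠ 0 ∧ IsCoprime a b ∧
      ff p A B * (ff p A B ^ (p / 2) + 1) ^ 2 - (X ^ p + X) * (X ^ p - X) ^ 2 = g * a ∧
      (X ^ p - X) ^ 2 = g * b ∧ max a.natDegree b.natDegree = NA p A B + 1 := by
  have hodd := g9_odd (p := p) hp
  have h2 := g9_two (p := p) hp
  set F := ff p A B with hF
  set N0 := F * (F ^ (p / 2) + 1) ^ 2 - (X ^ p + X) * (X ^ p - X) ^ 2 with hN0
  have hq : p / 2 ≠ 0 := by omega
  have hF0 : F * (F ^ (p / 2) + 1) ^ 2 = N0 + (X ^ p + X) * (X ^ p - X) ^ 2 := by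
    rw [hN0]; ring
  set g : (ZMod p)[X] := ∏ c : ZMod p, (X - C c) ^ g9_e A B c with hg
  set b : (ZMod p)[X] := ∏ c : ZMod p, (X - C c) ^ (2 - g9_e A B c) with hb
  have hgb : (X ^ p - X) ^ 2 = g * b := by
    rw [g9_prod, hg, hb, ← Finset.prod_mul_distrib, ← Finset.prod_pow]
    refine Finset.prod_congr rfl fun c _ => ?_
    rw [← pow_add]
    congr 1
    have := g9_e_le A B c
    omega
  have hmong : g.Monic := monic_prod_of_monic _ _ fun c _ => (monic_X_sub_C c).pow _
  have hmonb : b.Monic := monic_prod_of_monic _ _ fun c _ => (monic_X_sub_C c).pow _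
  have hdegg : g.natDegree = ∑ c : ZMod p, g9_e A B c := by
    rw [hg, natDegree_prod_of_monic _ _ fun c _ => (monic_X_sub_C c).pow _]
    refine Finset.sum_congr rfl fun c _ => ?_
    rw [(monic_X_sub_C c).natDegree_pow, natDegree_X_sub_C, mul_one]
  have hdvdD : ∀ c : ZMod p, (X - C c) ∣ (X ^ p - X : (ZMod p)[X]) := fun c =>
    dvd_iff_isRoot.2 (g9_evalD c)
  have hdvd : g ∣ N0 := by
    refine Finset.prod_dvd_of_coprime ?_ ?_
    · intro c _ d _ hcd
      exact (pairwise_coprime_X_sub_C (Function.injective_id) hcd).pow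
    · intro c _
      have hD2 : (X - C c) ^ 2 ∣ (X ^ p + X) * (X ^ p - X : (ZMod p)[X]) ^ 2 :=
        (pow_dvd_pow_of_dvd (hdvdD c) 2).mul_left _
      unfold g9_e
      by_cases h0 : c ^ 3 + A * c + B = 0
      · rw [if_pos h0, pow_one]
        have h3 : (X - C c) ∣ F := dvd_iff_isRoot.2 (by
          change F.eval c = 0
          rw [hF, g9_evalf, h0])
        exact dvd_sub (h3.mul_right _) ((dvd_pow_self _ two_ne_zero).trans hD2)
      · rw [if_neg h0]
        by_cases h1 : IsSquare (c ^ 3 + A * c + B)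
        · rw [if_pos h1, pow_zero]
          exact one_dvd _
        · rw [if_neg h1]
          have h3 : (X - C c) ∣ (F ^ (p / 2) + 1) := dvd_iff_isRoot.2 (by
            change (F ^ (p / 2) + 1).eval c = 0
            rw [eval_add, eval_pow, eval_one, hF, g9_evalf]
            rcases ZMod.pow_div_two_eq_neg_one_or_one p h0 with h4 | h4
            · exact absurd ((ZMod.euler_criterion p h0).2 h4) h1
            · rw [h4]; ring)
          exact dvd_sub ((pow_dvd_pow_of_dvd h3 2).mul_left _) hD2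
  obtain ⟨a, ha⟩ := hdvd
  have hN0deg : N0.natDegree = 2 * p + 1 := g9_degN0 hp
  have hN0ne : N0 ≠ 0 := by
    intro h
    rw [h, natDegree_zero] at hN0deg
    omega
  have hane : a ≠ 0 := by
    intro h
    rw [h, mul_zero] at ha
    exact hN0ne ha
  refine ⟨g, a, b, hmong.ne_zero, ?_, ha, hgb, ?_⟩
  · rw [hb]
    refine IsCoprime.prod_right fun c _ => ?_
    by_cases hns : 2 - g9_e A B c = 0
    · rw [hns, pow_zero]
      exact isCoprime_one_right
    refine IsCoprime.pow_right ?_
    refine IsCoprime.symm ((irreducible_X_sub_C c).coprime_iff_not_dvd.2 ?_)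
    intro hca
    have hNc : N0.eval c = 0 := by
      rw [ha, eval_mul, (dvd_iff_isRoot.1 hca : a.eval c = 0), mul_zero]
    have hNc' : N0.eval c = (c ^ 3 + A * c + B) * ((c ^ 3 + A * c + B) ^ (p / 2) + 1) ^ 2 := by
      rw [hN0]
      rw [eval_sub, eval_mul, eval_mul, eval_pow (n := 2) , eval_pow (n := 2), g9_evalD,
        eval_add, eval_pow, eval_one, hF, g9_evalf]
      ring
    by_cases h0 : c ^ 3 + A * c + B = 0
    · -- double root
      have he : g9_e A B c = 1 := by unfold g9_e; rw [if_pos h0]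
      have hcg : (X - C c) ∣ g := by
        have h5 : (X - C c) ^ g9_e A B c ∣ g := Finset.dvd_prod_of_mem _ (Finset.mem_univ c)
        rwa [he, pow_one] at h5
      have hsq : (X - C c) ^ 2 ∣ N0 := by
        rw [ha, pow_two]
        exact mul_dvd_mul hcg hca
      have hsq2 : (X - C c) ^ 2 ∣ F * (F ^ (p / 2) + 1) ^ 2 := by
        rw [hF0]
        exact dvd_add hsq ((pow_dvd_pow_of_dvd (hdvdD c) 2).mul_left _)
      have hcop : IsCoprime ((X - C c) ^ 2) ((F ^ (p / 2) + 1) ^ 2) := by
        refine IsCoprime.pow ((irreducible_X_sub_C c).coprime_iff_not_dvd.2 ?_)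
        intro h6
        have h7 : (F ^ (p / 2) + 1).eval c = 0 := dvd_iff_isRoot.1 h6
        rw [eval_add, eval_pow, eval_one, hF, g9_evalf, h0, zero_pow hq, zero_add] at h7
        exact one_ne_zero h7
      have hsqF : (X - C c) ^ 2 ∣ F := hcop.dvd_of_dvd_mul_right hsq2
      obtain ⟨w, hw⟩ := hsqF
      have hder : (derivative F).eval c = 0 := by
        rw [hw, derivative_mul, eval_add, eval_mul, eval_mul, derivative_X_sub_C_pow]
        simp
      have hder' : (derivative F).eval c = 3 * c ^ 2 + A := by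
        rw [hF]
        unfold ff
        simp
        left
        norm_num
      rw [hder'] at hder
      apply hd
      have hA : A = -3 * c ^ 2 := by linear_combination hder
      have hB : B = 2 * c ^ 3 := by
        rw [hA] at h0
        linear_combination h0
      rw [hA, hB]
      ring
    · -- square
      have hsq : IsSquare (c ^ 3 + A * c + B) := by
        by_contra h1
        apply hns
        unfold g9_e
        rw [if_neg h0, if_neg h1]
      rw [(ZMod.euler_criterion p h0).1 hsq] at hNc'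
      rw [hNc] at hNc'
      have h8 : (c ^ 3 + A * c + B) * (1 + 1) ^ 2 ≠ 0 := by
        refine mul_ne_zero h0 (pow_ne_zero 2 ?_)
        rw [one_add_one_eq_two]
        exact h2
      exact h8 hNc'.symm
  · have hNA := g9_NA (A := A) (B := B) hp
    have h5 : g.natDegree + a.natDegree = 2 * p + 1 := by
      rw [← natDegree_mul hmong.ne_zero hane, ← ha, hN0deg]
    have h6 : g.natDegree + b.natDegree = 2 * p := by
      rw [← hmong.natDegree_mul hmonb, ← hgb, natDegree_pow,
        FiniteField.X_pow_card_sub_X_natDegree_eq (ZMod p) (Fact.out : p.Prime).one_lt]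
    rw [hdegg] at h5 h6
    omega

end CM11
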