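import Pool.Agent.Lib.MP_34a732_nt.G8
import Pool.Agent.Lib.MP_34a732_nt.G4

/-!
Module GD: inseparable points of height p, first part.
PROOF of insep_x.  From Pole: Rep S P a b with deg b < deg a; P.xRep = (x,1) (at_xRep), so x ι b = ι a, b ≠ 0.  By ht_unique (the pair a, b gives Ht S P (max ..)) max deg = p, so natDegree a = p.
D(x ι b) = D(ι a): x ι b' = ι a', hence a b' = a' b in the polynomial ring (multiply by ι b; injectivity).  b divides a b' so b | b' (coprime), b' = 0 by degrees; then a' b = 0, a' = 0.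
Mathlib: derivative = 0 in characteristic p ⟹ a = expand p a1 (Polynomial.expand_contract), b = expand p b1; natDegree_expand: natDegree a1 = 1, natDegree b1 · p < p so b1 = C b0, b0 ≠ 0.
a1 = C a2 X + C a3; x = ι(a)/ι(b) = ι(C (a2/b0) X^p + C (a3/b0)) = (ι (C c X + C e))^p with c = a2/b0, e = a3/b0 (c^p = c in ZMod p, Frobenius; ZMod.expand_card).
-/

namespace CM11
open Polynomial WeierstrassCurve

variable {p : ℕ} [Fact p.Prime] {f : (ZMod p)[X]} {L : Type} [Field L] [Algebra (ZMod p) L]
  [DecidableEq L]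

theorem insep_x (S : FF p f L) {V : Affine L} {P : V.Point} {x y : L} (hP : At P x y)
    (hH : Ht S P p) (hPole : Pole S P) (hD : S.D x = 0) :
    ∃ c e : ZMod p, c ≠ 0 ∧ x = S.ι (C c * X + C e) ^ p := by
  have hp : p.Prime := Fact.out
  obtain ⟨a, b, hr, hdeg⟩ := hPole
  obtain ⟨hx0, hx1⟩ := at_xRep hP
  have hrel : x * S.ι b = S.ι a := by
    have := hr.2
    rw [hx0, hx1, one_mul] at this
    exact this
  have ha0 : a ≠ 0 := by
    rintro rfl
    rw [degree_zero] at hdeg
    exact absurd hdeg not_lt_bot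
  have hb0 : b ≠ 0 := by
    rintro rfl
    rw [map_zero, mul_zero] at hrel
    exact ha0 (S.inj (by rw [← hrel, map_zero]))
  have hmax : max a.natDegree b.natDegree = p := ht_unique S ⟨a, b, hr, rfl⟩ hH
  have hlt : b.natDegree < a.natDegree := natDegree_lt_natDegree hb0 hdeg
  have hda : a.natDegree = p := by rw [max_eq_left hlt.le] at hmax; exact hmax
  have hdb : b.natDegree < p := by rw [hda] at hlt; exact hlt
  -- differentiate
  have h1 : x * S.ι (derivative b) = S.ι (derivative a) := by
    have h := congrArg S.D hrel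
    rw [Derivation.leibniz, hD, smul_zero, add_zero, S.Dι, S.Dι, smul_eq_mul] at h
    exact h
  have h2 : a * derivative b = derivative a * b := by
    apply S.inj
    rw [map_mul, map_mul, ← hrel, ← h1]
    ring
  have h3 : b ∣ derivative b := by
    have h4 : b ∣ a * derivative b := ⟨derivative a, by rw [h2, mul_comm]⟩
    exact hr.1.symm.dvd_of_dvd_mul_left h4
  have hb' : derivative b = 0 := by
    by_contra hne
    have h5 := degree_le_of_dvd h3 hne
    exact absurd (degree_derivative_lt hb0) (not_lt.2 h5)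
  have ha' : derivative a = 0 := by
    rw [hb', mul_zero] at h2
    exact (mul_eq_zero.1 h2.symm).resolve_right hb0
  have ea := expand_contract p ha' hp.ne_zero
  have eb := expand_contract p hb' hp.ne_zero
  have na : (contract p a).natDegree = 1 := by
    have h6 := natDegree_expand p (contract p a)
    rw [ea, hda] at h6
    have : 1 * p = (contract p a).natDegree * p := by rw [one_mul]; exact h6
    exact (Nat.eq_of_mul_eq_mul_right hp.pos this).symm
  have nb : (contract p b).natDegree = 0 := by
    have h6 := natDegree_expand p (contract p b)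
    rw [eb] at h6
    by_contra hne
    have : 1 * p ≤ (contract p b).natDegree * p :=
      Nat.mul_le_mul_right p (Nat.one_le_iff_ne_zero.2 hne)
    omega
  obtain ⟨a2, a3, e1⟩ := exists_eq_X_add_C_of_natDegree_le_one na.le
  have e2 := eq_C_of_natDegree_eq_zero nb
  set b0 := (contract p b).coeff 0 with hb0def
  have hb00 : b0 ≠ 0 := by
    intro h
    rw [h, C_0] at e2
    rw [e2, map_zero] at eb
    exact hb0 eb.symm
  have ha2 : a2 ≠ 0 := by
    rintro rfl
    rw [e1, C_0, zero_mul, zero_add, natDegree_C] at na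
    exact zero_ne_one na
  have fa : a = (C a2 * X + C a3) ^ p := by
    rw [← ZMod.expand_card, ← e1, ea]
  have fb : b = (C b0) ^ p := by
    rw [← ZMod.expand_card, ← e2, eb]
  refine ⟨b0⁻¹ * a2, b0⁻¹ * a3, mul_ne_zero (inv_ne_zero hb00) ha2, ?_⟩
  have hι : S.ι (C b0) ≠ 0 := by
    intro h
    have h7 : (C b0 : (ZMod p)[X]) = 0 := S.inj (by rw [h, map_zero])
    exact hb00 (C_eq_zero.1 h7)
  rw [fa, fb, map_pow, map_pow] at hrel
  have h8 : (C (b0⁻¹ * a2) * X + C (b0⁻¹ * a3) : (ZMod p)[X]) = C b0⁻¹ * (C a2 * X + C a3) := by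
    rw [C_mul, C_mul]
    ring
  have h9 : S.ι (C b0⁻¹) * S.ι (C b0) = 1 := by
    rw [← map_mul, ← C_mul, inv_mul_cancel₀ hb00, C_1, map_one]
  rw [h8, map_mul, mul_pow, ← hrel]
  calc x = x * (S.ι (C b0⁻¹) * S.ι (C b0)) ^ p := by rw [h9, one_pow, mul_one]
    _ = _ := by ring

end CM11
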