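import Mathlib

/-!
Module R1: the dyadic part of the reciprocity computation.
PROOF.  Write p = m^2 + 11 m y + 33 y^2, m = 2^i m', y = 2^j y' with m', y' odd (signed).  p is odd so i = 0 or j = 0.
i = j = 0: if p % 4 = 1 there is nothing to prove (exponent 0); if p % 4 = 3: p ≡ 1 + 3 m y + 1 (mod 4), so m y ≡ 3 mod 4, χ₄(m' y') = -1.
i = 1, j = 0: m^2 ≡ 4, 33 y^2 ≡ 1, 11 m y = 22 m' y ≡ 6 m' y (mod 8), p ≡ 5 + 6 m'y: m'y ≡ 1 mod 4: p ≡ 3 mod 8, χ₈(p) = -1, χ₄(m'y) = 1; m'y ≡ 3 mod 4: p ≡ 7 mod 8, χ₈(p) = 1, χ₄ = -1.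
In both cases p % 4 = 3 and the product is -1.  i = 2: m^2 ≡ 0 mod 16, 11 m y = 44 m' y ≡ 4 mod 8, p ≡ 5 mod 8, exponent 2: (-1)^2 = 1.  i ≥ 3: p ≡ 1 mod 8, χ₈(p) = 1.
j = 1, i = 0: 33 y^2 = 132 y'^2 ≡ 4, m^2 ≡ 1, the same; j = 2, j ≥ 3 the same.
Technique: reduce everything mod 8 (decide on ZMod 8, or Int.emod_emod_of_dvd and interval cases for m' % 4, y' % 4, i, j ≤ 2).
-/

set_option autoImplicit false

namespace CM11

/-- the reduction from `ZMod 8` to `ZMod 4` -/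
def r1_red (x : ZMod 8) : ZMod 4 := ZMod.castHom (show 4 ∣ 8 by norm_num) (ZMod 4) x

/-- the form over `ZMod 8` -/
def r1_form (e f M Y : ZMod 8) : ZMod 8 := (e * M) ^ 2 + 11 * (e * M) * (f * Y) + 33 * (f * Y) ^ 2

theorem r1_red_mul (m y : ℤ) : ((m * y : ℤ) : ZMod 4) = r1_red ((m : ZMod 8) * (y : ZMod 8)) := by
  unfold r1_red
  rw [← Int.cast_mul, map_intCast]

def r1_odd (x : ZMod 8) : Prop := x = 1 ∨ x = 3 ∨ x = 5 ∨ x = 7

instance : DecidablePred r1_odd := fun x => by unfold r1_odd; infer_instance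

theorem r1_odd_int {m : ℤ} (hm : m % 2 = 1) : r1_odd (m : ZMod 8) := by
  have h1 : (m : ZMod 8) = ((m % 8 : ℤ) : ZMod 8) := (ZMod.intCast_mod m 8).symm
  have h2 : m % 8 = 1 ∨ m % 8 = 3 ∨ m % 8 = 5 ∨ m % 8 = 7 := by omega
  rw [h1]
  unfold r1_odd
  rcases h2 with h2 | h2 | h2 | h2 <;> rw [h2] <;> decide

theorem r1_00 : ∀ M Y : ZMod 8, r1_odd M → r1_odd Y →
    (r1_form 1 1 M Y = 3 ∨ r1_form 1 1 M Y = 7) → ZMod.χ₄ (r1_red (M * Y)) = -1 := by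
  decide

theorem r1_10 : ∀ M Y : ZMod 8, r1_odd M → r1_odd Y →
    ((r1_form 2 1 M Y = 1 ∨ r1_form 2 1 M Y = 5) → ZMod.χ₈ (r1_form 2 1 M Y) = 1) ∧
    ((r1_form 2 1 M Y = 3 ∨ r1_form 2 1 M Y = 7) →
      ZMod.χ₈ (r1_form 2 1 M Y) * ZMod.χ₄ (r1_red (M * Y)) = -1) := by
  decide

theorem r1_01 : ∀ M Y : ZMod 8, r1_odd M → r1_odd Y →
    ((r1_form 1 2 M Y = 1 ∨ r1_form 1 2 M Y = 5) → ZMod.χ₈ (r1_form 1 2 M Y) = 1) ∧
    ((r1_form 1 2 M Y = 3 ∨ r1_form 1 2 M Y = 7) →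
      ZMod.χ₈ (r1_form 1 2 M Y) * ZMod.χ₄ (r1_red (M * Y)) = -1) := by
  decide

theorem r1_20 : ∀ M Y : ZMod 8, r1_odd M → r1_odd Y →
    r1_form 4 1 M Y = 5 ∧ r1_form 1 4 M Y = 5 ∧ r1_form 0 1 M Y = 1 ∧ r1_form 1 0 M Y = 1 := by
  decide

theorem r1_even : ∀ M Y : ZMod 8, r1_odd M → r1_odd Y → ∀ e f : ZMod 8,
    (e = 0 ∨ e = 2 ∨ e = 4) → (f = 0 ∨ f = 2 ∨ f = 4) → ¬ r1_odd (r1_form e f M Y) := by
  decide

theorem r1_pow (i : ℕ) : (2 : ZMod 8) ^ (i + 1) = 0 ∨ (2 : ZMod 8) ^ (i + 1) = 2 ∨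
    (2 : ZMod 8) ^ (i + 1) = 4 := by
  have h8 : (2 : ZMod 8) ^ 3 = 0 := by decide
  rcases i with _ | _ | i
  · right; left
    norm_num
  · right; right
    norm_num
  · left
    rw [show i + 1 + 1 + 1 = i + 3 from rfl, pow_add, h8, mul_zero]

theorem dyadic {p : ℕ} (h2 : p % 2 = 1) {m y m' y' : ℤ} {i j : ℕ} (hm : m = 2 ^ i * m')
    (hy : y = 2 ^ j * y') (hm' : m' % 2 = 1) (hy' : y' % 2 = 1)
    (h : (p : ℤ) = m ^ 2 + 11 * m * y + 33 * y ^ 2) :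
    (p % 4 = 1 → (ZMod.χ₈ (p : ZMod 8)) ^ (i + j) = 1) ∧
    (p % 4 = 3 → (ZMod.χ₈ (p : ZMod 8)) ^ (i + j) * ZMod.χ₄ ((m' * y' : ℤ) : ZMod 4) = -1) := by
  have hM := r1_odd_int hm'
  have hY := r1_odd_int hy'
  have hP : (p : ZMod 8) = r1_form (2 ^ i) (2 ^ j) (m' : ZMod 8) (y' : ZMod 8) := by
    have h1 := congrArg (Int.cast : ℤ → ZMod 8) h
    rw [hm, hy] at h1
    push_cast at h1
    rw [h1]
    unfold r1_form
    ring
  have hodd : r1_odd (p : ZMod 8) := by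
    have h1 := r1_odd_int (m := (p : ℤ)) (by omega)
    simpa using h1
  have hp1 : p % 4 = 1 → (p : ZMod 8) = 1 ∨ (p : ZMod 8) = 5 := by
    intro h4
    have h1 : (p : ZMod 8) = ((p % 8 : ℕ) : ZMod 8) := by simp
    rcases (show p % 8 = 1 ∨ p % 8 = 5 by omega) with h5 | h5
    · left; rw [h1, h5]; decide
    · right; rw [h1, h5]; decide
  have hp3 : p % 4 = 3 → (p : ZMod 8) = 3 ∨ (p : ZMod 8) = 7 := by
    intro h4
    have h1 : (p : ZMod 8) = ((p % 8 : ℕ) : ZMod 8) := by simp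
    rcases (show p % 8 = 3 ∨ p % 8 = 7 by omega) with h5 | h5
    · left; rw [h1, h5]; decide
    · right; rw [h1, h5]; decide
  have h8 : (2 : ZMod 8) ^ 3 = 0 := by decide
  have e51 : (5 : ZMod 8) ≠ 3 ∧ (5 : ZMod 8) ≠ 7 ∧ (1 : ZMod 8) ≠ 3 ∧ (1 : ZMod 8) ≠ 7 := by decide
  have c5 : (ZMod.χ₈ (5 : ZMod 8)) ^ 2 = 1 := by decide
  have c1 : ZMod.χ₈ (1 : ZMod 8) = 1 := by decide
  rw [r1_red_mul]
  obtain ⟨t1, t2, t3, t4⟩ := r1_20 _ _ hM hY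
  -- the value 5 and the value 1
  have five : (p : ZMod 8) = 5 → i + j = 2 →
      (p % 4 = 1 → (ZMod.χ₈ (p : ZMod 8)) ^ (i + j) = 1) ∧
      (p % 4 = 3 → (ZMod.χ₈ (p : ZMod 8)) ^ (i + j) *
        ZMod.χ₄ (r1_red ((m' : ZMod 8) * (y' : ZMod 8))) = -1) := by
    intro h5 hij
    rw [hij]
    refine ⟨fun _ => by rw [h5]; exact c5, fun h6 => ?_⟩
    rcases hp3 h6 with h7 | h7
    · exact absurd (h5.symm.trans h7) e51.1
    · exact absurd (h5.symm.trans h7) e51.2.1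
  have one : (p : ZMod 8) = 1 →
      (p % 4 = 1 → (ZMod.χ₈ (p : ZMod 8)) ^ (i + j) = 1) ∧
      (p % 4 = 3 → (ZMod.χ₈ (p : ZMod 8)) ^ (i + j) *
        ZMod.χ₄ (r1_red ((m' : ZMod 8) * (y' : ZMod 8))) = -1) := by
    intro h5
    refine ⟨fun _ => by rw [h5, c1, one_pow], fun h6 => ?_⟩
    rcases hp3 h6 with h7 | h7
    · exact absurd (h5.symm.trans h7) e51.2.2.1
    · exact absurd (h5.symm.trans h7) e51.2.2.2
  rcases i with _ | i
  · rw [pow_zero] at hP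
    rcases j with _ | _ | _ | j
    · rw [pow_zero] at hP
      refine ⟨fun _ => by simp, fun h6 => ?_⟩
      rw [add_zero, pow_zero, one_mul]
      apply r1_00 _ _ hM hY
      rw [← hP]
      exact hp3 h6
    · rw [zero_add, pow_one] at hP
      obtain ⟨h5, h6⟩ := r1_01 _ _ hM hY
      rw [← hP] at h5 h6
      simp only [zero_add, pow_one]
      exact ⟨fun h7 => h5 (hp1 h7), fun h7 => h6 (hp3 h7)⟩
    · apply five _ rfl
      rw [hP, ← t2]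
      norm_num
    · apply one
      rw [hP, show j + 1 + 1 + 1 = j + 3 from rfl, pow_add, h8, mul_zero]
      exact t4
  · rcases j with _ | j
    · rw [pow_zero] at hP
      rcases i with _ | _ | i
      · rw [zero_add, pow_one] at hP
        obtain ⟨h5, h6⟩ := r1_10 _ _ hM hY
        rw [← hP] at h5 h6
        simp only [zero_add, add_zero, pow_one]
        exact ⟨fun h7 => h5 (hp1 h7), fun h7 => h6 (hp3 h7)⟩
      · apply five _ rfl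
        rw [hP, ← t1]
        norm_num
      · apply one
        rw [hP, show i + 1 + 1 + 1 = i + 3 from rfl, pow_add, h8, mul_zero]
        exact t3
    · exfalso
      rw [hP] at hodd
      exact r1_even _ _ hM hY _ _ (r1_pow i) (r1_pow j) hodd

end CM11
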