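import Pool.Agent.Lib.MP_34a732_nt.R1

/-!
Module R2: quadratic reciprocity.
STATEMENT: p > 11 prime, p = m^2 + 11 m y + 33 y^2: (3 m y / p) = (p m / 3) (m / 11).
(It is checked numerically for all p < 1200.)
PROOF.  m, y ≠ 0 (p is not a square, p is not 33 y^2), p does not divide m y.  m = 2^i m', y = 2^j y', m', y' odd; a = |m'|, b = |y'| (natAbs), σ = sign(m' y').
(3my/p) = (3/p)(σ/p)(2/p)^(i+j)(a/p)(b/p).  Jacobi symbols (jacobiSym, quadratic_reciprocity_of_one_mod_four, ..._three_mod_four; jacobiSym.mod_left, at_two).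
gcd(m, y) = 1 (else p would not be prime: g^2 | p).  (p/b) = (m^2/b) = 1, (p/a) = (33 y^2/a) = (33/a) = (a/33) (33 ≡ 1 mod 4), gcd(a, 33) = 1 (p > 11 prime), (a/33) = (a/3)(a/11).
p % 4 = 1: (3/p) = (p/3), (σ/p) = 1, (a/p) = (p/a), (b/p) = (p/b) = 1, (2/p)^(i+j) = 1 (dyadic; (2/p) = χ₈(p)); LHS = (p/3)(a/3)(a/11).
RHS = (p/3)(m/3)(m/11), and (m/3)(m/11) = (±1/3)(±1/11)(2/3)^i(2/11)^i (a/3)(a/11) = (a/3)(a/11), since (-1/3) = (-1/11) = -1, (2/3) = (2/11) = -1.
p % 4 = 3: (3/p) = -(p/3), (a/p) = χ₄(a)(p/a), (b/p) = χ₄(b) (p/b), (-1/p) = -1 = χ₄(-1), so (σ/p) χ₄(a) χ₄(b) = χ₄(m' y'), and LHS = -(p/3)(2/p)^(i+j) χ₄(m'y') (a/33) = (p/3)(a/33) by dyadic.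
Everything can be done with quadraticChar (ZMod p) or legendreSym; the statement uses jacobiSym (for p prime jacobiSym.legendreSym.to_jacobiSym).
-/

set_option autoImplicit false

namespace CM11

open scoped NumberTheorySymbols in
/-- reciprocity for signed odd numbers -/
theorem r2_signed {p : ℕ} (hp : p % 2 = 1) {m : ℤ} (hm : m % 2 = 1) :
    (p % 4 = 1 → jacobiSym m p = jacobiSym p m.natAbs) ∧
    (p % 4 = 3 → jacobiSym m p = ZMod.χ₄ (m : ZMod 4) * jacobiSym p m.natAbs) := by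
  have hpo : Odd p := Nat.odd_iff.2 hp
  have hao : Odd m.natAbs := by
    rw [Nat.odd_iff]
    omega
  have hneg : jacobiSym (-1) p = ZMod.χ₄ (p : ZMod 4) := jacobiSym.at_neg_one hpo
  constructor
  · intro h4
    have h1 : jacobiSym (-1) p = 1 := by
      rw [hneg]
      exact ZMod.χ₄_nat_one_mod_four h4
    have h2 : jacobiSym (m.natAbs : ℤ) p = jacobiSym p m.natAbs :=
      jacobiSym.quadratic_reciprocity_one_mod_four' hao h4
    rcases Int.natAbs_eq m with h3 | h3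
    · rw [← h2, ← h3]
    · rw [← h2]
      conv_lhs => rw [h3, neg_eq_neg_one_mul, jacobiSym.mul_left, h1, one_mul]
  · intro h4
    have h1 : jacobiSym (-1) p = -1 := by
      rw [hneg]
      exact ZMod.χ₄_nat_three_mod_four h4
    have h2 : jacobiSym (m.natAbs : ℤ) p =
        ZMod.χ₄ (m.natAbs : ZMod 4) * jacobiSym p m.natAbs := by
      rcases (show m.natAbs % 4 = 1 ∨ m.natAbs % 4 = 3 by omega) with h5 | h5
      · rw [ZMod.χ₄_nat_one_mod_four h5, one_mul]
        exact jacobiSym.quadratic_reciprocity_one_mod_four h5 hpo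
      · rw [ZMod.χ₄_nat_three_mod_four h5, neg_one_mul]
        exact jacobiSym.quadratic_reciprocity_three_mod_four h5 h4
    rcases Int.natAbs_eq m with h3 | h3
    · have h6 : ((m : ℤ) : ZMod 4) = (m.natAbs : ZMod 4) := by
        conv_lhs => rw [h3]
        simp
      rw [h6, ← h2, ← h3]
    · have h6 : ((m : ℤ) : ZMod 4) = -1 * (m.natAbs : ZMod 4) := by
        conv_lhs => rw [h3]
        simp
      have h7 : ZMod.χ₄ (-1 : ZMod 4) = -1 := by decide
      rw [h6, map_mul, h7, mul_assoc, ← h2]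
      conv_lhs => rw [h3, neg_eq_neg_one_mul, jacobiSym.mul_left, h1]

/-- the power of two in an integer -/
theorem r2_two {m : ℤ} (hm : m ≠ 0) : ∃ (i : ℕ) (m' : ℤ), m = 2 ^ i * m' ∧ m' % 2 = 1 := by
  obtain ⟨i, a, ha, h⟩ := Nat.exists_eq_two_pow_mul_odd (Int.natAbs_ne_zero.2 hm)
  rw [Nat.odd_iff] at ha
  have h1 : (m.natAbs : ℤ) = 2 ^ i * (a : ℤ) := by
    rw [h]
    push_cast
    ring
  rcases Int.natAbs_eq m with h3 | h3
  · exact ⟨i, a, by rw [h3, h1], by omega⟩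
  · exact ⟨i, -a, by rw [h3, h1]; ring, by omega⟩

theorem recip {p : ℕ} [Fact p.Prime] (hp : 11 < p) {m y : ℤ}
    (h : (p : ℤ) = m ^ 2 + 11 * m * y + 33 * y ^ 2) :
    jacobiSym (3 * m * y) p = jacobiSym (p * m) 3 * jacobiSym m 11 := by
  have hpp : p.Prime := Fact.out
  have hpZ : Prime (p : ℤ) := Nat.prime_iff_prime_int.1 hpp
  have hodd : p % 2 = 1 := by
    rcases hpp.eq_two_or_odd with h1 | h1
    · omega
    · exact h1
  -- coprime
  have hcop : IsCoprime m y := by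
    rw [Int.isCoprime_iff_gcd_eq_one]
    by_contra hne
    obtain ⟨q, hq, hqd⟩ := Nat.exists_prime_and_dvd hne
    have h1 : (q : ℤ) ∣ m := (Int.natCast_dvd_natCast.2 hqd).trans (Int.gcd_dvd_left m y)
    have h2 : (q : ℤ) ∣ y := (Int.natCast_dvd_natCast.2 hqd).trans (Int.gcd_dvd_right m y)
    obtain ⟨c, hc⟩ := h1
    obtain ⟨d, hd⟩ := h2
    have h3 : (p : ℤ) = (q : ℤ) * ((q : ℤ) * (c ^ 2 + 11 * c * d + 33 * d ^ 2)) := by
      rw [h, hc, hd]
      ring
    have h4 : q * q ∣ p := by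
      have : ((q * q : ℕ) : ℤ) ∣ (p : ℤ) := by
        push_cast
        exact ⟨c ^ 2 + 11 * c * d + 33 * d ^ 2, by rw [h3]; ring⟩
      exact_mod_cast this
    have h5 : q = p := by
      have := (Nat.dvd_prime hpp).1 ((Dvd.intro _ rfl).trans h4)
      rcases this with h6 | h6
      · exact absurd h6 hq.one_lt.ne'
      · exact h6
    rw [h5] at h4
    have h6 := Nat.le_of_dvd hpp.pos h4
    nlinarith [hpp.two_le]
  have hm0 : m ≠ 0 := by
    rintro rfl
    have h1 : IsUnit y := isCoprime_zero_left.1 hcop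
    rcases Int.isUnit_iff.1 h1 with h2 | h2 <;> rw [h2] at h <;> norm_num at h
    all_goals
      have h3 : p = 33 := by exact_mod_cast h
      rw [h3] at hpp
      norm_num at hpp
  have hy0 : y ≠ 0 := by
    rintro rfl
    have h1 : IsUnit m := isCoprime_zero_right.1 hcop
    rcases Int.isUnit_iff.1 h1 with h2 | h2 <;> rw [h2] at h <;> norm_num at h
    all_goals
      have h3 : p = 1 := by exact_mod_cast h
      omega
  obtain ⟨i, m', hm, hm'⟩ := r2_two hm0
  obtain ⟨j, y', hy, hy'⟩ := r2_two hy0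
  obtain ⟨d1, d3⟩ := dyadic hodd hm hy hm' hy' h
  obtain ⟨a1, a3⟩ := r2_signed hodd hm'
  obtain ⟨b1, b3⟩ := r2_signed hodd hy'
  have hm'm : m' ∣ m := ⟨2 ^ i, by rw [hm]; ring⟩
  have hy'y : y' ∣ y := ⟨2 ^ j, by rw [hy]; ring⟩
  -- the symbol of `p` modulo `y'`
  have hpy : jacobiSym p y'.natAbs = 1 := by
    have h1 : jacobiSym p y'.natAbs = jacobiSym (m ^ 2) y'.natAbs := by
      apply jacobiSym.mod_left'
      apply Int.ModEq.symm
      rw [Int.modEq_iff_dvd]
      have h2 : ((y'.natAbs : ℕ) : ℤ) ∣ y := Int.natAbs_dvd.2 hy'y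
      rw [h]
      have h3 : m ^ 2 + 11 * m * y + 33 * y ^ 2 - m ^ 2 = y * (11 * m + 33 * y) := by ring
      rw [h3]
      exact h2.mul_right _
    rw [h1]
    apply jacobiSym.sq_one'
    rw [← Int.isCoprime_iff_gcd_eq_one]
    have h2 := hcop.of_isCoprime_of_dvd_right hy'y
    rcases Int.natAbs_eq y' with h3 | h3
    · rwa [← h3]
    · have h4 : ((y'.natAbs : ℕ) : ℤ) = -y' := by omega
      rw [h4]
      exact h2.neg_right
  have hpm : jacobiSym p m'.natAbs = jacobiSym 33 m'.natAbs := by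
    have h1 : jacobiSym p m'.natAbs = jacobiSym (33 * y ^ 2) m'.natAbs := by
      apply jacobiSym.mod_left'
      apply Int.ModEq.symm
      rw [Int.modEq_iff_dvd]
      have h2 : ((m'.natAbs : ℕ) : ℤ) ∣ m := Int.natAbs_dvd.2 hm'm
      rw [h]
      have h3 : m ^ 2 + 11 * m * y + 33 * y ^ 2 - 33 * y ^ 2 = m * (m + 11 * y) := by ring
      rw [h3]
      exact h2.mul_right _
    rw [h1, jacobiSym.mul_left]
    have h4 : jacobiSym (y ^ 2) m'.natAbs = 1 := by
      apply jacobiSym.sq_one'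
      rw [← Int.isCoprime_iff_gcd_eq_one]
      have h2 := hcop.symm.of_isCoprime_of_dvd_right hm'm
      rcases Int.natAbs_eq m' with h3 | h3
      · rwa [← h3]
      · have h4 : ((m'.natAbs : ℕ) : ℤ) = -m' := by omega
        rw [h4]
        exact h2.neg_right
    rw [h4, mul_one]
  have hao : Odd m'.natAbs := by
    rw [Nat.odd_iff]
    omega
  have h33 : jacobiSym 33 m'.natAbs = jacobiSym (m'.natAbs : ℤ) 33 := by
    have h1 := jacobiSym.quadratic_reciprocity_one_mod_four (a := 33) (b := m'.natAbs)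
      (by norm_num) hao
    exact_mod_cast h1
  have h33' : jacobiSym (m'.natAbs : ℤ) 33 = jacobiSym m' 3 * jacobiSym m' 11 := by
    have h1 : jacobiSym (m'.natAbs : ℤ) 33 =
        jacobiSym (m'.natAbs : ℤ) 3 * jacobiSym (m'.natAbs : ℤ) 11 :=
      jacobiSym.mul_right (m'.natAbs : ℤ) 3 11
    rw [h1]
    rcases Int.natAbs_eq m' with h3 | h3
    · rw [← h3]
    · conv_rhs => rw [h3, neg_eq_neg_one_mul, jacobiSym.mul_left, jacobiSym.mul_left]
      have e3 : jacobiSym (-1) 3 = -1 := by decide +kernel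
      have e11 : jacobiSym (-1) 11 = -1 := by decide +kernel
      rw [e3, e11]
      ring
  have hm33 : jacobiSym m 3 * jacobiSym m 11 = jacobiSym m' 3 * jacobiSym m' 11 := by
    have e3 : jacobiSym 2 3 = -1 := by decide +kernel
    have e11 : jacobiSym 2 11 = -1 := by decide +kernel
    rw [hm, jacobiSym.mul_left, jacobiSym.mul_left, jacobiSym.pow_left, jacobiSym.pow_left, e3, e11]
    have e : ((-1 : ℤ) ^ i) * (-1) ^ i = 1 := by
      rw [← mul_pow]
      norm_num
    calc (-1 : ℤ) ^ i * jacobiSym m' 3 * ((-1) ^ i * jacobiSym m' 11)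
        = ((-1 : ℤ) ^ i * (-1) ^ i) * (jacobiSym m' 3 * jacobiSym m' 11) := by ring
      _ = _ := by rw [e, one_mul]
  have h2p : jacobiSym 2 p = ZMod.χ₈ (p : ZMod 8) := jacobiSym.at_two (Nat.odd_iff.2 hodd)
  have hL : jacobiSym (3 * m * y) p = jacobiSym 3 p * (jacobiSym 2 p) ^ (i + j) *
      (jacobiSym m' p * jacobiSym y' p) := by
    rw [jacobiSym.mul_left, jacobiSym.mul_left]
    conv_lhs => rw [hm, hy, jacobiSym.mul_left, jacobiSym.mul_left, jacobiSym.pow_left,
      jacobiSym.pow_left]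
    rw [pow_add]
    ring
  rw [hL, h2p, jacobiSym.mul_left (p : ℤ) m 3, mul_assoc (jacobiSym (p : ℤ) 3), hm33, ← h33',
    ← h33, ← hpm]
  rcases (show p % 4 = 1 ∨ p % 4 = 3 by omega) with h4 | h4
  · rw [d1 h4, a1 h4, b1 h4, hpy]
    have h5 : jacobiSym 3 p = jacobiSym p 3 := by
      have h1 := jacobiSym.quadratic_reciprocity_one_mod_four' (a := 3) (b := p)
        (by decide) h4
      exact_mod_cast h1
    rw [h5]
    ring
  · rw [a3 h4, b3 h4, hpy]
    have h5 : jacobiSym 3 p = -jacobiSym p 3 := by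
      have h1 := jacobiSym.quadratic_reciprocity_three_mod_four (a := 3) (b := p)
        (by norm_num) h4
      exact_mod_cast h1
    have h6 := d3 h4
    rw [Int.cast_mul, map_mul] at h6
    rw [h5]
    calc -jacobiSym p 3 * (ZMod.χ₈ (p : ZMod 8)) ^ (i + j) *
          (ZMod.χ₄ (m' : ZMod 4) * jacobiSym p m'.natAbs * (ZMod.χ₄ (y' : ZMod 4) * 1))
        = -jacobiSym p 3 * jacobiSym p m'.natAbs * ((ZMod.χ₈ (p : ZMod 8)) ^ (i + j) *
          (ZMod.χ₄ (m' : ZMod 4) * ZMod.χ₄ (y' : ZMod 4))) := by ring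
      _ = _ := by rw [h6]; ring

end CM11
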