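import Pool.Agent.Lib.MP_34a732_nt.Defs

/-!
Module T1: an element with nonzero derivative is transcendental over F_p.
-/

namespace CM11
open Polynomial

variable {p : ℕ} [Fact p.Prime] {L : Type} [Field L] [Algebra (ZMod p) L]

theorem t1_aux (D : Derivation (ZMod p) L L) {x : L} (hx : D x ≠ 0) (n : ℕ) :
    ∀ a : (ZMod p)[X], a.natDegree ≤ n → aeval x a = 0 → a = 0 := by
  induction n with
  | zero =>
    intro a ha h
    obtain ⟨c, rfl⟩ := natDegree_eq_zero.1 (Nat.le_zero.1 ha)
    rw [aeval_C] at h
    have : c = 0 := (map_eq_zero (algebraMap (ZMod p) L)).1 h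
    rw [this, map_zero]
  | succ n ih =>
    intro a ha h
    by_cases hz : a.natDegree = 0
    · exact ih a (by omega) h
    have h1 : aeval x (derivative a) * D x = 0 := by
      have := D.map_aeval a x
      rw [h, map_zero, smul_eq_mul] at this
      exact this.symm
    have h2 := (mul_eq_zero.1 h1).resolve_right hx
    have h3 : derivative a = 0 := by
      refine ih _ ?_ h2
      have := natDegree_derivative_lt hz
      omega
    have hp : 1 < p := (Fact.out : p.Prime).one_lt
    have h4 := Polynomial.expand_contract p h3 (Fact.out : p.Prime).ne_zero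
    have h5 : a = (contract p a) ^ p := by
      rw [← ZMod.expand_card, h4]
    have h6 : aeval x (contract p a) = 0 := by
      rw [h5, map_pow] at h
      exact pow_eq_zero_iff (Fact.out : p.Prime).ne_zero |>.1 h
    have h7 : (contract p a).natDegree * p = a.natDegree := by
      conv_rhs => rw [h5]
      rw [natDegree_pow, mul_comm]
    have h8 : (contract p a).natDegree ≤ n := by
      by_contra hlt
      push Not at hlt
      nlinarith
    have h9 := ih _ h8 h6
    rw [h5, h9, zero_pow (Fact.out : p.Prime).ne_zero]

theorem aeval_inj (D : Derivation (ZMod p) L L) {x : L} (hx : D x ≠ 0) (a : (ZMod p)[X])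
    (h : aeval x a = 0) : a = 0 := t1_aux D hx _ a le_rfl h

end CM11
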