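import Pool.Agent.Lib.MP_34a732_nt.Vel
import Pool.Agent.Lib.MP_34a732_nt.G6
import Pool.Agent.Lib.MP_34a732_nt.T1

/-!
Module T2: the rational point of order three; translation by it.
PROOFS.  p0_exists: (16+4r)^2 = 12^3 + A 12 + B (use r^2 = -11).  p0_dbl: at_dbl with slope 6 (6·2(16+4r) = 3·144 + A11 r, exactly 192+48r): x = 36 - 24 = 12, y = 6(12-12) - (16+4r), and at_neg, at_ext.
p0_order: 3 • P0 = 0 and P0 ≠ 0; if 3 does not divide m then P0 is a combination of m • P0 and 3 • P0 (addOrderOf_eq_prime, or m = 3k ± 1).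
tau_exists: G + P0 ≠ 0 (G ≠ -P0: T is not 12, injectivity of ι; at_neg, at_inj), coordinates x1, y1 (exists_at).  mu D (G+P0) = mu D G + mu D P0 (mu_add) = 1/s·D T + 0 ≠ 0:
mu D P0 = D(constant)/.. = 0, D T = ι (derivative X) = 1.  So D x1 ≠ 0 (mu_at).  aeval_inj gives the hypothesis of S.lift, y1^2 = aeval x1 (ff A B) (at_eqn; ff unfolded): τ with τ T = aeval x1 X = x1, τ s = y1.  at_map and at_ext.
-/

namespace CM11
open Polynomial WeierstrassCurve

variable {p : ℕ} [Fact p.Prime] {L : Type} [Field L] [Algebra (ZMod p) L]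
  [DecidableEq L] {r : ZMod p}

theorem p0_exists (hp : 11 < p) (hr : r ^ 2 = -11) :
    ∃ P : (EL L (A11 r) (B11 r)).Point, IsP0 r P := by
  obtain ⟨h2, h3, h11, hd, hA, hB, hκ, hκ', hu, hu', hy⟩ := consts hp hr
  have hV : Sh (EL L (A11 r) (B11 r)) := el_sh h2 hd
  have key : (16 + 4 * r) ^ 2 = 12 ^ 3 + A11 r * 12 + B11 r := by
    unfold A11 B11
    linear_combination 16 * hr
  have e : (algebraMap (ZMod p) L (16 + 4 * r)) ^ 2 =
      (algebraMap (ZMod p) L 12) ^ 3 + algebraMap (ZMod p) L (A11 r) * algebraMap (ZMod p) L 12 +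
        algebraMap (ZMod p) L (B11 r) := by
    rw [← map_pow, key, map_add, map_add, map_mul, map_pow]
  exact at_mk hV e

theorem p0_dbl (hp : 11 < p) (hr : r ^ 2 = -11) {P : (EL L (A11 r) (B11 r)).Point}
    (h : IsP0 r P) : P + P = -P := by
  obtain ⟨h2, h3, h11, hd, hA, hB, hκ, hκ', hu, hu', hy⟩ := consts hp hr
  have hV : Sh (EL L (A11 r) (B11 r)) := el_sh h2 hd
  unfold IsP0 at h
  have hy' : algebraMap (ZMod p) L (16 + 4 * r) ≠ 0 := by
    rw [Ne, map_eq_zero_iff _ (algebraMap (ZMod p) L).injective]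
    exact hy
  have key : (6 : ZMod p) * (2 * (16 + 4 * r)) = 3 * 12 ^ 2 + A11 r := by
    unfold A11
    ring
  have e : algebraMap (ZMod p) L 6 * (algebraMap (ZMod p) L 2 * algebraMap (ZMod p) L (16 + 4 * r)) =
      algebraMap (ZMod p) L 3 * (algebraMap (ZMod p) L 12) ^ 2 + algebraMap (ZMod p) L (A11 r) := by
    rw [← map_mul, ← map_mul, key, map_add, map_mul, map_pow]
  have e6 : algebraMap (ZMod p) L 6 = 6 := map_ofNat _ 6
  have e3 : algebraMap (ZMod p) L 3 = 3 := map_ofNat _ 3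
  have e2 : algebraMap (ZMod p) L 2 = 2 := map_ofNat _ 2
  have e12 : algebraMap (ZMod p) L 12 = 12 := map_ofNat _ 12
  rw [e6, e3, e2] at e
  have h1 := at_dbl hV (m := 6) h hy' (by rw [el_a4]; exact e)
  rw [e12] at h1
  rw [e12] at h
  have ex : (6 : L) ^ 2 - 2 * 12 = 12 := by norm_num
  rw [ex] at h1
  have ey : (6 : L) * (12 - 12) - algebraMap (ZMod p) L (16 + 4 * r) =
      - algebraMap (ZMod p) L (16 + 4 * r) := by ring
  rw [ey] at h1
  exact at_ext h1 (at_neg hV h)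

theorem p0_order (hp : 11 < p) (hr : r ^ 2 = -11) {P : (EL L (A11 r) (B11 r)).Point}
    (h : IsP0 r P) {m : ℤ} (hm : m • P = 0) : 3 ∣ m := by
  have h1 := p0_dbl hp hr h
  have h3 : (3 : ℤ) • P = 0 := by
    have : (3 : ℤ) • P = P + P + P := by
      rw [show (3 : ℤ) = 1 + 1 + 1 by norm_num, add_zsmul, add_zsmul, one_zsmul]
    rw [this, h1, neg_add_cancel]
  have h0 : P ≠ 0 := at_ne_zero h
  by_contra hn
  have hcop : IsCoprime (3 : ℤ) m := by
    rw [Int.isCoprime_iff_gcd_eq_one]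
    have hpr : Nat.Prime 3 := by norm_num
    have := (Nat.Prime.coprime_iff_not_dvd hpr (n := m.natAbs)).mpr (by
      intro hd
      exact hn (by
        have := Int.natCast_dvd.mpr hd
        exact_mod_cast this))
    simpa [Int.gcd] using this
  obtain ⟨a, b, hab⟩ := hcop
  apply h0
  calc P = (1 : ℤ) • P := (one_zsmul P).symm
    _ = (a * 3 + b * m) • P := by rw [hab]
    _ = 0 := by
      rw [add_zsmul, mul_zsmul, mul_zsmul, h3, hm, zsmul_zero, zsmul_zero, add_zero]

theorem tau_exists (hp : 11 < p) (hr : r ^ 2 = -11) (S : FF p (ff p (A11 r) (B11 r)) L)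
    {G P : (EL L (A11 r) (B11 r)).Point} (hG : IsGen S G) (h : IsP0 r P) :
    ∃ τ : L →ₐ[ZMod p] L, Affine.Point.map (W' := WW p (A11 r) (B11 r)) τ G = G + P := by
  obtain ⟨h2, h3, h11, hd, hA, hB, hκ, hκ', hu, hu', hy⟩ := consts hp hr
  have hV : Sh (EL L (A11 r) (B11 r)) := el_sh h2 hd
  unfold IsP0 at h
  unfold IsGen at hG
  have hDX : S.D (S.ι X) = 1 := by
    rw [S.Dι, derivative_X, map_one]
  have hs0 : S.s ≠ 0 := by
    intro hs
    have h1 := S.ssq
    rw [hs] at h1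
    have h2' : S.ι (ff p (A11 r) (B11 r)) = 0 := by
      rw [← h1]; ring
    have h3' : ff p (A11 r) (B11 r) = 0 := S.inj (by rw [h2', map_zero])
    have h4 : (ff p (A11 r) (B11 r)).natDegree = 3 := by
      unfold ff
      compute_degree!
    rw [h3', natDegree_zero] at h4
    exact absurd h4 (by norm_num)
  have hne : G + P ≠ 0 := by
    intro h0
    have h1 : G = -P := eq_neg_of_add_eq_zero_left h0
    rw [h1] at hG
    have h4 := (at_inj hG (at_neg hV h)).1
    have h5 : S.D (S.ι X) = 0 := by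
      rw [h4]
      exact S.D.map_algebraMap 12
    rw [hDX] at h5
    exact one_ne_zero h5
  obtain ⟨x1, y1, h1⟩ := exists_at hne
  have hmuG : mu S.D G = 1 / S.s := by
    rw [mu_at hG, hDX]
  have hmuP : mu S.D P = 0 := by
    rw [mu_at h, S.D.map_algebraMap, zero_div]
  have hmu : mu S.D (G + P) = 1 / S.s := by
    rw [mu_add h2 hd, hmuG, hmuP, add_zero]
  have hDx : S.D x1 ≠ 0 := by
    intro h0
    rw [mu_at h1, h0, zero_div] at hmu
    exact (one_div_ne_zero hs0) hmu.symm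
  have hinj := fun a ha => aeval_inj S.D hDx a ha
  have heq := at_eqn hV h1
  rw [el_a4, el_a6] at heq
  obtain ⟨τ, hτ1, hτ2⟩ := S.lift x1 y1 hinj (by
    rw [heq]
    unfold ff
    simp only [map_add, map_mul, map_pow, aeval_X, aeval_C])
  refine ⟨τ, ?_⟩
  have h5 := at_map (L := L) (K := L) τ hG
  rw [hτ1, hτ2, aeval_X] at h5
  exact at_ext h5 h1

end CM11
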