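import Pool.Agent.Lib.MP_34a732_nt.T2

/-!
Module T3: conj(α) G is invariant under translation by P0.
PROOF.  y0 = 16+4r, T = S.ι X, s = S.s.  By at_add (slopes m1 = (s-y0)/(T-12), m2 = (s+y0)/(T-12); for G - P0 = G + (-P0)):
G + P0 = (x1, y1), x1 = m1^2 - T - 12, y1 = m1 (T - x1) - s;  G - P0 = (x2, y2), x2 = m2^2 - T - 12, y2 = m2 (T - x2) - s.
Identities (κ = (1-r)/2, use s^2 = T^3 + A T + B, r^2 = -11): x(Ab) = κ^(-2) (T + x1 + x2 - 24), y(Ab) = κ^(-3) (s + y1 + y2): indeed T + x1 + x2 - 24 = 2(f(T) + y0^2)/(T-12)^2 - T - 48 = vX T 12 t0 u0.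
map τ P0 = P0 (its coordinates are constants, τ.commutes, at_map, at_ext).  map τ G = G + P0, map τ (G+P0) = G + P0 + P0 = G - P0 (p0_dbl), map τ (G - P0) = G + P0 - P0 = G.
So τ T = x1, τ x1 = x2, τ x2 = T, and the same for s, y1, y2 (at_map, at_inj); τ fixes κ.  So τ fixes the coordinates of Ab; at_map, at_ext.
-/

namespace CM11
open Polynomial WeierstrassCurve

theorem t3_id1 {L : Type} [Field L] {T s ρ : L} (hd : T - 12 ≠ 0)
    (hs : s ^ 2 = T ^ 3 + 48 * (ρ - 5) * T + 112 * (11 - 4 * ρ)) (hρ : ρ ^ 2 = -11) :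
    vX T 12 (96 * (4 + ρ)) (64 * (5 + 8 * ρ)) =
      T + (((s - (16 + 4 * ρ)) / (T - 12)) ^ 2 - T - 12) +
        (((s + (16 + 4 * ρ)) / (T - 12)) ^ 2 - T - 12) - 24 := by
  unfold vX
  have key : T * (T - 12) ^ 2 + 96 * (4 + ρ) * (T - 12) + 64 * (5 + 8 * ρ) =
      (s - (16 + 4 * ρ)) ^ 2 + (s + (16 + 4 * ρ)) ^ 2 - (T + 48) * (T - 12) ^ 2 := by
    linear_combination (-2) * hs - 32 * hρ
  have hd2 : (T - 12) ^ 2 ≠ 0 := pow_ne_zero _ hd
  have e1 : T + 96 * (4 + ρ) / (T - 12) + 64 * (5 + 8 * ρ) / (T - 12) ^ 2 =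
      (T * (T - 12) ^ 2 + 96 * (4 + ρ) * (T - 12) + 64 * (5 + 8 * ρ)) / (T - 12) ^ 2 := by
    field_simp
  rw [e1, key]
  field_simp
  ring

theorem t3_id2 {L : Type} [Field L] {T s ρ m1 m2 x1 x2 : L} (hd : T - 12 ≠ 0)
    (hs : s ^ 2 = T ^ 3 + 48 * (ρ - 5) * T + 112 * (11 - 4 * ρ)) (hρ : ρ ^ 2 = -11)
    (h1 : m1 * (T - 12) = s - (16 + 4 * ρ)) (h2 : m2 * (T - 12) = s + (16 + 4 * ρ))
    (hx1 : x1 = m1 ^ 2 - T - 12) (hx2 : x2 = m2 ^ 2 - T - 12) :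
    s * vY T 12 (96 * (4 + ρ)) (64 * (5 + 8 * ρ)) =
      s + (m1 * (T - x1) - s) + (m2 * (T - x2) - s) := by
  unfold vY
  have key : (T - 12) ^ 3 - 96 * (4 + ρ) * (T - 12) - 2 * (64 * (5 + 8 * ρ)) =
      2 * (2 * T + 12) * (T - 12) ^ 2 - 2 * s ^ 2 - 6 * (16 + 4 * ρ) ^ 2 - (T - 12) ^ 3 := by
    linear_combination 2 * hs + 96 * hρ
  have hd3 : (T - 12) ^ 3 ≠ 0 := pow_ne_zero _ hd
  have e1 : s * (1 - 96 * (4 + ρ) / (T - 12) ^ 2 - 2 * (64 * (5 + 8 * ρ)) / (T - 12) ^ 3) =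
      s * ((T - 12) ^ 3 - 96 * (4 + ρ) * (T - 12) - 2 * (64 * (5 + 8 * ρ))) / (T - 12) ^ 3 := by
    field_simp
  rw [e1, key, div_eq_iff hd3, hx1, hx2]
  have e2 : m1 ^ 3 * (T - 12) ^ 3 = (s - (16 + 4 * ρ)) ^ 3 := by rw [← mul_pow, h1]
  have e3 : m2 ^ 3 * (T - 12) ^ 3 = (s + (16 + 4 * ρ)) ^ 3 := by rw [← mul_pow, h2]
  linear_combination (-(2 * T + 12) * (T - 12) ^ 2) * h1 - (2 * T + 12) * (T - 12) ^ 2 * h2 +
    e2 + e3

variable {p : ℕ} [Fact p.Prime] {L : Type} [Field L] [Algebra (ZMod p) L]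
  [DecidableEq L] {r : ZMod p}

theorem tau_ab (hp : 11 < p) (hr : r ^ 2 = -11) (S : FF p (ff p (A11 r) (B11 r)) L)
    {G P Ab : (EL L (A11 r) (B11 r)).Point} (hG : IsGen S G) (h : IsP0 r P) (hb : IsAb S r Ab)
    (τ : L →ₐ[ZMod p] L) (hτ : Affine.Point.map (W' := WW p (A11 r) (B11 r)) τ G = G + P) :
    Affine.Point.map (W' := WW p (A11 r) (B11 r)) τ Ab = Ab := by
  obtain ⟨h2, h3, h11, hd, hA, hB, hκ, hκ', hu, hu', hy⟩ := consts hp hr
  have hV : Sh (EL L (A11 r) (B11 r)) := el_sh h2 hd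
  have hdbl := p0_dbl hp hr h
  unfold IsP0 at h
  unfold IsGen at hG
  unfold IsAb IsVel at hb
  set T := S.ι X with hT
  set s := S.s with hsdef
  set ρ := algebraMap (ZMod p) L r with hρdef
  have e12 : algebraMap (ZMod p) L 12 = 12 := map_ofNat _ 12
  have ey0 : algebraMap (ZMod p) L (16 + 4 * r) = 16 + 4 * ρ := by
    rw [map_add, map_mul, map_ofNat, map_ofNat]
  have et0 : algebraMap (ZMod p) L (96 * (4 + r)) = 96 * (4 + ρ) := by
    rw [map_mul, map_add, map_ofNat, map_ofNat]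
  have eu0 : algebraMap (ZMod p) L (64 * (5 + 8 * r)) = 64 * (5 + 8 * ρ) := by
    rw [map_mul, map_add, map_mul, map_ofNat, map_ofNat, map_ofNat]
  have hρ : ρ ^ 2 = -11 := by
    rw [hρdef, ← map_pow, hr, map_neg, map_ofNat]
  have hs : s ^ 2 = T ^ 3 + 48 * (ρ - 5) * T + 112 * (11 - 4 * ρ) := by
    rw [hsdef, S.ssq]
    have eC : ∀ c : ZMod p, S.ι (C c) = algebraMap (ZMod p) L c := fun c => S.ι.commutes c
    have eF : ff p (A11 r) (B11 r) = X ^ 3 + C (A11 r) * X + C (B11 r) := rfl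
    have e1 : S.ι (ff p (A11 r) (B11 r)) = T ^ 3 + algebraMap (ZMod p) L (A11 r) * T +
        algebraMap (ZMod p) L (B11 r) := by
      rw [hT, ← eC, ← eC, ← map_pow, ← map_mul, ← map_add, ← map_add, ← eF]
    rw [e1]
    unfold A11 B11
    simp only [map_mul, map_sub, map_ofNat, ← hρdef]
  have hDX : S.D T = 1 := by
    rw [hT, S.Dι, derivative_X, map_one]
  have hne : T ≠ 12 := by
    intro h4
    have h5 : S.D T = 0 := by
      rw [h4, ← e12]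
      exact S.D.map_algebraMap 12
    rw [hDX] at h5
    exact one_ne_zero h5
  have hd0 : T - 12 ≠ 0 := sub_ne_zero.mpr hne
  rw [e12, ey0] at h
  rw [e12, et0, eu0] at hb
  have hneg := at_neg hV h
  have hm1 : ((s - (16 + 4 * ρ)) / (T - 12)) * (T - 12) = s - (16 + 4 * ρ) :=
    div_mul_cancel₀ _ hd0
  have hm2 : ((s + (16 + 4 * ρ)) / (T - 12)) * (T - 12) = s + (16 + 4 * ρ) :=
    div_mul_cancel₀ _ hd0
  have h1 := at_add hV hG h hne hm1
  have h2' := at_add hV hG hneg hne (m := (s + (16 + 4 * ρ)) / (T - 12)) (by rw [hm2]; ring)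
  have hτP : Affine.Point.map (W' := WW p (A11 r) (B11 r)) τ P = P := by
    have h5 := at_map (L := L) (K := L) τ h
    rw [← e12, ← ey0, τ.commutes, τ.commutes, e12, ey0] at h5
    exact at_ext h5 h
  have hτ1 : Affine.Point.map (W' := WW p (A11 r) (B11 r)) τ (G + P) = G + -P := by
    rw [map_add, hτ, hτP, add_assoc, hdbl]
  have hτ2 : Affine.Point.map (W' := WW p (A11 r) (B11 r)) τ (G + -P) = G := by
    rw [map_add, map_neg, hτ, hτP, add_neg_cancel_right]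
  have k0 := at_map (L := L) (K := L) τ hG
  rw [hτ] at k0
  obtain ⟨k1, k2⟩ := at_inj k0 h1
  have k3 := at_map (L := L) (K := L) τ h1
  rw [hτ1] at k3
  obtain ⟨k4, k5⟩ := at_inj k3 h2'
  have k6 := at_map (L := L) (K := L) τ h2'
  rw [hτ2] at k6
  obtain ⟨k7, k8⟩ := at_inj k6 hG
  have id1 := t3_id1 hd0 hs hρ
  have id2 := t3_id2 hd0 hs hρ hm1 hm2 rfl rfl
  have i1 : τ (vX T 12 (96 * (4 + ρ)) (64 * (5 + 8 * ρ))) =
      vX T 12 (96 * (4 + ρ)) (64 * (5 + 8 * ρ)) := by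
    rw [id1]
    rw [map_sub, map_add τ (T + _), map_add τ T, k1, k4, k7, map_ofNat]
    ring
  have i2 : τ (s * vY T 12 (96 * (4 + ρ)) (64 * (5 + 8 * ρ))) =
      s * vY T 12 (96 * (4 + ρ)) (64 * (5 + 8 * ρ)) := by
    rw [id2]
    rw [map_add τ (s + _), map_add τ s, k2, k5, k8]
    ring
  have hκτ : τ (algebraMap (ZMod p) L ((1 - r) / 2)) = algebraMap (ZMod p) L ((1 - r) / 2) :=
    τ.commutes _
  generalize algebraMap (ZMod p) L ((1 - r) / 2) = κ at hb hκτ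
  have k9 := at_map (L := L) (K := L) τ hb
  rw [map_div₀, map_div₀, map_pow, map_pow, hκτ, i1, i2] at k9
  exact at_ext k9 hb

end CM11
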