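import Pool.Agent.Lib.MP_34a732_nt.G12
import Pool.Agent.Lib.MP_34a732_nt.C1

/-!
The trace for `u + v + a/(uv) = 1`.
-/

namespace CM11
open SCong

variable {p : ℕ} [Fact p.Prime]

theorem trace_eval (hp : 11 < p) {x y : ℤ} (hxy : x ^ 2 + 11 * y ^ 2 = 4 * (p : ℤ))
    (hy : (y : ZMod p) ≠ 0) :
    ∃ ε : ℤ, (ε = 1 ∨ ε = -1) ∧
      (p : ℤ) - 2 - NN p ((4 + -(x : ZMod p) / y) / 8 / 27) = ε * x ∧ 3 ∣ ε + (x + y) := by
  have h0 : (x : ZMod p) + y * (-(x : ZMod p) / y) = 0 := by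
    field_simp
    ring
  have hr : (-(x : ZMod p) / y) ^ 2 = -11 := by
    have h1 : (x : ZMod p) ^ 2 + 11 * (y : ZMod p) ^ 2 = 0 := by
      have := congrArg (Int.cast (R := ZMod p)) hxy
      push_cast at this
      rw [this, ZMod.natCast_self, mul_zero]
    field_simp
    linear_combination h1
  obtain ⟨ε, hε, hN, hs⟩ := trace_curve hp hr hxy h0
  refine ⟨ε, hε, ?_, hs⟩
  rw [na_eq hp hr] at hN
  push_cast at hN
  linarith

end CM11
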